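import Pool.Agent.Lib.P51n0.Defs

/-!
Module Fam of MP_51a855_an (part 0): the families `Fn`, `Om`, `Th` and their symbols.

Proof. `GoodP`: `‖act (trj j t) f‖ = ‖f‖` and `(y, g) ↦ act (trj j (y/2^n)) g` is jointly continuous
(cf. `actCont_tr`, `ActCont.sub_one`, `ActCont.mul` in P51a855/Block.lean: the proofs work verbatim for
families parametrised by any topological space `X`); `‖act (1 - trj j t) f‖ ≤ 2 ‖f‖`, so
`‖act ((1 - trj j t)^l) f‖ ≤ 2^l ‖f‖` and `‖act (Fn l j n y) f‖ ≤ (1 + 2^l) ‖f‖`.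
Symbols: `chi k (Fn l j n y) = 1 - (1 - exp (k_j (y/2^n) i))^l` by `chi_trj`, and linearity of the
integral (bounded continuous integrands).
`sym_bound`: by the binomial theorem
`gS ν l t = ∑_{i=1}^l (-1)^(i+1) C(l,i) ∫ e^{i t (i y)} dν`, so
`‖gS ν l t‖ ≤ 2^l C ((1 + |t|)^M)⁻¹` (`1 + i|t| ≥ 1 + |t|`), for `t = k/2^n` and `t = k/2^(n-1)`,
`|k|/2^(n-1) ≥ |k|/2^n`.
-/

set_option autoImplicit false

open MeasureTheory
open scoped ENNReal NNReal

noncomputable section

namespace Pool.Agent.Lib.P51n0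

open Pool.Agent.Lib.P51a855

variable {d : ℕ}

namespace FamAux

lemma cont_single {X : Type} [TopologicalSpace X] (j : Fin d) (n : ℕ) (y : X → ℝ)
    (hy : Continuous y) :
    Continuous fun u => (Pi.single j (((y u / 2 ^ n : ℝ)) : Circ) : Torus d) := by
  refine continuous_pi fun i => ?_
  by_cases h : i = j
  · subst h
    simp only [Pi.single_eq_same]
    exact (AddCircle.continuous_mk' (2 * Real.pi)).comp (hy.div_const _)
  · simp only [Pi.single_eq_of_ne h]
    exact continuous_const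

lemma cont_trj {X : Type} [TopologicalSpace X] (j : Fin d) (n : ℕ) (y : X → ℝ)
    (g : X → C(Torus d, ℝ)) (hy : Continuous y) (hg : Continuous g) :
    Continuous fun u => act (trj j (y u / 2 ^ n)) (g u) := by
  have e : (fun u => act (trj j (y u / 2 ^ n)) (g u)) =
      fun u => sh (Pi.single j (((y u / 2 ^ n : ℝ)) : Circ) : Torus d) (g u) := by
    funext u
    exact act_tr _ _
  rw [e]
  refine ContinuousMap.continuous_of_continuous_uncurry _ ?_
  show Continuous fun p : X × Torus d =>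
    (g p.1) (p.2 + (Pi.single j (((y p.1 / 2 ^ n : ℝ)) : Circ) : Torus d))
  exact (ContinuousEval.continuous_eval).comp ((hg.comp continuous_fst).prodMk
    (continuous_snd.add ((cont_single j n y hy).comp continuous_fst)))

lemma act_one_sub (a : TA d) (f : C(Torus d, ℝ)) : act (1 - a) f = f - act a f := by
  rw [map_sub, map_one]
  rfl

lemma act_pow_succ (a : TA d) (l : ℕ) (f : C(Torus d, ℝ)) :
    act (a ^ (l + 1)) f = act a (act (a ^ l) f) := by
  rw [pow_succ', act_mul_apply]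

lemma act_pow_zero (a : TA d) (f : C(Torus d, ℝ)) : act (a ^ 0) f = f := by
  rw [pow_zero, map_one]
  rfl

lemma cont_pow {X : Type} [TopologicalSpace X] (j : Fin d) (n : ℕ) (l : ℕ) (y : X → ℝ)
    (g : X → C(Torus d, ℝ)) (hy : Continuous y) (hg : Continuous g) :
    Continuous fun u => act ((1 - trj j (y u / 2 ^ n)) ^ l) (g u) := by
  induction l with
  | zero =>
    simp only [act_pow_zero]
    exact hg
  | succ l ih =>
    simp only [act_pow_succ, act_one_sub]
    exact ih.sub (cont_trj j n y _ hy ih)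

lemma norm_trj (j : Fin d) (t : ℝ) (f : C(Torus d, ℝ)) : ‖act (trj j t) f‖ ≤ ‖f‖ := by
  unfold trj
  rw [act_tr, ContinuousMap.norm_le _ (norm_nonneg f)]
  intro x
  rw [sh_apply]
  exact f.norm_coe_le_norm _

lemma norm_pow (j : Fin d) (t : ℝ) (l : ℕ) (f : C(Torus d, ℝ)) :
    ‖act ((1 - trj j t) ^ l) f‖ ≤ 2 ^ l * ‖f‖ := by
  induction l with
  | zero =>
    rw [act_pow_zero]
    simp
  | succ l ih =>
    rw [act_pow_succ, act_one_sub]
    have h1 := norm_trj j t (act ((1 - trj j t) ^ l) f)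
    have h2 := norm_sub_le (act ((1 - trj j t) ^ l) f) (act (trj j t) (act ((1 - trj j t) ^ l) f))
    rw [pow_succ]
    linarith

lemma good_zero : GoodP (fun _ : ℝ => (0 : TA d)) 0 where
  cont := by
    intro X _ y g _ _
    simp only [map_zero, LinearMap.zero_apply]
    exact continuous_const
  nonneg := le_rfl
  bound := by
    intro y f
    simp

lemma good_mono {P : ℝ → TA d} {B B' : ℝ} (h : GoodP P B) (hB : B ≤ B') : GoodP P B' where
  cont := h.cont
  nonneg := h.nonneg.trans hB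
  bound := fun y f => (h.bound y f).trans (mul_le_mul_of_nonneg_right hB (norm_nonneg f))

lemma good_add {P Q : ℝ → TA d} {B B' : ℝ} (h : GoodP P B) (h' : GoodP Q B') :
    GoodP (fun y => P y + Q y) (B + B') where
  cont := by
    intro X _ y g hy hg
    simp only [map_add, LinearMap.add_apply]
    exact (h.cont X y g hy hg).add (h'.cont X y g hy hg)
  nonneg := add_nonneg h.nonneg h'.nonneg
  bound := by
    intro y f
    rw [map_add, LinearMap.add_apply, add_mul]
    exact (norm_add_le _ _).trans (add_le_add (h.bound y f) (h'.bound y f))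

lemma good_sub {P Q : ℝ → TA d} {B B' : ℝ} (h : GoodP P B) (h' : GoodP Q B') :
    GoodP (fun y => P y - Q y) (B + B') where
  cont := by
    intro X _ y g hy hg
    simp only [map_sub, LinearMap.sub_apply]
    exact (h.cont X y g hy hg).sub (h'.cont X y g hy hg)
  nonneg := add_nonneg h.nonneg h'.nonneg
  bound := by
    intro y f
    rw [map_sub, LinearMap.sub_apply, add_mul]
    exact (norm_sub_le _ _).trans (add_le_add (h.bound y f) (h'.bound y f))

end FamAux

open FamAux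

theorem good_Fn (l : ℕ) (j : Fin d) (n : ℕ) : GoodP (Fn l j n) (1 + 2 ^ l) where
  cont := by
    intro X _ y g hy hg
    unfold Fn
    simp only [act_one_sub]
    exact hg.sub (cont_pow j n l y g hy hg)
  nonneg := by positivity
  bound := by
    intro y f
    unfold Fn
    rw [act_one_sub]
    have h1 := norm_pow j (y / 2 ^ n) l f
    have h2 := norm_sub_le f (act ((1 - trj j (y / 2 ^ n)) ^ l) f)
    linarith

namespace FamAux

lemma good_Fp (l : ℕ) (j : Fin d) (n : ℕ) : GoodP (Fp l j n) (1 + 2 ^ l) := by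
  by_cases hn : n = 0
  · have e : Fp l j n = fun _ : ℝ => (0 : TA d) := by
      funext y
      simp [Fp, hn]
    rw [e]
    exact good_mono good_zero (by positivity)
  · have e : Fp l j n = Fn l j (n - 1) := by
      funext y
      simp [Fp, hn]
    rw [e]
    exact good_Fn l j (n - 1)

end FamAux

theorem good_Om (l : ℕ) (j : Fin d) (n : ℕ) : GoodP (Om l j n) (2 * (1 + 2 ^ l)) := by
  rw [two_mul]
  exact good_add (good_Fn l j n) (good_Fp l j n)

theorem good_Th (l : ℕ) (j : Fin d) (n : ℕ) : GoodP (Th l j n) (2 * (1 + 2 ^ l)) := by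
  rw [two_mul]
  exact good_sub (good_Fn l j n) (good_Fp l j n)

namespace FamAux

lemma chi_Fn (l : ℕ) (j : Fin d) (n : ℕ) (k : Fin d → ℤ) (y : ℝ) :
    chi k (Fn l j n y) =
      1 - (1 - Complex.exp ((((k j : ℝ) / 2 ^ n : ℝ) : ℂ) * y * Complex.I)) ^ l := by
  unfold Fn
  rw [map_sub, map_pow, map_sub, map_one, chi_trj]
  congr 4
  push_cast
  ring

lemma norm_exp (t y : ℝ) : ‖Complex.exp ((t : ℂ) * y * Complex.I)‖ = 1 := by
  rw [← Complex.ofReal_mul]
  exact Complex.norm_exp_ofReal_mul_I _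

lemma cont_exp (t : ℝ) : Continuous fun y : ℝ => Complex.exp ((t : ℂ) * y * Complex.I) := by
  fun_prop

lemma integrable_exp (ν : Measure ℝ) [IsProbabilityMeasure ν] (t : ℝ) :
    Integrable (fun y : ℝ => Complex.exp ((t : ℂ) * y * Complex.I)) ν := by
  refine Integrable.of_bound (cont_exp t).aestronglyMeasurable 1
    (Filter.Eventually.of_forall fun y => ?_)
  exact (norm_exp t y).le

lemma integrable_g (ν : Measure ℝ) [IsProbabilityMeasure ν] (l : ℕ) (t : ℝ) :
    Integrable (fun y : ℝ => 1 - (1 - Complex.exp ((t : ℂ) * y * Complex.I)) ^ l) ν := by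
  have hc : Continuous fun y : ℝ => 1 - (1 - Complex.exp ((t : ℂ) * y * Complex.I)) ^ l :=
    continuous_const.sub ((continuous_const.sub (cont_exp t)).pow l)
  refine Integrable.of_bound hc.aestronglyMeasurable (1 + 2 ^ l)
    (Filter.Eventually.of_forall fun y => ?_)
  refine (norm_sub_le _ _).trans ?_
  rw [norm_one, _root_.norm_pow]
  have h1 : ‖1 - Complex.exp ((t : ℂ) * y * Complex.I)‖ ≤ 2 := by
    refine (norm_sub_le _ _).trans ?_
    rw [norm_one, norm_exp]
    norm_num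
  have h2 := pow_le_pow_left₀ (norm_nonneg _) h1 l
  linarith

lemma integrable_Fn (ν : Measure ℝ) [IsProbabilityMeasure ν] (l : ℕ) (j : Fin d) (n : ℕ)
    (k : Fin d → ℤ) : Integrable (fun y => chi k (Fn l j n y)) ν := by
  simp only [chi_Fn]
  exact integrable_g ν l _

lemma integrable_Fp (ν : Measure ℝ) [IsProbabilityMeasure ν] (l : ℕ) (j : Fin d) (n : ℕ)
    (k : Fin d → ℤ) : Integrable (fun y => chi k (Fp l j n y)) ν := by
  by_cases hn : n = 0
  · simp only [Fp, hn, if_true, map_zero]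
    exact integrable_const 0
  · simp only [Fp, hn, if_false]
    exact integrable_Fn ν l j (n - 1) k

end FamAux

theorem sym_Fn (ν : Measure ℝ) [IsProbabilityMeasure ν] (l : ℕ) (j : Fin d) (n : ℕ)
    (k : Fin d → ℤ) : ∫ y, chi k (Fn l j n y) ∂ν = fS ν l n (k j) := by
  unfold fS gS
  simp only [chi_Fn]

namespace FamAux

lemma sym_Fp (ν : Measure ℝ) [IsProbabilityMeasure ν] (l : ℕ) (j : Fin d) (n : ℕ)
    (k : Fin d → ℤ) : ∫ y, chi k (Fp l j n y) ∂ν = fpS ν l n (k j) := by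
  by_cases hn : n = 0
  · simp only [Fp, fpS, hn, if_true, map_zero, integral_zero]
  · simp only [Fp, fpS, hn, if_false]
    exact sym_Fn ν l j (n - 1) k

end FamAux

theorem sym_Om (ν : Measure ℝ) [IsProbabilityMeasure ν] (l : ℕ) (j : Fin d) (n : ℕ)
    (k : Fin d → ℤ) : ∫ y, chi k (Om l j n y) ∂ν = fS ν l n (k j) + fpS ν l n (k j) := by
  unfold Om
  simp only [map_add]
  rw [integral_add (integrable_Fn ν l j n k) (integrable_Fp ν l j n k), sym_Fn, sym_Fp]

theorem sym_Th (ν : Measure ℝ) [IsProbabilityMeasure ν] (l : ℕ) (j : Fin d) (n : ℕ)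
    (k : Fin d → ℤ) : ∫ y, chi k (Th l j n y) ∂ν = fS ν l n (k j) - fpS ν l n (k j) := by
  unfold Th
  simp only [map_sub]
  rw [integral_sub (integrable_Fn ν l j n k) (integrable_Fp ν l j n k), sym_Fn, sym_Fp]

namespace FamAux

lemma expand (l : ℕ) (z : ℂ) : 1 - (1 - z) ^ l =
    ∑ i ∈ Finset.range l, (-((-1) ^ (i + 1) * (l.choose (i + 1) : ℂ))) * z ^ (i + 1) := by
  have h := add_pow (-z) 1 l
  rw [Finset.sum_range_succ'] at h
  simp only [one_pow, mul_one, pow_zero, Nat.choose_zero_right, Nat.cast_one] at h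
  have h2 : (1 - z) ^ l = (-z + 1) ^ l := by
    congr 1
    ring
  rw [h2, h, sub_add_eq_sub_sub_swap, sub_self, zero_sub, ← Finset.sum_neg_distrib]
  refine Finset.sum_congr rfl fun i _ => ?_
  rw [neg_pow z]
  ring

lemma gS_bound {M : ℕ} {C : ℝ} {ν : Measure ℝ} (h : Nu M C ν) (l : ℕ) (t : ℝ) :
    ‖gS ν l t‖ ≤ 2 ^ l * C * ((1 + |t|) ^ M)⁻¹ := by
  haveI := h.prob
  have hC : 0 ≤ C := by
    have h0 := (norm_nonneg _).trans (h.decay 0)
    simpa using h0
  unfold gS
  simp only [expand]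
  have hz : ∀ (y : ℝ) (i : ℕ), Complex.exp ((t : ℂ) * y * Complex.I) ^ (i + 1) =
      Complex.exp ((((i + 1 : ℕ) * t : ℝ) : ℂ) * y * Complex.I) := by
    intro y i
    rw [← Complex.exp_nat_mul]
    congr 1
    push_cast
    ring
  simp only [hz]
  rw [integral_finset_sum _ fun i _ => (integrable_exp ν _).const_mul _]
  have hs : ∑ i ∈ Finset.range l, (l.choose (i + 1) : ℝ) ≤ 2 ^ l := by
    have h1 := Nat.sum_range_choose l
    rw [Finset.sum_range_succ'] at h1
    have h2 : ((∑ i ∈ Finset.range l, l.choose (i + 1) + l.choose 0 : ℕ) : ℝ) =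
        ((2 ^ l : ℕ) : ℝ) := by rw [h1]
    push_cast at h2
    have h3 : (0 : ℝ) ≤ (l.choose 0 : ℝ) := Nat.cast_nonneg _
    linarith
  calc ‖∑ i ∈ Finset.range l, ∫ y, (-((-1) ^ (i + 1) * (l.choose (i + 1) : ℂ))) *
        Complex.exp ((((i + 1 : ℕ) * t : ℝ) : ℂ) * y * Complex.I) ∂ν‖
      ≤ ∑ i ∈ Finset.range l, ‖∫ y, (-((-1) ^ (i + 1) * (l.choose (i + 1) : ℂ))) *
        Complex.exp ((((i + 1 : ℕ) * t : ℝ) : ℂ) * y * Complex.I) ∂ν‖ := norm_sum_le _ _
    _ ≤ ∑ i ∈ Finset.range l, (l.choose (i + 1) : ℝ) * (C * ((1 + |t|) ^ M)⁻¹) := by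
        refine Finset.sum_le_sum fun i _ => ?_
        rw [integral_const_mul, norm_mul]
        have e1 : ‖(-((-1) ^ (i + 1) * (l.choose (i + 1) : ℂ)))‖ = (l.choose (i + 1) : ℝ) := by
          rw [norm_neg, norm_mul, _root_.norm_pow, norm_neg, norm_one, one_pow, one_mul,
            Complex.norm_natCast]
        rw [e1]
        refine mul_le_mul_of_nonneg_left ?_ (Nat.cast_nonneg _)
        refine (h.decay _).trans ?_
        refine mul_le_mul_of_nonneg_left ?_ hC
        refine inv_anti₀ (by positivity) ?_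
        refine pow_le_pow_left₀ (by positivity) ?_ M
        rw [abs_mul, Nat.abs_cast]
        have h5 : (1 : ℝ) ≤ ((i + 1 : ℕ) : ℝ) := by
          push_cast
          have : (0 : ℝ) ≤ (i : ℝ) := Nat.cast_nonneg i
          linarith
        have h6 := mul_le_mul_of_nonneg_right h5 (abs_nonneg t)
        linarith
    _ = (∑ i ∈ Finset.range l, (l.choose (i + 1) : ℝ)) * (C * ((1 + |t|) ^ M)⁻¹) :=
        (Finset.sum_mul _ _ _).symm
    _ ≤ 2 ^ l * (C * ((1 + |t|) ^ M)⁻¹) := by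
        refine mul_le_mul_of_nonneg_right hs ?_
        positivity
    _ = 2 ^ l * C * ((1 + |t|) ^ M)⁻¹ := by ring

end FamAux

theorem sym_bound {M : ℕ} {C : ℝ} {ν : Measure ℝ} (h : Nu M C ν) (l n : ℕ) (k : ℤ) :
    ‖fS ν l n k + fpS ν l n k‖ ≤ 2 * (2 ^ l * C) * ((1 + |(k : ℝ)| / 2 ^ n) ^ M)⁻¹ := by
  have hC : 0 ≤ C := by
    have h0 := (norm_nonneg _).trans (h.decay 0)
    simpa using h0
  have hab : |(k : ℝ) / 2 ^ n| = |(k : ℝ)| / 2 ^ n := by
    rw [abs_div, abs_of_pos (by positivity : (0 : ℝ) < 2 ^ n)]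
  have h1 : ‖fS ν l n k‖ ≤ 2 ^ l * C * ((1 + |(k : ℝ)| / 2 ^ n) ^ M)⁻¹ := by
    have := gS_bound h l ((k : ℝ) / 2 ^ n)
    rw [hab] at this
    exact this
  have h2 : ‖fpS ν l n k‖ ≤ 2 ^ l * C * ((1 + |(k : ℝ)| / 2 ^ n) ^ M)⁻¹ := by
    unfold fpS
    by_cases hn : n = 0
    · rw [if_pos hn, norm_zero]
      positivity
    · rw [if_neg hn]
      have h3 := gS_bound h l ((k : ℝ) / 2 ^ (n - 1))
      have hab' : |(k : ℝ) / 2 ^ (n - 1)| = |(k : ℝ)| / 2 ^ (n - 1) := by
        rw [abs_div, abs_of_pos (by positivity : (0 : ℝ) < 2 ^ (n - 1))]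
      rw [hab'] at h3
      refine h3.trans ?_
      refine mul_le_mul_of_nonneg_left ?_ (by positivity)
      refine inv_anti₀ (by positivity) ?_
      refine pow_le_pow_left₀ (by positivity) ?_ M
      have h4 : |(k : ℝ)| / 2 ^ n ≤ |(k : ℝ)| / 2 ^ (n - 1) := by
        refine div_le_div_of_nonneg_left (abs_nonneg _) (by positivity) ?_
        exact pow_le_pow_right₀ (by norm_num) (Nat.sub_le n 1)
      linarith
  calc ‖fS ν l n k + fpS ν l n k‖ ≤ ‖fS ν l n k‖ + ‖fpS ν l n k‖ := norm_add_le _ _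
    _ ≤ 2 ^ l * C * ((1 + |(k : ℝ)| / 2 ^ n) ^ M)⁻¹ +
        2 ^ l * C * ((1 + |(k : ℝ)| / 2 ^ n) ^ M)⁻¹ := add_le_add h1 h2
    _ = 2 * (2 ^ l * C) * ((1 + |(k : ℝ)| / 2 ^ n) ^ M)⁻¹ := by ring

end Pool.Agent.Lib.P51n0
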