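import Pool.Agent.Lib.P51n0.Avg
import Pool.Agent.Lib.P51n0.Fam

/-!
Module Conv of MP_51a855_an (part 0): convergence. (All imports are black boxes.)

Proof. Let `A_n f = avg ν (fun j => Fn l j n) f`, `‖A_n‖ ≤ B = (1 + 2^l)^d`. It suffices that
`A_n f → f`, since `‖A_n A_n f - f‖ ≤ ‖A_n (A_n f - f)‖ + ‖A_n f - f‖ ≤ (B + 1) ‖A_n f - f‖`.
Let `ε > 0`; by uniform continuity (`f` continuous on a compact space) there is `δ` with
`‖act (1 - trj j t) f‖ ≤ ε` for all `j` and `|t| ≤ δ`. For `|y_j| ≤ 1`, `2^(-n) ≤ δ` show by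
induction on the finset `S` that
`‖act (∏_{j∈S} Fn l j n (y j)) f - f‖ ≤ |S| (1 + 2^l)^|S| 2^l ε`: with `Q = ∏_{j ∈ S} Fn …`,
`Q Fn_j - 1 = Q (Fn_j - 1) + (Q - 1)`, `Fn_j - 1 = -(1 - trj j (y_j/2^n))^l =
-(1 - trj)^(l-1) (1 - trj)` as `l ≥ 1`, so
`‖act (Q (Fn_j - 1)) f‖ ≤ (1 + 2^l)^|S| 2^(l-1) ‖act (1 - trj j (y_j/2^n)) f‖`. Then
`norm_avg_sub_le`.
-/

set_option autoImplicit false

open MeasureTheory
open scoped ENNReal NNReal

noncomputable section

namespace Pool.Agent.Lib.P51n0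

open Pool.Agent.Lib.P51a855

variable {d : ℕ}

/-- the smoothing element depends only on `y / 2 ^ n` -/
lemma Fn_eq (l : ℕ) (j : Fin d) (n : ℕ) (y : ℝ) : Fn l j n y = Fn l j 0 (y / 2 ^ n) := by
  unfold Fn
  rw [pow_zero, div_one]

lemma Fn_zero (l : ℕ) (hl : 1 ≤ l) (j : Fin d) : Fn l j 0 0 = 1 := by
  have h : trj j (0 / 2 ^ 0) = (1 : TA d) := by
    rw [zero_div]
    unfold trj
    have e : (Pi.single j ((0 : ℝ) : Circ) : Torus d) = 0 := by
      rw [AddCircle.coe_zero, Pi.single_zero]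
    rw [e]
    exact tr_zero
  unfold Fn
  rw [h, sub_self, zero_pow (by omega), sub_zero]

/-- the smoothing elements with small steps are almost the identity -/
lemma Fn_small (l : ℕ) (hl : 1 ≤ l) (f : C(Torus d, ℝ)) {ε : ℝ} (hε : 0 < ε) :
    ∃ δ : ℝ, 0 < δ ∧ ∀ j : Fin d, ∀ t : ℝ, |t| < δ → ‖act (Fn l j 0 t) f - f‖ ≤ ε := by
  have h : ∀ᶠ t : ℝ in nhds 0, ∀ j : Fin d, ‖act (Fn l j 0 t) f - f‖ < ε := by
    rw [Filter.eventually_all]
    intro j
    have hc : Continuous fun t : ℝ => ‖act (Fn l j 0 t) f - f‖ :=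
      (((good_Fn l j 0).cont ℝ (fun t => t) (fun _ => f) continuous_id continuous_const).sub
        continuous_const).norm
    have h0 : ‖act (Fn l j 0 0) f - f‖ < ε := by
      rw [Fn_zero l hl, map_one, Module.End.one_apply, sub_self, norm_zero]
      exact hε
    exact hc.continuousAt.eventually_lt continuousAt_const h0
  obtain ⟨δ, hδ, hb⟩ := Metric.eventually_nhds_iff.1 h
  refine ⟨δ, hδ, fun j t ht => (hb ?_ j).le⟩
  rw [Real.dist_eq, sub_zero]
  exact ht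

/-- products of operators which are almost the identity on `f` -/
lemma prod_small (S : Finset (Fin d)) (F : Fin d → TA d) (f : C(Torus d, ℝ)) {B ε : ℝ}
    (hB : 1 ≤ B) (hε : 0 ≤ ε) (h1 : ∀ j, ∀ g : C(Torus d, ℝ), ‖act (F j) g‖ ≤ B * ‖g‖)
    (h2 : ∀ j, ‖act (F j) f - f‖ ≤ ε) :
    ‖act (∏ j ∈ S, F j) f - f‖ ≤ S.card * B ^ S.card * ε := by
  induction S using Finset.induction_on with
  | empty => simp
  | insert j S hj ih =>
    rw [Finset.prod_insert hj, act_mul_apply, Finset.card_insert_of_notMem hj]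
    have e : act (F j) (act (∏ i ∈ S, F i) f) - f =
        act (F j) (act (∏ i ∈ S, F i) f - f) + (act (F j) f - f) := by
      rw [map_sub]
      abel
    rw [e]
    have k1 := norm_add_le (act (F j) (act (∏ i ∈ S, F i) f - f)) (act (F j) f - f)
    have k2 := h1 j (act (∏ i ∈ S, F i) f - f)
    have k3 : B * ‖act (∏ i ∈ S, F i) f - f‖ ≤ B * (S.card * B ^ S.card * ε) :=
      mul_le_mul_of_nonneg_left ih (by linarith)
    have k4 : ε ≤ B ^ (S.card + 1) * ε := by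
      have := one_le_pow₀ (n := S.card + 1) hB
      nlinarith
    have k5 := h2 j
    calc _ ≤ B * (S.card * B ^ S.card * ε) + B ^ (S.card + 1) * ε := by linarith
      _ = ((S.card + 1 : ℕ) : ℝ) * B ^ (S.card + 1) * ε := by
        push_cast
        ring

/-- one smoothing converges -/
lemma tendsto_avg (ν : Measure ℝ) [IsProbabilityMeasure ν] (hs : ∀ᵐ y ∂ν, |y| ≤ 1) (l : ℕ)
    (hl : 1 ≤ l) (f : C(Torus d, ℝ)) :
    Filter.Tendsto (fun n : ℕ => avg ν (fun j => Fn l j n) f) Filter.atTop (nhds f) := by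
  rw [Metric.tendsto_atTop]
  intro ε hε
  have hB : (1 : ℝ) ≤ 1 + 2 ^ l := by
    have : (0 : ℝ) ≤ 2 ^ l := by positivity
    linarith
  set D : ℝ := d * (1 + 2 ^ l) ^ d + 1 with hD
  have hD0 : 0 < D := by positivity
  obtain ⟨δ, hδ, hb⟩ := Fn_small l hl f (ε := ε / (2 * D)) (by positivity)
  obtain ⟨N, hN⟩ := exists_pow_lt_of_lt_one hδ (y := (1 / 2 : ℝ)) (by norm_num)
  refine ⟨N, fun n hn => ?_⟩
  rw [dist_eq_norm]
  have key : ‖avg ν (fun j => Fn l j n) f - f‖ ≤ d * (1 + 2 ^ l) ^ d * (ε / (2 * D)) := by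
    refine norm_avg_sub_le ν hs (fun j => Fn l j n) (fun _ => 1 + 2 ^ l)
      (fun j => good_Fn l j n) f f ?_
    intro y hy
    have h := prod_small Finset.univ (fun j => Fn l j n (y j)) f hB
      (ε := ε / (2 * D)) (by positivity) (fun j g => (good_Fn l j n).bound (y j) g) ?_
    · rw [Finset.card_univ, Fintype.card_fin] at h
      exact h
    · intro j
      rw [Fn_eq]
      refine hb j _ ?_
      rw [abs_div, abs_of_pos (by positivity : (0 : ℝ) < 2 ^ n)]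
      calc |y j| / 2 ^ n ≤ 1 / 2 ^ n := by
            exact div_le_div_of_nonneg_right (hy j) (by positivity)
        _ = (1 / 2 : ℝ) ^ n := by rw [one_div_pow]
        _ ≤ (1 / 2 : ℝ) ^ N := pow_le_pow_of_le_one (by norm_num) (by norm_num) hn
        _ < δ := hN
  have h3 : d * (1 + 2 ^ l) ^ d * (ε / (2 * D)) ≤ D * (ε / (2 * D)) := by
    refine mul_le_mul_of_nonneg_right ?_ (by positivity)
    rw [hD]
    linarith
  have h4 : D * (ε / (2 * D)) = ε / 2 := by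
    field_simp
  linarith

theorem conv (ν : Measure ℝ) [IsProbabilityMeasure ν] (hs : ∀ᵐ y ∂ν, |y| ≤ 1) (l : ℕ)
    (hl : 1 ≤ l) (f : C(Torus d, ℝ)) :
    Filter.Tendsto (fun n : ℕ => avg ν (fun j => Fn l j n) (avg ν (fun j => Fn l j n) f))
      Filter.atTop (nhds f) := by
  have h1 := tendsto_avg ν hs l hl f
  have hA : ∀ n : ℕ, ∃ A : C(Torus d, ℝ) →L[ℝ] C(Torus d, ℝ),
      (∀ g, A g = avg ν (fun j => Fn l j n) g) ∧ ‖A‖ ≤ ∏ _j : Fin d, (1 + 2 ^ l : ℝ) :=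
    fun n => avg_clm ν (fun j => Fn l j n) (fun _ => 1 + 2 ^ l) (fun j => good_Fn l j n)
  choose A hA1 hA2 using hA
  rw [tendsto_iff_norm_sub_tendsto_zero] at h1 ⊢
  have h2 : Filter.Tendsto (fun n : ℕ => ((∏ _j : Fin d, (1 + 2 ^ l : ℝ)) + 1) *
      ‖avg ν (fun j => Fn l j n) f - f‖) Filter.atTop (nhds 0) := by
    have := h1.const_mul ((∏ _j : Fin d, (1 + 2 ^ l : ℝ)) + 1)
    rwa [mul_zero] at this
  refine squeeze_zero (fun n => norm_nonneg _) (fun n => ?_) h2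
  have e1 : avg ν (fun j => Fn l j n) (avg ν (fun j => Fn l j n) f) - f =
      A n (avg ν (fun j => Fn l j n) f - f) + (avg ν (fun j => Fn l j n) f - f) := by
    rw [map_sub, hA1, hA1]
    abel
  rw [e1]
  calc ‖A n (avg ν (fun j => Fn l j n) f - f) + (avg ν (fun j => Fn l j n) f - f)‖
      ≤ ‖A n (avg ν (fun j => Fn l j n) f - f)‖ + ‖avg ν (fun j => Fn l j n) f - f‖ :=
        norm_add_le _ _
    _ ≤ (∏ _j : Fin d, (1 + 2 ^ l : ℝ)) * ‖avg ν (fun j => Fn l j n) f - f‖ +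
        ‖avg ν (fun j => Fn l j n) f - f‖ := by
        have h3 := (A n).le_opNorm (avg ν (fun j => Fn l j n) f - f)
        have h4 : ‖A n‖ * ‖avg ν (fun j => Fn l j n) f - f‖ ≤
            (∏ _j : Fin d, (1 + 2 ^ l : ℝ)) * ‖avg ν (fun j => Fn l j n) f - f‖ :=
          mul_le_mul_of_nonneg_right (hA2 n) (norm_nonneg _)
        linarith
    _ = ((∏ _j : Fin d, (1 + 2 ^ l : ℝ)) + 1) * ‖avg ν (fun j => Fn l j n) f - f‖ := by ring

end Pool.Agent.Lib.P51n0
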