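import Pool.Agent.Lib.P51n0.Defs

/-!
Module DiffB of MP_51a855_an (part 0): the blocks of functions of `H^r_p`.

Proof. Show by induction on the finset `S`, for all `e` disjoint from `S` and all `t`:
`Np p (act ((∏_{j∈S} Th l j (s j) (y j)) * ∏_{i∈e} (trj i (t i) - 1)^l) f)`
`  ≤ (∏_{j∈S} (2^(1+r) 2^(-r s_j))) * ∏_{i∈e} |t i|^r`.
`S = ∅`: for `e ≠ ∅` this is `mixedDiff_eq` and the definition of `HClass`
(`eLpNorm_eq_Np`), for `e = ∅` it is `‖f‖_p ≤ 1`.
`S ∪ {j}`, `n = s_j ≥ 1`: `Th l j n y = (1 - trj j (y/2^(n-1)))^l - (1 - trj j (y/2^n))^l`, and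
`(1 - X)^l = ±(X - 1)^l`; use the induction hypothesis for `e ∪ {j}` with `t_j = y/2^(n-1)` and
`t_j = y/2^n` (`Function.update`), the seminorm property of `Np` and
`|y/2^(n-1)|^r + |y/2^n|^r ≤ 2 (2·2^(-n))^r`.
`n = 0`: `Th l j 0 y = 1 - (1 - trj j y)^l`; use it for `e` and for `e ∪ {j}`: `1 + |y|^r ≤ 2`.
-/

set_option autoImplicit false

open MeasureTheory
open scoped ENNReal NNReal

noncomputable section

namespace Pool.Agent.Lib.P51n0

open Pool.Agent.Lib.P51a855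

variable {d : ℕ}

namespace DiffBAux

lemma base {l : ℕ} {r : ℝ} {p : ℝ≥0∞} [Fact (1 ≤ p)] {f : C(Torus d, ℝ)}
    (hf : f ∈ HClass d l r p) (e : Finset (Fin d)) (t : Fin d → ℝ) :
    Np p (act (∏ i ∈ e, (trj i (t i) - 1) ^ l) f) ≤ ∏ i ∈ e, |t i| ^ r := by
  obtain ⟨h1, h2⟩ := hf
  rcases e.eq_empty_or_nonempty with he | he
  · subst he
    rw [Finset.prod_empty, Finset.prod_empty, map_one]
    have h3 : Np p ((1 : Module.End ℝ C(Torus d, ℝ)) f) = Np p f := rfl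
    rw [h3]
    rw [eLpNorm_eq_Np] at h1
    exact (ENNReal.ofReal_le_one).1 h1
  · have h3 := h2 e he t
    rw [mixedDiff_eq, eLpNorm_eq_Np] at h3
    have h4 : 0 ≤ ∏ i ∈ e, |t i| ^ r := Finset.prod_nonneg fun i _ => by positivity
    exact (ENNReal.ofReal_le_ofReal_iff h4).1 h3

lemma Np_sign {p : ℝ≥0∞} [Fact (1 ≤ p)] (l : ℕ) (z : TA d) (f : C(Torus d, ℝ)) :
    Np p (act ((-1) ^ l * z) f) = Np p (act z f) := by
  rcases neg_one_pow_eq_or (TA d) l with h | h
  · rw [h, one_mul]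
  · rw [h, neg_one_mul, map_neg, LinearMap.neg_apply, map_neg_eq_map]

lemma one_sub_pow (l : ℕ) (X : TA d) : (1 - X) ^ l = (-1) ^ l * (X - 1) ^ l := by
  rw [← neg_pow, neg_sub]

lemma prod_insert_update (l : ℕ) {j : Fin d} {e : Finset (Fin d)} (hj : j ∉ e) (t : Fin d → ℝ)
    (a : ℝ) : (trj j a - 1) ^ l * ∏ i ∈ e, (trj i (t i) - 1) ^ l =
      ∏ i ∈ insert j e, (trj i (Function.update t j a i) - 1) ^ l := by
  rw [Finset.prod_insert hj, Function.update_self]
  congr 1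
  apply Finset.prod_congr rfl
  intro i hi
  have : i ≠ j := by
    rintro rfl
    exact hj hi
  rw [Function.update_of_ne this]

lemma abs_insert_update (r : ℝ) {j : Fin d} {e : Finset (Fin d)} (hj : j ∉ e) (t : Fin d → ℝ)
    (a : ℝ) : ∏ i ∈ insert j e, |Function.update t j a i| ^ r = |a| ^ r * ∏ i ∈ e, |t i| ^ r := by
  rw [Finset.prod_insert hj, Function.update_self]
  congr 1
  apply Finset.prod_congr rfl
  intro i hi
  have : i ≠ j := by
    rintro rfl
    exact hj hi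
  rw [Function.update_of_ne this]

lemma key {l : ℕ} {r : ℝ} (hr : 0 < r) {p : ℝ≥0∞} [Fact (1 ≤ p)] {f : C(Torus d, ℝ)}
    (hf : f ∈ HClass d l r p) (s : Fin d → ℕ) (y : Fin d → ℝ) (hy : ∀ j, |y j| ≤ 1)
    (S : Finset (Fin d)) : ∀ (e : Finset (Fin d)), Disjoint S e → ∀ t : Fin d → ℝ,
    Np p (act ((∏ j ∈ S, Th l j (s j) (y j)) * ∏ i ∈ e, (trj i (t i) - 1) ^ l) f) ≤
      (∏ j ∈ S, ((2 : ℝ) ^ (1 + r) * (2 : ℝ) ^ (-(r * (s j : ℝ))))) * ∏ i ∈ e, |t i| ^ r := by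
  classical
  induction S using Finset.induction_on with
  | empty =>
    intro e _ t
    rw [Finset.prod_empty, Finset.prod_empty, one_mul, one_mul]
    exact base hf e t
  | insert j S hj ih =>
    intro e he t
    rw [Finset.disjoint_insert_left] at he
    obtain ⟨hje, hSe⟩ := he
    obtain ⟨A, hA⟩ : ∃ A, A = ∏ j ∈ S, Th l j (s j) (y j) := ⟨_, rfl⟩
    obtain ⟨E, hE⟩ : ∃ E, E = ∏ i ∈ e, (trj i (t i) - 1) ^ l := ⟨_, rfl⟩
    obtain ⟨K, hK⟩ : ∃ K, K = ∏ j ∈ S, ((2 : ℝ) ^ (1 + r) * (2 : ℝ) ^ (-(r * (s j : ℝ)))) := ⟨_, rfl⟩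
    obtain ⟨G, hG⟩ : ∃ G, G = ∏ i ∈ e, |t i| ^ r := ⟨_, rfl⟩
    have hK0 : 0 ≤ K := by
      rw [hK]
      exact Finset.prod_nonneg fun i _ => by positivity
    have hG0 : 0 ≤ G := by
      rw [hG]
      exact Finset.prod_nonneg fun i _ => by positivity
    have hSj : Disjoint S (insert j e) := by
      rw [Finset.disjoint_insert_right]
      exact ⟨hj, hSe⟩
    -- the estimate with an additional difference
    have h1 : ∀ a : ℝ, Np p (act (A * ((trj j a - 1) ^ l * E)) f) ≤ K * (|a| ^ r * G) := by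
      intro a
      have h2 := ih (insert j e) hSj (Function.update t j a)
      rw [← prod_insert_update l hje t a, abs_insert_update r hje t a, ← hA, ← hE, ← hK, ← hG] at h2
      exact h2
    have h0 : Np p (act (A * E) f) ≤ K * G := by
      have h2 := ih e hSe t
      rw [← hA, ← hE, ← hK, ← hG] at h2
      exact h2
    rw [Finset.prod_insert hj, Finset.prod_insert hj, ← hA, ← hE, ← hK, ← hG]
    have hyj := hy j
    have h2r : (1 : ℝ) ≤ 2 ^ (1 + r) := Real.one_le_rpow (by norm_num) (by linarith)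
    rcases Nat.eq_zero_or_pos (s j) with hs | hs
    · -- level zero
      have h3 : Th l j (s j) (y j) * A * E =
          A * E - (-1) ^ l * (A * ((trj j (y j) - 1) ^ l * E)) := by
        unfold Th Fn Fp
        rw [hs, if_pos rfl, pow_zero, div_one, one_sub_pow]
        ring
      rw [h3, map_sub, LinearMap.sub_apply]
      refine (map_sub_le_add (Np p) _ _).trans ?_
      rw [Np_sign]
      have h4 := h1 (y j)
      have h5 : |y j| ^ r ≤ 1 := Real.rpow_le_one (abs_nonneg _) hyj hr.le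
      have h6 : K * (|y j| ^ r * G) ≤ K * (1 * G) := by gcongr
      have h7 : (2 : ℝ) ^ (-(r * (s j : ℝ))) = 1 := by
        rw [hs]
        simp
      rw [h7, mul_one]
      have h8 : (2 : ℝ) ≤ 2 ^ (1 + r) := by
        calc (2 : ℝ) = 2 ^ (1 : ℝ) := (Real.rpow_one _).symm
          _ ≤ _ := Real.rpow_le_rpow_of_exponent_le (by norm_num) (by linarith)
      have h9 : 2 * (K * G) ≤ 2 ^ (1 + r) * (K * G) := by gcongr
      linarith
    · -- higher levels
      have h3 : Th l j (s j) (y j) * A * E =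
          (-1) ^ l * (A * ((trj j (y j / 2 ^ (s j - 1)) - 1) ^ l * E)) -
            (-1) ^ l * (A * ((trj j (y j / 2 ^ (s j)) - 1) ^ l * E)) := by
        unfold Th Fn Fp
        rw [if_neg (by omega)]
        unfold Fn
        rw [one_sub_pow, one_sub_pow]
        ring
      rw [h3, map_sub, LinearMap.sub_apply]
      refine (map_sub_le_add (Np p) _ _).trans ?_
      rw [Np_sign, Np_sign]
      have h4 := h1 (y j / 2 ^ (s j - 1))
      have h5 := h1 (y j / 2 ^ (s j))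
      have hpw : (2 : ℝ) ^ (s j) = 2 * 2 ^ (s j - 1) := by
        obtain ⟨n, hn⟩ : ∃ n, s j = n + 1 := ⟨s j - 1, by omega⟩
        rw [hn, Nat.add_sub_cancel]
        ring
      have hp0 : (0 : ℝ) < 2 ^ (s j) := by positivity
      have hp1 : (0 : ℝ) < 2 ^ (s j - 1) := by positivity
      have h6 : |y j / 2 ^ (s j - 1)| ≤ 2 * (2 ^ (s j))⁻¹ := by
        rw [abs_div, abs_of_pos hp1, hpw, mul_inv, ← mul_assoc, mul_inv_cancel₀ (by norm_num),
          one_mul, div_eq_mul_inv]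
        have : |y j| * (2 ^ (s j - 1))⁻¹ ≤ 1 * ((2 : ℝ) ^ (s j - 1))⁻¹ := by gcongr
        linarith
      have h7 : |y j / 2 ^ (s j)| ≤ 2 * (2 ^ (s j))⁻¹ := by
        rw [abs_div, abs_of_pos hp0, div_eq_mul_inv]
        have : |y j| * (2 ^ (s j))⁻¹ ≤ 2 * ((2 : ℝ) ^ (s j))⁻¹ := by
          gcongr
          linarith
        linarith
      have h8 : (2 * ((2 : ℝ) ^ (s j))⁻¹) ^ r = 2 ^ r * 2 ^ (-(r * (s j : ℝ))) := by
        rw [Real.mul_rpow (by norm_num) (by positivity), Real.inv_rpow (by positivity),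
          ← Real.rpow_natCast 2 (s j), ← Real.rpow_mul (by norm_num), ← Real.rpow_neg (by norm_num)]
        congr 2
        ring
      have h9 : |y j / 2 ^ (s j - 1)| ^ r ≤ 2 ^ r * 2 ^ (-(r * (s j : ℝ))) := by
        rw [← h8]
        exact Real.rpow_le_rpow (abs_nonneg _) h6 hr.le
      have h10 : |y j / 2 ^ (s j)| ^ r ≤ 2 ^ r * 2 ^ (-(r * (s j : ℝ))) := by
        rw [← h8]
        exact Real.rpow_le_rpow (abs_nonneg _) h7 hr.le
      have h11 : K * (|y j / 2 ^ (s j - 1)| ^ r * G) ≤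
          K * ((2 ^ r * 2 ^ (-(r * (s j : ℝ)))) * G) := by gcongr
      have h12 : K * (|y j / 2 ^ (s j)| ^ r * G) ≤
          K * ((2 ^ r * 2 ^ (-(r * (s j : ℝ)))) * G) := by gcongr
      have h13 : (2 : ℝ) ^ (1 + r) = 2 * 2 ^ r := by
        rw [Real.rpow_add (by norm_num), Real.rpow_one]
      rw [h13]
      have h14 : 2 * 2 ^ r * 2 ^ (-(r * (s j : ℝ))) * K * G =
          K * ((2 ^ r * 2 ^ (-(r * (s j : ℝ)))) * G) + K * ((2 ^ r * 2 ^ (-(r * (s j : ℝ)))) * G) := by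
        ring
      rw [h14]
      linarith

end DiffBAux

open DiffBAux

theorem Np_Th_le {l : ℕ} {r : ℝ} (hr : 0 < r) {p : ℝ≥0∞} [Fact (1 ≤ p)] {f : C(Torus d, ℝ)}
    (hf : f ∈ HClass d l r p) (s : Fin d → ℕ) (y : Fin d → ℝ) (hy : ∀ j, |y j| ≤ 1) :
    Np p (act (∏ j, Th l j (s j) (y j)) f) ≤
      ((2 : ℝ) ^ (1 + r)) ^ d * (2 : ℝ) ^ (-(r * ∑ j, (s j : ℝ))) := by
  have h := key hr hf s y hy Finset.univ ∅ (Finset.disjoint_empty_right _) 0
  rw [Finset.prod_empty, Finset.prod_empty, mul_one, mul_one, Finset.prod_mul_distrib,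
    Finset.prod_const, Finset.card_univ, Fintype.card_fin] at h
  have h2 : ∏ j : Fin d, (2 : ℝ) ^ (-(r * (s j : ℝ))) = (2 : ℝ) ^ (-(r * ∑ j, (s j : ℝ))) := by
    rw [← Real.rpow_sum_of_pos (by norm_num), Finset.sum_neg_distrib, Finset.mul_sum]
  rw [h2] at h
  exact h

end Pool.Agent.Lib.P51n0
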