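import Pool.Agent.Lib.P51n0.Rho

/-!
Module PairRho of MP_51a855_an (part 0). (Only the definition of `rho` is used.)

Proof. Let `x = 2^N/T`. If `x ≥ 1`, then `max 1 (1/x) = 1` and `|Ψ| ≤ K x ≤ D := ⌈K x⌉ ≤ 2 K x`
(natural number); `abs_pair_le` (P51a855/Block.lean) with the constant `K ≥ 1` gives
`|pair Ψ g| ≤ K phi(1/p)(D) Np p g`, `phi ≤ (2 K x)^(1/p) ≤ 2 K x^(1/p)` (`0 ≤ 1/p ≤ 1`).
If `x < 1`, then `|Ψ| ≤ ε := K x x^(M-2) = K x^(M-1)`; `abs_pair_le` for `Ψ/ε` with `D = 1` and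
constant `1` (`∫ |Ψ/ε| ≤ 1` since the measure is a probability) gives
`|pair Ψ g| ≤ ε Np p g ≤ 2 K² x^(M-1) Np p g`.
-/

set_option autoImplicit false

open MeasureTheory
open scoped ENNReal NNReal

noncomputable section

namespace Pool.Agent.Lib.P51n0

open Pool.Agent.Lib.P51a855

variable {d : ℕ}

theorem pair_rho {M : ℕ} (hM : 2 ≤ M) {K : ℝ} (hK : 1 ≤ K) {T : ℝ} (hT : 0 < T) {N : ℕ}
    {Ψ : Torus d → ℝ} (hΨ : Continuous Ψ)
    (h1 : ∀ z, |Ψ z| ≤ K * ((2 : ℝ) ^ N / T * ((max 1 (T / (2 : ℝ) ^ N)) ^ (M - 2))⁻¹))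
    (h2 : ∫ z, |Ψ z| ∂(haarT d) ≤ K) {p : ℝ≥0∞} [Fact (1 ≤ p)] (g : C(Torus d, ℝ)) :
    |pair Ψ g| ≤ 2 * K ^ 2 * rho (1 / p.toReal) ((M : ℝ) - 1) ((2 : ℝ) ^ N / T) * Np p g := by
  have hN0 : 0 ≤ Np p g := apply_nonneg _ _
  have h2N : (0 : ℝ) < (2 : ℝ) ^ N := by positivity
  set x : ℝ := (2 : ℝ) ^ N / T with hx
  have hx0 : 0 < x := div_pos h2N hT
  have hinv : T / (2 : ℝ) ^ N = x⁻¹ := by rw [hx, inv_div]
  have hK0 : (0 : ℝ) < K := by linarith
  by_cases hx1 : 1 ≤ x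
  · -- `x ≥ 1`
    have hmax : max 1 (T / (2 : ℝ) ^ N) = 1 := by
      rw [hinv]
      exact max_eq_left (inv_le_one_of_one_le₀ hx1)
    have hKx : 1 ≤ K * x := by nlinarith
    have hb : ∀ z, |Ψ z| ≤ (⌈K * x⌉₊ : ℝ) := by
      intro z
      refine (h1 z).trans ?_
      rw [hmax, one_pow, inv_one, mul_one]
      exact Nat.le_ceil _
    have h3 := abs_pair_le (p := p) hΨ hb hK h2 g
    have hD1 : 1 ≤ ⌈K * x⌉₊ := Nat.one_le_ceil_iff.2 (by linarith)
    have hD2 : (⌈K * x⌉₊ : ℝ) ≤ 2 * K * x := by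
      have := (Nat.ceil_lt_add_one (show (0 : ℝ) ≤ K * x by positivity)).le
      nlinarith
    have hθ0 : (0 : ℝ) ≤ 1 / p.toReal := by positivity
    have hθ1 : 1 / p.toReal ≤ 1 := by
      have hp1 : (1 : ℝ≥0∞) ≤ p := Fact.out
      rcases eq_or_ne p ⊤ with h | h
      · rw [h, ENNReal.toReal_top, div_zero]
        exact zero_le_one
      · have : (1 : ℝ) ≤ p.toReal := by
          rw [← ENNReal.toReal_one]
          exact ENNReal.toReal_mono h hp1
        rw [div_le_one (by linarith)]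
        exact this
    have hphi : phi (1 / p.toReal) ⌈K * x⌉₊ ≤ 2 * K * x ^ (1 / p.toReal) := by
      unfold phi
      rw [if_neg (by omega)]
      calc ((⌈K * x⌉₊ : ℕ) : ℝ) ^ (1 / p.toReal) ≤ (2 * K * x) ^ (1 / p.toReal) :=
            Real.rpow_le_rpow (by positivity) hD2 hθ0
        _ = (2 * K) ^ (1 / p.toReal) * x ^ (1 / p.toReal) :=
            Real.mul_rpow (by positivity) hx0.le
        _ ≤ (2 * K) ^ (1 : ℝ) * x ^ (1 / p.toReal) := by
            refine mul_le_mul_of_nonneg_right ?_ (by positivity)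
            exact Real.rpow_le_rpow_of_exponent_le (by linarith) hθ1
        _ = 2 * K * x ^ (1 / p.toReal) := by rw [Real.rpow_one]
    have hrho : rho (1 / p.toReal) ((M : ℝ) - 1) x = x ^ (1 / p.toReal) := by
      unfold rho
      rw [if_pos hx1]
    rw [hrho]
    calc |pair Ψ g| ≤ K * phi (1 / p.toReal) ⌈K * x⌉₊ * Np p g := h3
      _ ≤ K * (2 * K * x ^ (1 / p.toReal)) * Np p g := by
          refine mul_le_mul_of_nonneg_right ?_ hN0
          exact mul_le_mul_of_nonneg_left hphi hK0.le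
      _ = 2 * K ^ 2 * x ^ (1 / p.toReal) * Np p g := by ring
  · -- `x < 1`
    have hx1' : x < 1 := not_le.1 hx1
    have hmax : max 1 (T / (2 : ℝ) ^ N) = x⁻¹ := by
      rw [hinv]
      exact max_eq_right ((one_le_inv₀ hx0).2 hx1'.le)
    obtain ⟨m, rfl⟩ : ∃ m, M = m + 2 := ⟨M - 2, by omega⟩
    set ε : ℝ := K * x ^ (m + 1) with hε
    have hε0 : 0 < ε := by positivity
    have hb : ∀ z, |Ψ z| ≤ ε := by
      intro z
      refine (h1 z).trans (le_of_eq ?_)
      rw [hmax, Nat.add_sub_cancel, inv_pow, inv_inv, hε, pow_succ]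
      ring
    have hΨ' : Continuous fun z => Ψ z / ε := hΨ.div_const ε
    have hb' : ∀ z, |Ψ z / ε| ≤ ((1 : ℕ) : ℝ) := by
      intro z
      rw [abs_div, abs_of_pos hε0, div_le_iff₀ hε0, Nat.cast_one, one_mul]
      exact hb z
    have : IsProbabilityMeasure (haarT d) := by unfold haarT; infer_instance
    have hL : ∫ z, |Ψ z / ε| ∂(haarT d) ≤ 1 := by
      calc ∫ z, |Ψ z / ε| ∂(haarT d) ≤ ∫ _z, (1 : ℝ) ∂(haarT d) := by
            refine integral_mono (integrable_of_cont hΨ'.abs) (integrable_const _) fun z => ?_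
            simpa using hb' z
        _ = 1 := by simp
    have h3 := abs_pair_le (p := p) hΨ' hb' le_rfl hL g
    have hphi : phi (1 / p.toReal) 1 = 1 := by
      unfold phi
      rw [if_neg one_ne_zero, Nat.cast_one, Real.one_rpow]
    rw [hphi, mul_one, one_mul] at h3
    have hpair : pair (fun z => Ψ z / ε) g = pair Ψ g / ε := by
      unfold pair
      rw [← integral_div]
      refine integral_congr_ae (Filter.Eventually.of_forall fun z => ?_)
      show Ψ z / ε * g z = Ψ z * g z / ε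
      ring
    rw [hpair, abs_div, abs_of_pos hε0, div_le_iff₀ hε0] at h3
    have hrho : rho (1 / p.toReal) (((m + 2 : ℕ) : ℝ) - 1) x = x ^ (m + 1) := by
      unfold rho
      rw [if_neg hx1]
      have : (((m + 2 : ℕ) : ℝ) - 1) = ((m + 1 : ℕ) : ℝ) := by push_cast; ring
      rw [this, Real.rpow_natCast]
    rw [hrho]
    calc |pair Ψ g| ≤ Np p g * ε := h3
      _ = K * (x ^ (m + 1) * Np p g) := by rw [hε]; ring
      _ ≤ 2 * K ^ 2 * (x ^ (m + 1) * Np p g) := by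
          refine mul_le_mul_of_nonneg_right ?_ (by positivity)
          nlinarith
      _ = 2 * K ^ 2 * x ^ (m + 1) * Np p g := by ring

end Pool.Agent.Lib.P51n0
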