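import Pool.Agent.Lib.P51n0.Defs

/-!
Module Avg of MP_51a855_an (part 0): averages of translation operators.

Proof. The integrand `y ↦ act (∏_j P_j(y_j)) f` is continuous from `Fin d → ℝ` to `C(Torus d, ℝ)`
(Finset induction on the product with `GoodP.cont` and `act_mul_apply`; keep a general continuous
`g : X → C(Torus d, ℝ)` in the induction, cf. `actCont_prod` in P51a855/Block.lean) with norm at most
`(∏_j B_j) ‖f‖`, hence Bochner integrable for the probability measure `Measure.pi fun _ => ν`.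
`avg_clm`: linear in `f` (`integral_add`, `integral_smul`), norm bound by
`norm_integral_le_of_norm_le_const`; `LinearMap.mkContinuous`.
`avg_symbol`: evaluation at `x` commutes with the integral (`ContinuousMap.evalCLM`,
`ContinuousLinearMap.integral_comp_comm`), then `act_char`: the integrand becomes
`chi k (∏_j P_j(y_j)) * eC k x = (∏_j chi k (P_j(y_j))) * eC k x`, and
`integral_fintype_prod_eq_prod` (over `ℂ`).
`Np_avg_le`: `Np p` is the norm of the continuous linear map `ContinuousMap.toLp` (see `Np` in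
P51a855/Diff.lean), commute it with the integral and use `norm_integral_le_of_norm_le_const`, where the
bound holds for almost all `y` (`hsupp` for each coordinate: `Measure.pi` and
`MeasureTheory.Measure.ae_eval_ne`-type lemma, e.g. `Measure.tendsto_eval_ae_ae`).
-/

set_option autoImplicit false

open MeasureTheory
open scoped ENNReal NNReal

noncomputable section

namespace Pool.Agent.Lib.P51n0

open Pool.Agent.Lib.P51a855

variable {d : ℕ}

namespace AvgAux

lemma cont_prod (P : Fin d → ℝ → TA d) (B : Fin d → ℝ) (hP : ∀ j, GoodP (P j) (B j))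
    (S : Finset (Fin d)) (g : (Fin d → ℝ) → C(Torus d, ℝ)) (hg : Continuous g) :
    Continuous fun y : Fin d → ℝ => act (∏ j ∈ S, P j (y j)) (g y) := by
  induction S using Finset.induction_on with
  | empty => simpa using hg
  | insert j S hj ih =>
    have e : (fun y : Fin d → ℝ => act (∏ j ∈ insert j S, P j (y j)) (g y)) =
        fun y => act (P j (y j)) (act (∏ j ∈ S, P j (y j)) (g y)) := by
      funext y
      rw [Finset.prod_insert hj, act_mul_apply]
    rw [e]
    exact (hP j).cont (Fin d → ℝ) (fun y => y j)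
      (fun y => act (∏ i ∈ S, P i (y i)) (g y)) (continuous_apply j) ih

lemma norm_prod_le (P : Fin d → ℝ → TA d) (B : Fin d → ℝ) (hP : ∀ j, GoodP (P j) (B j))
    (S : Finset (Fin d)) (y : Fin d → ℝ) (f : C(Torus d, ℝ)) :
    ‖act (∏ j ∈ S, P j (y j)) f‖ ≤ (∏ j ∈ S, B j) * ‖f‖ := by
  induction S using Finset.induction_on with
  | empty => simp
  | insert j S hj ih =>
    rw [Finset.prod_insert hj, Finset.prod_insert hj, act_mul_apply, mul_assoc]
    exact ((hP j).bound _ _).trans (mul_le_mul_of_nonneg_left ih (hP j).nonneg)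

lemma integrable_prod (ν : Measure ℝ) [IsProbabilityMeasure ν] (P : Fin d → ℝ → TA d)
    (B : Fin d → ℝ) (hP : ∀ j, GoodP (P j) (B j)) (f : C(Torus d, ℝ)) :
    Integrable (fun y : Fin d → ℝ => act (∏ j, P j (y j)) f) (Measure.pi fun _ => ν) := by
  refine Integrable.of_bound
    (cont_prod P B hP Finset.univ (fun _ => f) continuous_const).aestronglyMeasurable
    ((∏ j, B j) * ‖f‖) (Filter.Eventually.of_forall fun y => ?_)
  exact norm_prod_le P B hP Finset.univ y f

lemma ae_all (ν : Measure ℝ) [IsProbabilityMeasure ν] (hsupp : ∀ᵐ y ∂ν, |y| ≤ 1) :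
    ∀ᵐ y ∂(Measure.pi fun _ : Fin d => ν), ∀ j, |y j| ≤ 1 := by
  rw [MeasureTheory.ae_all_iff]
  intro j
  exact (Measure.tendsto_eval_ae_ae (μ := fun _ : Fin d => ν) (i := j)).eventually hsupp

lemma norm_int_le (ν : Measure ℝ) [IsProbabilityMeasure ν] (hsupp : ∀ᵐ y ∂ν, |y| ≤ 1)
    {F : Type*} [NormedAddCommGroup F] [NormedSpace ℝ F] (G : (Fin d → ℝ) → F) {b : ℝ}
    (hb : ∀ y : Fin d → ℝ, (∀ j, |y j| ≤ 1) → ‖G y‖ ≤ b) :
    ‖∫ y, G y ∂(Measure.pi fun _ => ν)‖ ≤ b := by
  have h1 : ∀ᵐ y ∂(Measure.pi fun _ : Fin d => ν), ‖G y‖ ≤ b := by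
    filter_upwards [ae_all ν hsupp] with y hy
    exact hb y hy
  have h2 := norm_integral_le_of_norm_le_const h1
  simpa using h2

lemma avg_apply (ν : Measure ℝ) [IsProbabilityMeasure ν] (P : Fin d → ℝ → TA d)
    (B : Fin d → ℝ) (hP : ∀ j, GoodP (P j) (B j)) (f : C(Torus d, ℝ)) (x : Torus d) :
    avg ν P f x = ∫ y : Fin d → ℝ, act (∏ j, P j (y j)) f x ∂(Measure.pi fun _ => ν) := by
  have h := (ContinuousMap.evalCLM ℝ x : C(Torus d, ℝ) →L[ℝ] ℝ).integral_comp_comm
    (integrable_prod ν P B hP f)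
  exact h.symm

end AvgAux

open AvgAux

theorem avg_clm (ν : Measure ℝ) [IsProbabilityMeasure ν] (P : Fin d → ℝ → TA d) (B : Fin d → ℝ)
    (hP : ∀ j, GoodP (P j) (B j)) :
    ∃ A : C(Torus d, ℝ) →L[ℝ] C(Torus d, ℝ), (∀ f, A f = avg ν P f) ∧ ‖A‖ ≤ ∏ j, B j := by
  have hB : 0 ≤ ∏ j, B j := Finset.prod_nonneg fun j _ => (hP j).nonneg
  let L : C(Torus d, ℝ) →ₗ[ℝ] C(Torus d, ℝ) :=
    { toFun := fun f => avg ν P f
      map_add' := fun f g => by
        unfold avg
        simp only [map_add]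
        exact integral_add (integrable_prod ν P B hP f) (integrable_prod ν P B hP g)
      map_smul' := fun c f => by
        unfold avg
        simp only [map_smul, RingHom.id_apply]
        exact integral_smul c _ }
  have hL : ∀ f, ‖L f‖ ≤ (∏ j, B j) * ‖f‖ := by
    intro f
    show ‖avg ν P f‖ ≤ _
    unfold avg
    have h2 := norm_integral_le_of_norm_le_const (μ := Measure.pi fun _ : Fin d => ν)
      (Filter.Eventually.of_forall fun y => norm_prod_le P B hP Finset.univ y f)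
    simpa using h2
  exact ⟨L.mkContinuous _ hL, fun f => rfl, L.mkContinuous_norm_le hB hL⟩

theorem avg_symbol (ν : Measure ℝ) [IsProbabilityMeasure ν] (P : Fin d → ℝ → TA d)
    (B : Fin d → ℝ) (hP : ∀ j, GoodP (P j) (B j)) (k : Fin d → ℤ) (x : Torus d) :
    ((avg ν P (cosT k) x : ℝ) : ℂ) + (avg ν P (sinT k) x : ℝ) * Complex.I =
      (∏ j, ∫ y, chi k (P j y) ∂ν) * eC k x := by
  have hi : ∀ f : C(Torus d, ℝ), Integrable (fun y : Fin d → ℝ =>
      ((act (∏ j, P j (y j)) f x : ℝ) : ℂ)) (Measure.pi fun _ => ν) := by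
    intro f
    exact ((ContinuousMap.evalCLM ℝ x : C(Torus d, ℝ) →L[ℝ] ℝ).integrable_comp
      (integrable_prod ν P B hP f)).ofReal
  rw [avg_apply ν P B hP, avg_apply ν P B hP, ← integral_complex_ofReal,
    ← integral_complex_ofReal, ← integral_mul_const, ← integral_add (hi _) ((hi _).mul_const _)]
  simp only [act_char]
  rw [integral_mul_const]
  congr 1
  simp only [map_prod]
  exact integral_fintype_prod_eq_prod (μ := fun _ : Fin d => ν) (fun j y => chi k (P j y))

theorem Np_avg_le (ν : Measure ℝ) [IsProbabilityMeasure ν] (hsupp : ∀ᵐ y ∂ν, |y| ≤ 1)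
    (P : Fin d → ℝ → TA d) (B : Fin d → ℝ) (hP : ∀ j, GoodP (P j) (B j))
    {p : ℝ≥0∞} [Fact (1 ≤ p)] (f : C(Torus d, ℝ)) {b : ℝ}
    (hb : ∀ y : Fin d → ℝ, (∀ j, |y j| ≤ 1) → Np p (act (∏ j, P j (y j)) f) ≤ b) :
    Np p (avg ν P f) ≤ b := by
  have h := (ContinuousMap.toLp p (haarT d) ℝ : C(Torus d, ℝ) →L[ℝ]
    Lp ℝ p (haarT d)).integral_comp_comm (integrable_prod ν P B hP f)
  show ‖(ContinuousMap.toLp p (haarT d) ℝ : C(Torus d, ℝ) →L[ℝ] Lp ℝ p (haarT d))
    (avg ν P f)‖ ≤ b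
  unfold avg
  rw [← h]
  exact norm_int_le ν hsupp _ hb

theorem norm_avg_sub_le (ν : Measure ℝ) [IsProbabilityMeasure ν] (hsupp : ∀ᵐ y ∂ν, |y| ≤ 1)
    (P : Fin d → ℝ → TA d) (B : Fin d → ℝ) (hP : ∀ j, GoodP (P j) (B j))
    (f g : C(Torus d, ℝ)) {b : ℝ}
    (hb : ∀ y : Fin d → ℝ, (∀ j, |y j| ≤ 1) → ‖act (∏ j, P j (y j)) f - g‖ ≤ b) :
    ‖avg ν P f - g‖ ≤ b := by
  have h : avg ν P f - g = ∫ y : Fin d → ℝ, (act (∏ j, P j (y j)) f - g)
      ∂(Measure.pi fun _ => ν) := by
    rw [integral_sub (integrable_prod ν P B hP f) (integrable_const g), integral_const]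
    simp [avg]
  rw [h]
  exact norm_int_le ν hsupp _ hb

end Pool.Agent.Lib.P51n0
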