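import Pool.Agent.Lib.P51n0.Defs

/-!
Module Funct of MP_51a855_an (part 0): the error functional.

Proof. `errF_clm`: `|mean f| ≤ ‖f‖`, `|w_μ f(ξ_μ)| ≤ |w_μ| ‖f‖`; `LinearMap.mkContinuous`.
`errF_char`: `mean (cosT k) + i mean (sinT k) = ∫ eC k = ∏_j ∫ fourier (k_j) = [k = 0]`
(`integral_fintype_prod_eq_prod`; `∫ fourier n d haarAddCircle = [n = 0]` is in
P51a855/Fejer.lean as the private lemma `integral_ek`).
-/

set_option autoImplicit false

open MeasureTheory
open scoped ENNReal NNReal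

noncomputable section

namespace Pool.Agent.Lib.P51n0

open Pool.Agent.Lib.P51a855

variable {d : ℕ}

private lemma fn_int (f : C(Torus d, ℝ)) : Integrable (fun x => f x) (haarT d) := by
  have : IsProbabilityMeasure (haarT d) := by
    unfold haarT
    infer_instance
  exact Integrable.of_bound f.continuous.aestronglyMeasurable ‖f‖
    (Filter.Eventually.of_forall fun x => f.norm_coe_le_norm x)

theorem errF_clm {n : ℕ} (ξ : Fin n → Torus d) (w : Fin n → ℝ) :
    ∃ A : C(Torus d, ℝ) →L[ℝ] ℝ, (∀ f, A f = errF ξ w f) ∧ ‖A‖ ≤ ∑ μ, |w μ| + 1 := by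
  have hp : IsProbabilityMeasure (haarT d) := by
    unfold haarT
    infer_instance
  let L : C(Torus d, ℝ) →ₗ[ℝ] ℝ :=
    { toFun := fun f => errF ξ w f
      map_add' := fun f g => by
        unfold errF mean
        simp only [ContinuousMap.add_apply]
        rw [integral_add (fn_int f) (fn_int g)]
        simp only [mul_add, Finset.sum_add_distrib]
        ring
      map_smul' := fun c f => by
        unfold errF mean
        simp only [ContinuousMap.smul_apply, smul_eq_mul, RingHom.id_apply]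
        rw [integral_const_mul, mul_sub, Finset.mul_sum]
        congr 1
        exact Finset.sum_congr rfl fun μ _ => by ring }
  have hL : ∀ f, ‖L f‖ ≤ (∑ μ, |w μ| + 1) * ‖f‖ := by
    intro f
    change ‖∑ μ, w μ * f (ξ μ) - mean f‖ ≤ _
    have h1 : ‖∑ μ, w μ * f (ξ μ)‖ ≤ (∑ μ, |w μ|) * ‖f‖ := by
      rw [Finset.sum_mul]
      refine (norm_sum_le _ _).trans (Finset.sum_le_sum fun μ _ => ?_)
      rw [norm_mul, Real.norm_eq_abs]
      exact mul_le_mul_of_nonneg_left (f.norm_coe_le_norm _) (abs_nonneg _)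
    have h2 : ‖mean (f : Torus d → ℝ)‖ ≤ ‖f‖ := by
      unfold mean
      have h3 := norm_integral_le_of_norm_le_const (μ := haarT d) (C := ‖f‖)
        (f := fun x => f x) (Filter.Eventually.of_forall fun x => f.norm_coe_le_norm x)
      simpa using h3
    calc _ ≤ ‖∑ μ, w μ * f (ξ μ)‖ + ‖mean (f : Torus d → ℝ)‖ := norm_sub_le _ _
      _ ≤ (∑ μ, |w μ|) * ‖f‖ + ‖f‖ := add_le_add h1 h2
      _ = _ := by ring
  exact ⟨L.mkContinuous _ hL, fun f => rfl,
    L.mkContinuous_norm_le (by positivity) hL⟩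

private lemma fn_ek (k : ℤ) :
    ∫ x : Circ, (fourier k x : ℂ) ∂AddCircle.haarAddCircle = if k = 0 then 1 else 0 := by
  have h := congrFun (fourierCoeff_fourier (T := 2 * Real.pi) k) 0
  unfold fourierCoeff at h
  simp only [neg_zero, fourier_zero, one_smul] at h
  rw [h]
  by_cases hk : k = 0
  · subst hk; simp
  · rw [Pi.single_eq_of_ne (Ne.symm hk), if_neg hk]

private lemma fn_eC (k : Fin d → ℤ) :
    ∫ x, eC k x ∂(haarT d) = if k = 0 then 1 else 0 := by
  unfold eC haarT
  rw [integral_fintype_prod_eq_prod (fun j (x : Circ) => (fourier (k j) x : ℂ))]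
  simp_rw [fn_ek]
  by_cases hk : k = 0
  · subst hk
    simp
  · rw [if_neg hk]
    obtain ⟨j, hj⟩ : ∃ j, k j ≠ 0 := by
      by_contra h
      push Not at h
      exact hk (funext h)
    exact Finset.prod_eq_zero (Finset.mem_univ j) (if_neg hj)

theorem errF_char {n : ℕ} (ξ : Fin n → Torus d) (w : Fin n → ℝ) (k : Fin d → ℤ) :
    ((errF ξ w (cosT k) : ℝ) : ℂ) + (errF ξ w (sinT k) : ℝ) * Complex.I =
      ∑ μ, (w μ : ℂ) * eC k (ξ μ) - (if k = 0 then 1 else 0) := by
  have hp : IsProbabilityMeasure (haarT d) := by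
    unfold haarT
    infer_instance
  have hi : Integrable (eC k) (haarT d) :=
    Integrable.of_bound (continuous_eC k).aestronglyMeasurable 1
      (Filter.Eventually.of_forall fun x => (norm_eC k x).le)
  have h1 : ((∫ x, (eC k x).re ∂(haarT d) : ℝ) : ℂ) +
      ((∫ x, (eC k x).im ∂(haarT d) : ℝ) : ℂ) * Complex.I = if k = 0 then 1 else 0 := by
    have h := integral_re_add_im hi
    rw [fn_eC] at h
    exact h
  rw [← h1]
  unfold errF mean
  have h2 : ∀ μ, (w μ : ℂ) * eC k (ξ μ) =
      ((w μ * (eC k (ξ μ)).re : ℝ) : ℂ) + ((w μ * (eC k (ξ μ)).im : ℝ) : ℂ) * Complex.I := by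
    intro μ
    conv_lhs => rw [← Complex.re_add_im (eC k (ξ μ))]
    push_cast
    ring
  simp only [h2, Finset.sum_add_distrib, ← Finset.sum_mul, cosT_apply, sinT_apply]
  push_cast
  ring

end Pool.Agent.Lib.P51n0
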