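import Pool.Agent.Lib.P51n0.LatSum

/-!
Module SupSum of MP_51a855_an (part 0). (`lat_sum` is a black box.)

Proof. For real `x`, integer `k` and `a = 2^(s_j) ≥ 1`:
`1 + |x|/a ≤ (1 + |k|/a)(1 + |x-k|/a) ≤ (1 + |k|/a)(1 + |x-k|)`, hence
`((1 + |k|/a)^M)⁻¹ ((1 + |x-k|)^(M+2))⁻¹ ≤ ((1 + |x|/a)^M)⁻¹ ((1 + |x-k|)^2)⁻¹`, and
`∑_{k∈ℤ} ((1 + |x-k|)^2)⁻¹ ≤ c` with an absolute constant `c` (compare with
`∑_k ((1/2)(1+|m-k|))^(-2)`, `m = round x`). Interchange the two sums (`ENNReal.tsum_comm`), write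
the sum over `k ∈ ℤ^d` of a product as the product of the sums (in `ℝ≥0∞`; by induction on `d` with
`Fin.consEquiv`/`Fin.insertNthEquiv`, or via the counting measure and
`lintegral_fintype_prod_eq_prod`), so that the left side is at most
`c^d ∑_{z≠0} ∏_j ((1 + |L z j|/2^(s_j))^M)⁻¹`, and apply `lat_sum` to
`L'(z)_j = L(z)_j / 2^(s_j)` and `R = T / 2^|s|`.
-/

set_option autoImplicit false

open MeasureTheory
open scoped ENNReal NNReal

noncomputable section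

namespace Pool.Agent.Lib.P51n0

open Pool.Agent.Lib.P51a855

variable {d : ℕ}

private lemma ss_prod (d : ℕ) : ∀ f : Fin d → ℤ → ℝ≥0∞,
    ∑' k : Fin d → ℤ, ∏ j, f j (k j) = ∏ j, ∑' m, f j m := by
  induction d with
  | zero => intro f; simp
  | succ d ih =>
    intro f
    rw [← (Fin.consEquiv (fun _ : Fin (d + 1) => ℤ)).tsum_eq, ENNReal.tsum_prod', Fin.prod_univ_succ]
    have h1 : ∀ (a : ℤ) (b : Fin d → ℤ),
        ∏ j, f j ((Fin.consEquiv (fun _ : Fin (d + 1) => ℤ)) (a, b) j) =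
        f 0 a * ∏ j : Fin d, f j.succ (b j) := by
      intro a b
      rw [Fin.prod_univ_succ]
      rfl
    simp_rw [h1, ENNReal.tsum_mul_left, ih (fun j => f j.succ), ENNReal.tsum_mul_right]

private lemma ss_summable : Summable fun k : ℤ => 4 * ((1 + |(k : ℝ)|) ^ 2)⁻¹ := by
  have h1 : Summable fun k : ℤ => 1 / (k : ℝ) ^ 2 := Real.summable_one_div_int_pow.2 one_lt_two
  have h2 : Summable fun k : ℤ => if k = 0 then (1:ℝ) else 0 := by
    refine summable_of_ne_finset_zero (s := {0}) fun k hk => ?_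
    rw [if_neg (by simpa using hk)]
  refine Summable.mul_left 4 (Summable.of_nonneg_of_le (fun k => by positivity) (fun k => ?_) (h1.add h2))
  by_cases hk : k = 0
  · subst hk
    norm_num
  · rw [if_neg hk, add_zero, one_div]
    have h3 : (0:ℝ) < (k:ℝ) ^ 2 := by
      have : (k : ℝ) ≠ 0 := by exact_mod_cast hk
      positivity
    refine inv_anti₀ h3 ?_
    have h4 : |(k:ℝ)| ^ 2 = (k:ℝ) ^ 2 := sq_abs _
    have h5 := abs_nonneg (k:ℝ)
    nlinarith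

private lemma ss_one (x : ℝ) : ∑' k : ℤ, ENNReal.ofReal (((1 + |x - k|) ^ 2)⁻¹) ≤
    ENNReal.ofReal (∑' k : ℤ, 4 * ((1 + |(k : ℝ)|) ^ 2)⁻¹) := by
  rw [ENNReal.ofReal_tsum_of_nonneg (fun k => by positivity) ss_summable]
  calc ∑' k : ℤ, ENNReal.ofReal (((1 + |x - k|) ^ 2)⁻¹)
      = ∑' k : ℤ, ENNReal.ofReal (((1 + |x - ((k + round x : ℤ) : ℝ)|) ^ 2)⁻¹) :=
        ((Equiv.addRight (round x)).tsum_eq
          (fun k : ℤ => ENNReal.ofReal (((1 + |x - k|) ^ 2)⁻¹))).symm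
    _ ≤ _ := by
        refine ENNReal.tsum_le_tsum fun k => ENNReal.ofReal_le_ofReal ?_
        have h1 := abs_sub_round x
        have h2 : |(k:ℝ)| ≤ |x - ((k + round x : ℤ) : ℝ)| + |x - round x| := by
          have h3 : (k:ℝ) = -(x - ((k + round x : ℤ) : ℝ)) + (x - round x) := by
            push_cast
            ring
          calc |(k:ℝ)| = |-(x - ((k + round x : ℤ) : ℝ)) + (x - round x)| := by rw [← h3]
            _ ≤ |-(x - ((k + round x : ℤ) : ℝ))| + |x - round x| := abs_add_le _ _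
            _ = _ := by rw [abs_neg]
        have h4 := abs_nonneg (k:ℝ)
        have h5 : (1 / 2) * (1 + |(k:ℝ)|) ≤ 1 + |x - ((k + round x : ℤ) : ℝ)| := by linarith
        have h6 : ((1 / 2) * (1 + |(k:ℝ)|)) ^ 2 ≤ (1 + |x - ((k + round x : ℤ) : ℝ)|) ^ 2 :=
          pow_le_pow_left₀ (by positivity) h5 2
        calc ((1 + |x - ((k + round x : ℤ) : ℝ)|) ^ 2)⁻¹ ≤ (((1 / 2) * (1 + |(k:ℝ)|)) ^ 2)⁻¹ :=
              inv_anti₀ (by positivity) h6
          _ = 4 * ((1 + |(k:ℝ)|) ^ 2)⁻¹ := by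
              rw [mul_pow, mul_inv]
              norm_num

private lemma ss_term (M : ℕ) {a : ℝ} (ha : 1 ≤ a) (x k : ℝ) :
    ((1 + |k| / a) ^ M)⁻¹ * ((1 + |x - k|) ^ (M + 2))⁻¹ ≤
      ((1 + |x| / a) ^ M)⁻¹ * ((1 + |x - k|) ^ 2)⁻¹ := by
  have ha0 : 0 < a := by linarith
  have hk := abs_nonneg k
  have hx := abs_nonneg x
  have hxk := abs_nonneg (x - k)
  have h1 : 1 + |x| / a ≤ (1 + |k| / a) * (1 + |x - k|) := by
    have h2 : |x| ≤ |k| + |x - k| := by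
      have := abs_add_le k (x - k)
      rwa [add_sub_cancel] at this
    have h3 : |x| / a ≤ |k| / a + |x - k| / a := by
      rw [← add_div]
      exact div_le_div_of_nonneg_right h2 ha0.le
    have h4 : |x - k| / a ≤ |x - k| := div_le_self hxk ha
    have h5 : 0 ≤ |k| / a * |x - k| := by positivity
    nlinarith
  have h6 : (1 + |x| / a) ^ M ≤ (1 + |k| / a) ^ M * (1 + |x - k|) ^ M := by
    rw [← mul_pow]
    exact pow_le_pow_left₀ (by positivity) h1 M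
  have h7 : ((1 + |k| / a) ^ M * (1 + |x - k|) ^ M)⁻¹ ≤ ((1 + |x| / a) ^ M)⁻¹ :=
    inv_anti₀ (by positivity) h6
  calc ((1 + |k| / a) ^ M)⁻¹ * ((1 + |x - k|) ^ (M + 2))⁻¹
      = ((1 + |k| / a) ^ M * (1 + |x - k|) ^ M)⁻¹ * ((1 + |x - k|) ^ 2)⁻¹ := by
        rw [pow_add, mul_inv, mul_inv]
        ring
    _ ≤ _ := mul_le_mul_of_nonneg_right h7 (by positivity)

theorem sup_sum (d M : ℕ) (hM : 2 ≤ M) : ∃ C : ℝ, 0 < C ∧
    ∀ (L : (Fin d → ℤ) →+ (Fin d → ℝ)) (T : ℝ), 0 < T → (∀ z, z ≠ 0 → T ≤ ∏ j, |L z j|) →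
      ∀ s : Fin d → ℕ,
        ∑' k : Fin d → ℤ, (ENNReal.ofReal (∏ j, ((1 + |(k j : ℝ)| / 2 ^ s j) ^ M)⁻¹) *
            ∑' z : NZ d, ENNReal.ofReal (∏ j, ((1 + |L z.1 j - k j|) ^ (M + 2))⁻¹)) ≤
          ENNReal.ofReal (C * ((2 : ℝ) ^ (∑ j, s j) / T *
            ((max 1 (T / (2 : ℝ) ^ (∑ j, s j))) ^ (M - 2))⁻¹)) := by
  obtain ⟨C, hC, hlat⟩ := lat_sum d M hM
  set c : ℝ := ∑' k : ℤ, 4 * ((1 + |(k : ℝ)|) ^ 2)⁻¹ with hc
  have hc0 : 0 < c := by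
    have h1 := ss_summable.le_tsum 0 (fun k _ => by positivity)
    have h2 : (0:ℝ) < 4 * ((1 + |((0:ℤ) : ℝ)|) ^ 2)⁻¹ := by positivity
    exact lt_of_lt_of_le h2 h1
  refine ⟨C * c ^ d, by positivity, fun L T hT hL s => ?_⟩
  let L' : (Fin d → ℤ) →+ (Fin d → ℝ) :=
    { toFun := fun z j => L z j / 2 ^ s j
      map_zero' := by ext j; simp
      map_add' := fun z z' => by ext j; simp [add_div] }
  have hL' : ∀ z j, |L' z j| = |L z j| / 2 ^ s j := by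
    intro z j
    show |L z j / 2 ^ s j| = _
    rw [abs_div, abs_of_pos (by positivity : (0:ℝ) < 2 ^ s j)]
  have h1 := hlat L' (T / 2 ^ (∑ j, s j)) (by positivity) (by
    intro z hz
    simp_rw [hL']
    rw [Finset.prod_div_distrib, Finset.prod_pow_eq_pow_sum]
    exact div_le_div_of_nonneg_right (hL z hz) (by positivity))
  have hz : ∀ z : NZ d, ∑' k : Fin d → ℤ, (ENNReal.ofReal (∏ j, ((1 + |(k j : ℝ)| / 2 ^ s j) ^ M)⁻¹) *
      ENNReal.ofReal (∏ j, ((1 + |L z.1 j - k j|) ^ (M + 2))⁻¹)) ≤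
      ENNReal.ofReal (∏ j, ((1 + |L' z.1 j|) ^ M)⁻¹) * ENNReal.ofReal c ^ d := by
    intro z
    calc ∑' k : Fin d → ℤ, (ENNReal.ofReal (∏ j, ((1 + |(k j : ℝ)| / 2 ^ s j) ^ M)⁻¹) *
          ENNReal.ofReal (∏ j, ((1 + |L z.1 j - k j|) ^ (M + 2))⁻¹))
        ≤ ∑' k : Fin d → ℤ, (ENNReal.ofReal (∏ j, ((1 + |L' z.1 j|) ^ M)⁻¹) *
          ∏ j, ENNReal.ofReal (((1 + |L z.1 j - k j|) ^ 2)⁻¹)) := by
          refine ENNReal.tsum_le_tsum fun k => ?_
          rw [← ENNReal.ofReal_prod_of_nonneg (fun j _ => by positivity),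
            ← ENNReal.ofReal_mul (Finset.prod_nonneg fun j _ => by positivity),
            ← ENNReal.ofReal_mul (Finset.prod_nonneg fun j _ => by positivity),
            ← Finset.prod_mul_distrib, ← Finset.prod_mul_distrib]
          refine ENNReal.ofReal_le_ofReal (Finset.prod_le_prod (fun j _ => by positivity) fun j _ => ?_)
          rw [hL']
          exact ss_term M (one_le_pow₀ one_le_two) (L z.1 j) (k j)
      _ = ENNReal.ofReal (∏ j, ((1 + |L' z.1 j|) ^ M)⁻¹) *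
          ∏ j, ∑' m : ℤ, ENNReal.ofReal (((1 + |L z.1 j - m|) ^ 2)⁻¹) := by
          rw [ENNReal.tsum_mul_left,
            ss_prod d (fun j (m : ℤ) => ENNReal.ofReal (((1 + |L z.1 j - m|) ^ 2)⁻¹))]
      _ ≤ ENNReal.ofReal (∏ j, ((1 + |L' z.1 j|) ^ M)⁻¹) * ∏ _j : Fin d, ENNReal.ofReal c := by
          gcongr with j _
          exact ss_one _
      _ = _ := by rw [Finset.prod_const, Finset.card_univ, Fintype.card_fin]
  calc ∑' k : Fin d → ℤ, (ENNReal.ofReal (∏ j, ((1 + |(k j : ℝ)| / 2 ^ s j) ^ M)⁻¹) *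
            ∑' z : NZ d, ENNReal.ofReal (∏ j, ((1 + |L z.1 j - k j|) ^ (M + 2))⁻¹))
      = ∑' z : NZ d, ∑' k : Fin d → ℤ, (ENNReal.ofReal (∏ j, ((1 + |(k j : ℝ)| / 2 ^ s j) ^ M)⁻¹) *
          ENNReal.ofReal (∏ j, ((1 + |L z.1 j - k j|) ^ (M + 2))⁻¹)) := by
        rw [ENNReal.tsum_comm]
        refine tsum_congr fun k => ?_
        rw [ENNReal.tsum_mul_left]
    _ ≤ ∑' z : NZ d, ENNReal.ofReal (∏ j, ((1 + |L' z.1 j|) ^ M)⁻¹) * ENNReal.ofReal c ^ d :=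
        ENNReal.tsum_le_tsum hz
    _ = (∑' z : NZ d, ENNReal.ofReal (∏ j, ((1 + |L' z.1 j|) ^ M)⁻¹)) * ENNReal.ofReal c ^ d := by
        rw [ENNReal.tsum_mul_right]
    _ ≤ ENNReal.ofReal (C * ((T / 2 ^ (∑ j, s j))⁻¹ *
          ((max 1 (T / 2 ^ (∑ j, s j))) ^ (M - 2))⁻¹)) * ENNReal.ofReal c ^ d := by
        gcongr
    _ = _ := by
        have h0 : 0 < max 1 (T / (2:ℝ) ^ (∑ j, s j)) := lt_of_lt_of_le one_pos (le_max_left _ _)
        rw [← ENNReal.ofReal_pow hc0.le, ← ENNReal.ofReal_mul (by positivity), inv_div]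
        congr 1
        ring

end Pool.Agent.Lib.P51n0
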