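import Pool.Agent.Lib.P51n0.Repr
import Pool.Agent.Lib.P51n0.Avg
import Pool.Agent.Lib.P51n0.Fam
import Pool.Agent.Lib.P51n0.Funct
import Pool.Agent.Lib.P51n0.SupSum

/-!
Module PsiB of MP_51a855_an (part 0): the kernels of the formula on the blocks. (All imports are
black boxes.)

Proof. Let `A` be the continuous linear map of `avg ν (fun j => Om l j (s j))` (`avg_clm`, norm at
most `(2(1+2^l))^d`), `E` the one of `errF ξ w` (norm at most `C + 1`) and `Λ = E ∘ A`. With
`a = ∏_j (fS + fpS)(k_j)` (`avg_symbol`, `sym_Om`) and `b = ∑ w_μ eC k (ξ_μ) - [k=0]` (`errF_char`):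
`A(cosT k) = Re a cosT k - Im a sinT k`, `A(sinT k) = Im a cosT k + Re a sinT k`, so
`Λ(cosT k) + i Λ(sinT k) = a b`, and `|Λ(cosT k)| + |Λ(sinT k)| ≤ 2 ‖a‖ ‖b‖`. By `sym_bound` and
`hform` the sum over `k` is at most `2 (2 (2^l Cν))^d C` times the left side of `sup_sum`. Apply
`repr`; `K` is the maximum of the constants and `1`.
-/

set_option autoImplicit false

open MeasureTheory
open scoped ENNReal NNReal

noncomputable section

namespace Pool.Agent.Lib.P51n0

open Pool.Agent.Lib.P51a855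

variable {d : ℕ}

private lemma char_comp (A : C(Torus d, ℝ) →L[ℝ] C(Torus d, ℝ)) (E : C(Torus d, ℝ) →L[ℝ] ℝ)
    (k : Fin d → ℤ) (α b : ℂ)
    (hA : ∀ x, ((A (cosT k) x : ℝ) : ℂ) + (A (sinT k) x : ℝ) * Complex.I = α * eC k x)
    (hE : ((E (cosT k) : ℝ) : ℂ) + (E (sinT k) : ℝ) * Complex.I = b) :
    ((E (A (cosT k)) : ℝ) : ℂ) + (E (A (sinT k)) : ℝ) * Complex.I = α * b := by
  have h1 : A (cosT k) = α.re • cosT k - α.im • sinT k := by
    ext x
    have := congrArg Complex.re (hA x)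
    simpa [Complex.mul_re, cosT_apply, sinT_apply] using this
  have h2 : A (sinT k) = α.im • cosT k + α.re • sinT k := by
    ext x
    have := congrArg Complex.im (hA x)
    simp only [Complex.add_im, Complex.ofReal_im, Complex.mul_im, Complex.ofReal_re,
      Complex.I_im, mul_one, Complex.I_re, mul_zero, add_zero, zero_add] at this
    rw [this]
    simp [cosT_apply, sinT_apply]
    ring
  rw [h1, h2, ← hE]
  simp only [map_add, map_sub, map_smul, smul_eq_mul]
  apply Complex.ext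
  · simp [Complex.mul_re]
  · simp [Complex.mul_im]
    ring

theorem psiB (d M : ℕ) (hM : 2 ≤ M) (l : ℕ) {Cν : ℝ} {ν : Measure ℝ} (hν : Nu M Cν ν)
    (C : ℝ) : ∃ K : ℝ, 1 ≤ K ∧ ∀ (T : ℝ) (n : ℕ) (ξ : Fin n → Torus d) (w : Fin n → ℝ)
      (L : (Fin d → ℤ) →+ (Fin d → ℝ)), 0 < T → (∀ z, z ≠ 0 → T ≤ ∏ j, |L z j|) →
      ∑ μ, |w μ| ≤ C →
      (∀ k : Fin d → ℤ,
        ENNReal.ofReal ‖∑ μ, (w μ : ℂ) * eC k (ξ μ) - (if k = 0 then 1 else 0)‖ ≤
          ENNReal.ofReal C * ∑' z : NZ d,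
            ENNReal.ofReal (∏ j, ((1 + |L z.1 j - k j|) ^ (M + 2))⁻¹)) →
      ∀ s : Fin d → ℕ, ∃ Ψ : Torus d → ℝ, Continuous Ψ ∧
        (∀ z, |Ψ z| ≤ K * ((2 : ℝ) ^ (∑ j, s j) / T *
          ((max 1 (T / (2 : ℝ) ^ (∑ j, s j))) ^ (M - 2))⁻¹)) ∧
        ∫ z, |Ψ z| ∂(haarT d) ≤ K ∧
        ∀ g : C(Torus d, ℝ), errF ξ w (avg ν (fun j => Om l j (s j)) g) = pair Ψ g := by
  have := hν.prob
  obtain ⟨Cs, hCs, hsum⟩ := sup_sum d M hM
  have hCν : 1 ≤ Cν := by
    have := hν.decay 0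
    simpa using this
  set D : ℝ := (2 * (2 ^ l * Cν)) ^ d with hD
  have hD0 : 0 ≤ D := by positivity
  refine ⟨max 1 (max (2 * D * |C| * Cs) ((|C| + 1) * (2 * (1 + 2 ^ l)) ^ d)), le_max_left _ _, ?_⟩
  intro T n ξ w L hT hL hw hform s
  have hC : 0 ≤ C := (Finset.sum_nonneg fun μ _ => abs_nonneg (w μ)).trans hw
  obtain ⟨A, hA, hAn⟩ := avg_clm ν (fun j => Om l j (s j)) (fun _ => 2 * (1 + 2 ^ l))
    (fun j => good_Om l j (s j))
  obtain ⟨E, hE, hEn⟩ := errF_clm ξ w
  set Q : ℝ := (2 : ℝ) ^ (∑ j, s j) / T * ((max 1 (T / (2 : ℝ) ^ (∑ j, s j))) ^ (M - 2))⁻¹ with hQ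
  have hQ0 : 0 ≤ Q := by positivity
  have key : ∑' k : Fin d → ℤ, ENNReal.ofReal (|(E.comp A) (cosT k)| + |(E.comp A) (sinT k)|) ≤
      ENNReal.ofReal (2 * D * C * (Cs * Q)) := by
    calc ∑' k : Fin d → ℤ, ENNReal.ofReal (|(E.comp A) (cosT k)| + |(E.comp A) (sinT k)|)
        ≤ ∑' k : Fin d → ℤ, ENNReal.ofReal (2 * D * C) *
          (ENNReal.ofReal (∏ j, ((1 + |(k j : ℝ)| / 2 ^ s j) ^ M)⁻¹) *
            ∑' z : NZ d, ENNReal.ofReal (∏ j, ((1 + |L z.1 j - k j|) ^ (M + 2))⁻¹)) := by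
          refine ENNReal.tsum_le_tsum fun k => ?_
          set α : ℂ := ∏ j, ∫ y, chi k (Om l j (s j) y) ∂ν with hα
          set b : ℂ := ∑ μ, (w μ : ℂ) * eC k (ξ μ) - (if k = 0 then 1 else 0) with hb
          have h1 : ((E (A (cosT k)) : ℝ) : ℂ) + (E (A (sinT k)) : ℝ) * Complex.I = α * b := by
            refine char_comp A E k α b (fun x => ?_) ?_
            · rw [hA, hA]
              exact avg_symbol ν _ _ (fun j => good_Om l j (s j)) k x
            · rw [hE, hE]
              exact errF_char ξ w k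
          have h2 : |E (A (cosT k))| + |E (A (sinT k))| ≤ 2 * (‖α‖ * ‖b‖) := by
            have e1 : |E (A (cosT k))| ≤ ‖α * b‖ := by
              rw [← h1]
              refine le_trans (le_of_eq ?_) (Complex.abs_re_le_norm _)
              simp
            have e2 : |E (A (sinT k))| ≤ ‖α * b‖ := by
              rw [← h1]
              refine le_trans (le_of_eq ?_) (Complex.abs_im_le_norm _)
              simp
            rw [norm_mul] at e1 e2
            linarith
          have h3 : ‖α‖ ≤ D * ∏ j, ((1 + |(k j : ℝ)| / 2 ^ s j) ^ M)⁻¹ := by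
            rw [hα, norm_prod]
            calc ∏ j, ‖∫ y, chi k (Om l j (s j) y) ∂ν‖
                ≤ ∏ j, (2 * (2 ^ l * Cν) * ((1 + |(k j : ℝ)| / 2 ^ s j) ^ M)⁻¹) := by
                  refine Finset.prod_le_prod (fun j _ => norm_nonneg _) fun j _ => ?_
                  rw [sym_Om]
                  exact sym_bound hν l (s j) (k j)
              _ = D * ∏ j, ((1 + |(k j : ℝ)| / 2 ^ s j) ^ M)⁻¹ := by
                  rw [Finset.prod_mul_distrib]
                  simp [hD]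
          have hP0 : 0 ≤ ∏ j, ((1 + |(k j : ℝ)| / 2 ^ s j) ^ M)⁻¹ :=
            Finset.prod_nonneg fun j _ => by positivity
          calc ENNReal.ofReal (|(E.comp A) (cosT k)| + |(E.comp A) (sinT k)|)
              ≤ ENNReal.ofReal (2 * (D * ∏ j, ((1 + |(k j : ℝ)| / 2 ^ s j) ^ M)⁻¹) * ‖b‖) := by
                refine ENNReal.ofReal_le_ofReal (h2.trans ?_)
                have := mul_le_mul_of_nonneg_right h3 (norm_nonneg b)
                linarith
            _ = ENNReal.ofReal (2 * D) *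
                  (ENNReal.ofReal (∏ j, ((1 + |(k j : ℝ)| / 2 ^ s j) ^ M)⁻¹) *
                    ENNReal.ofReal ‖b‖) := by
                rw [← ENNReal.ofReal_mul hP0, ← ENNReal.ofReal_mul (by positivity)]
                congr 1
                ring
            _ ≤ ENNReal.ofReal (2 * D) *
                  (ENNReal.ofReal (∏ j, ((1 + |(k j : ℝ)| / 2 ^ s j) ^ M)⁻¹) *
                    (ENNReal.ofReal C * ∑' z : NZ d,
                      ENNReal.ofReal (∏ j, ((1 + |L z.1 j - k j|) ^ (M + 2))⁻¹))) := by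
                gcongr
                exact hform k
            _ = _ := by
                rw [ENNReal.ofReal_mul (by positivity : 0 ≤ 2 * D) (q := C)]
                ring
      _ = ENNReal.ofReal (2 * D * C) * ∑' k : Fin d → ℤ,
          (ENNReal.ofReal (∏ j, ((1 + |(k j : ℝ)| / 2 ^ s j) ^ M)⁻¹) *
            ∑' z : NZ d, ENNReal.ofReal (∏ j, ((1 + |L z.1 j - k j|) ^ (M + 2))⁻¹)) :=
          ENNReal.tsum_mul_left
      _ ≤ ENNReal.ofReal (2 * D * C) * ENNReal.ofReal (Cs * Q) := by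
          gcongr
          exact hsum L T hT hL s
      _ = ENNReal.ofReal (2 * D * C * (Cs * Q)) :=
          (ENNReal.ofReal_mul (by positivity)).symm
  obtain ⟨Ψ, hΨc, hΨb, hΨi, hΨr⟩ := repr (E.comp A) (by positivity) key
  refine ⟨Ψ, hΨc, fun z => (hΨb z).trans ?_, hΨi.trans ?_, fun g => ?_⟩
  · calc 2 * D * C * (Cs * Q) = (2 * D * |C| * Cs) * Q := by
          rw [abs_of_nonneg hC]; ring
      _ ≤ _ := by
          refine mul_le_mul_of_nonneg_right ?_ hQ0
          exact (le_max_left _ _).trans (le_max_right _ _)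
  · calc ‖E.comp A‖ ≤ ‖E‖ * ‖A‖ := E.opNorm_comp_le A
      _ ≤ (|C| + 1) * (2 * (1 + 2 ^ l)) ^ d := by
          refine mul_le_mul (hEn.trans ?_) (hAn.trans (le_of_eq ?_)) A.opNorm_nonneg
            (by positivity)
          · rw [abs_of_nonneg hC]; linarith
          · simp
      _ ≤ _ := (le_max_right _ _).trans (le_max_right _ _)
  · rw [← hΨr g, ContinuousLinearMap.comp_apply, hE, hA]

end Pool.Agent.Lib.P51n0
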