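import Pool.Agent.Lib.P51n0.Dense
import Pool.Agent.Lib.P51n0.Avg
import Pool.Agent.Lib.P51n0.Fam

/-!
Module Tele of MP_51a855_an (part 0): the telescoping identity. (All imports are black boxes.)

Proof. Both sides are continuous linear in `f` (`avg_clm`, compositions and sums), so by `ext_trig`
it suffices to compare them on `cosT k` and `sinT k`. If linear maps `A`, `A'` satisfy
`A(cosT k) + i A(sinT k) = a eC k`, `A'(cosT k) + i A'(sinT k) = a' eC k` (pointwise), then
`A(cosT k) = Re a cosT k - Im a sinT k`, `A(sinT k) = Im a cosT k + Re a sinT k`, and the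
composition has the symbol `a a'`. The symbols are (`avg_symbol`, `sym_Om`, …)
`∑_s ∏_j (f_{s_j}(k_j) + f_{s_j - 1}(k_j)) (f_{s_j}(k_j) - f_{s_j-1}(k_j))`
`= ∏_j ∑_{m ≤ n} (f_m(k_j)² - f_{m-1}(k_j)²) = ∏_j f_n(k_j)²` with `f_m = fS ν l m`,
`f_{m-1} = fpS ν l m`, `f_{-1} = 0` (`Finset.prod_univ_sum`, `Finset.sum_range_succ`).
-/

set_option autoImplicit false

open MeasureTheory
open scoped ENNReal NNReal

noncomputable section

namespace Pool.Agent.Lib.P51n0

open Pool.Agent.Lib.P51a855

variable {d : ℕ}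

namespace TeleAux

/-- `A` acts on the character `k` by the symbol `a` -/
def Sy (k : Fin d → ℤ) (A : C(Torus d, ℝ) →L[ℝ] C(Torus d, ℝ)) (a : ℂ) : Prop :=
  A (cosT k) = a.re • cosT k - a.im • sinT k ∧ A (sinT k) = a.im • cosT k + a.re • sinT k

lemma sy_of {k : Fin d → ℤ} {A : C(Torus d, ℝ) →L[ℝ] C(Torus d, ℝ)} {a : ℂ}
    (h : ∀ x, ((A (cosT k) x : ℝ) : ℂ) + (A (sinT k) x : ℝ) * Complex.I = a * eC k x) :
    Sy k A a := by
  constructor
  · ext x
    have h1 := congrArg Complex.re (h x)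
    simp only [Complex.add_re, Complex.ofReal_re, Complex.mul_re, Complex.I_re, mul_zero,
      Complex.ofReal_im, Complex.I_im, mul_one, sub_self, add_zero] at h1
    rw [ContinuousMap.sub_apply, ContinuousMap.smul_apply, ContinuousMap.smul_apply, cosT_apply,
      sinT_apply, smul_eq_mul, smul_eq_mul]
    exact h1
  · ext x
    have h1 := congrArg Complex.im (h x)
    simp only [Complex.add_im, Complex.ofReal_im, Complex.mul_im, Complex.I_re, mul_zero,
      Complex.ofReal_re, Complex.I_im, mul_one, add_zero, zero_add] at h1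
    rw [ContinuousMap.add_apply, ContinuousMap.smul_apply, ContinuousMap.smul_apply, cosT_apply,
      sinT_apply, smul_eq_mul, smul_eq_mul]
    linarith

lemma sy_comp {k : Fin d → ℤ} {A A' : C(Torus d, ℝ) →L[ℝ] C(Torus d, ℝ)} {a a' : ℂ}
    (h : Sy k A a) (h' : Sy k A' a') : Sy k (A.comp A') (a * a') := by
  obtain ⟨h1, h2⟩ := h
  obtain ⟨h3, h4⟩ := h'
  constructor
  · rw [ContinuousLinearMap.comp_apply, h3, map_sub, map_smul, map_smul, h1, h2, Complex.mul_re,
      Complex.mul_im]
    ext x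
    simp only [ContinuousMap.sub_apply, ContinuousMap.smul_apply, ContinuousMap.add_apply,
      smul_eq_mul]
    ring
  · rw [ContinuousLinearMap.comp_apply, h4, map_add, map_smul, map_smul, h1, h2, Complex.mul_re,
      Complex.mul_im]
    ext x
    simp only [ContinuousMap.sub_apply, ContinuousMap.smul_apply, ContinuousMap.add_apply,
      smul_eq_mul]
    ring

lemma sy_zero (k : Fin d → ℤ) : Sy k (0 : C(Torus d, ℝ) →L[ℝ] C(Torus d, ℝ)) 0 := by
  constructor <;> simp

lemma sy_add {k : Fin d → ℤ} {A A' : C(Torus d, ℝ) →L[ℝ] C(Torus d, ℝ)} {a a' : ℂ}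
    (h : Sy k A a) (h' : Sy k A' a') : Sy k (A + A') (a + a') := by
  obtain ⟨h1, h2⟩ := h
  obtain ⟨h3, h4⟩ := h'
  constructor
  · rw [ContinuousLinearMap.add_apply, h1, h3, Complex.add_re, Complex.add_im]
    ext x
    simp only [ContinuousMap.sub_apply, ContinuousMap.smul_apply, ContinuousMap.add_apply,
      smul_eq_mul]
    ring
  · rw [ContinuousLinearMap.add_apply, h2, h4, Complex.add_re, Complex.add_im]
    ext x
    simp only [ContinuousMap.sub_apply, ContinuousMap.smul_apply, ContinuousMap.add_apply,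
      smul_eq_mul]
    ring

lemma sy_sum {ι : Type*} {k : Fin d → ℤ} (S : Finset ι)
    {A : ι → C(Torus d, ℝ) →L[ℝ] C(Torus d, ℝ)} {a : ι → ℂ} (h : ∀ s, Sy k (A s) (a s)) :
    Sy k (∑ s ∈ S, A s) (∑ s ∈ S, a s) := by
  classical
  induction S using Finset.induction_on with
  | empty =>
    rw [Finset.sum_empty, Finset.sum_empty]
    exact sy_zero k
  | insert s S hs ih =>
    rw [Finset.sum_insert hs, Finset.sum_insert hs]
    exact sy_add (h s) ih

/-- the telescoping identity for the symbols -/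
lemma tel1 (ν : Measure ℝ) (l n : ℕ) (k : ℤ) :
    ∑ m ∈ Finset.range (n + 1), (fS ν l m k + fpS ν l m k) * (fS ν l m k - fpS ν l m k) =
      fS ν l n k * fS ν l n k := by
  induction n with
  | zero =>
    rw [zero_add, Finset.sum_range_one]
    have : fpS ν l 0 k = 0 := by unfold fpS; rw [if_pos rfl]
    rw [this, add_zero, sub_zero]
  | succ n ih =>
    rw [Finset.sum_range_succ, ih]
    have : fpS ν l (n + 1) k = fS ν l n k := by
      unfold fpS
      rw [if_neg (Nat.succ_ne_zero n), Nat.add_sub_cancel]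
    rw [this]
    ring

lemma tel2 (ν : Measure ℝ) (l n : ℕ) (k : Fin d → ℤ) :
    ∑ s ∈ Fintype.piFinset (fun _ : Fin d => Finset.range (n + 1)),
        (∏ j, (fS ν l (s j) (k j) + fpS ν l (s j) (k j))) *
          (∏ j, (fS ν l (s j) (k j) - fpS ν l (s j) (k j))) =
      (∏ j, fS ν l n (k j)) * ∏ j, fS ν l n (k j) := by
  rw [← Finset.prod_mul_distrib]
  simp only [← Finset.prod_mul_distrib]
  rw [← Finset.prod_univ_sum (fun _ : Fin d => Finset.range (n + 1))
    (fun j m => (fS ν l m (k j) + fpS ν l m (k j)) * (fS ν l m (k j) - fpS ν l m (k j)))]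
  exact Finset.prod_congr rfl fun j _ => tel1 ν l n (k j)

end TeleAux

open TeleAux

theorem tele (ν : Measure ℝ) [IsProbabilityMeasure ν] (l n : ℕ) (f : C(Torus d, ℝ)) :
    ∑ s ∈ Fintype.piFinset (fun _ : Fin d => Finset.range (n + 1)),
        avg ν (fun j => Om l j (s j)) (avg ν (fun j => Th l j (s j)) f) =
      avg ν (fun j => Fn l j n) (avg ν (fun j => Fn l j n) f) := by
  obtain ⟨A, hA, -⟩ := avg_clm ν (fun j : Fin d => Fn l j n) _ (fun j => good_Fn l j n)
  have hO : ∀ s : Fin d → ℕ, ∃ O : C(Torus d, ℝ) →L[ℝ] C(Torus d, ℝ),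
      ∀ f, O f = avg ν (fun j => Om l j (s j)) f := by
    intro s
    obtain ⟨O, hO, -⟩ := avg_clm ν (fun j : Fin d => Om l j (s j)) _ (fun j => good_Om l j (s j))
    exact ⟨O, hO⟩
  have hT : ∀ s : Fin d → ℕ, ∃ T : C(Torus d, ℝ) →L[ℝ] C(Torus d, ℝ),
      ∀ f, T f = avg ν (fun j => Th l j (s j)) f := by
    intro s
    obtain ⟨T, hT, -⟩ := avg_clm ν (fun j : Fin d => Th l j (s j)) _ (fun j => good_Th l j (s j))
    exact ⟨T, hT⟩
  choose O hO using hO
  choose T hT using hT
  have sA : ∀ k, Sy k A (∏ j, fS ν l n (k j)) := by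
    intro k
    refine sy_of fun x => ?_
    rw [hA, hA, avg_symbol ν _ _ (fun j => good_Fn l j n) k x]
    congr 1
    exact Finset.prod_congr rfl fun j _ => sym_Fn ν l j n k
  have sO : ∀ k s, Sy k (O s) (∏ j, (fS ν l (s j) (k j) + fpS ν l (s j) (k j))) := by
    intro k s
    refine sy_of fun x => ?_
    rw [hO, hO, avg_symbol ν _ _ (fun j => good_Om l j (s j)) k x]
    congr 1
    exact Finset.prod_congr rfl fun j _ => sym_Om ν l j (s j) k
  have sT : ∀ k s, Sy k (T s) (∏ j, (fS ν l (s j) (k j) - fpS ν l (s j) (k j))) := by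
    intro k s
    refine sy_of fun x => ?_
    rw [hT, hT, avg_symbol ν _ _ (fun j => good_Th l j (s j)) k x]
    congr 1
    exact Finset.prod_congr rfl fun j _ => sym_Th ν l j (s j) k
  have key : (∑ s ∈ Fintype.piFinset (fun _ : Fin d => Finset.range (n + 1)),
      (O s).comp (T s)) f = (A.comp A) f := by
    have e1 : ∀ k, Sy k (∑ s ∈ Fintype.piFinset (fun _ : Fin d => Finset.range (n + 1)),
        (O s).comp (T s)) ((∏ j, fS ν l n (k j)) * ∏ j, fS ν l n (k j)) := by
      intro k
      rw [← tel2 ν l n k]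
      exact sy_sum _ fun s => sy_comp (sO k s) (sT k s)
    have e2 : ∀ k, Sy k (A.comp A) ((∏ j, fS ν l n (k j)) * ∏ j, fS ν l n (k j)) :=
      fun k => sy_comp (sA k) (sA k)
    exact ext_trig _ _ (fun k => (e1 k).1.trans (e2 k).1.symm)
      (fun k => (e1 k).2.trans (e2 k).2.symm) f
  rw [ContinuousLinearMap.sum_apply, ContinuousLinearMap.comp_apply, hA, hA] at key
  rw [← key]
  refine Finset.sum_congr rfl fun s _ => ?_
  rw [ContinuousLinearMap.comp_apply, hO, hT]

end Pool.Agent.Lib.P51n0
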