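import Pool.Agent.Lib.P51n0.Form
import Pool.Agent.Lib.P51n0.Tele
import Pool.Agent.Lib.P51n0.Conv
import Pool.Agent.Lib.P51n0.PsiB
import Pool.Agent.Lib.P51n0.PairRho
import Pool.Agent.Lib.P51n0.DiffB

/-!
The upper bound for the optimal cubature error of the classes `H^r_p` (Frolov's formulas).
-/

set_option autoImplicit false

open MeasureTheory Filter Topology
open scoped ENNReal NNReal

noncomputable section

namespace Pool.Agent.Lib.P51n0

open Pool.Agent.Lib.P51a855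

variable {d : ℕ}

/-- The error of Frolov's formula. -/
theorem form_error (d l : ℕ) (hd : 1 ≤ d) (r : ℝ) (hr : 0 < r) (hl : r < l) (p : ℝ≥0∞)
    (hp : 1 ≤ p) (hpr : 1 / p < ENNReal.ofReal r) :
    ∃ C₀ C : ℝ, 0 < C₀ ∧ 0 < C ∧ ∀ T : ℝ, 1 ≤ T → ∃ (n : ℕ) (ξ : Fin n → Torus d)
      (w : Fin n → ℝ), (n : ℝ) ≤ C₀ * T ∧ ∀ f ∈ HClass d l r p,
        |errF ξ w f| ≤ C * T ^ (-r) * (1 + Real.log T) ^ (d - 1) := by
  haveI : Fact (1 ≤ p) := ⟨hp⟩
  have hl1 : 1 ≤ l := by
    rcases Nat.eq_zero_or_pos l with h | h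
    · subst h
      simp only [Nat.cast_zero] at hl
      linarith
    · exact h
  -- the exponent
  obtain ⟨M, hM⟩ : ∃ M : ℕ, r + 1 < M := exists_nat_gt (r + 1)
  have hM2 : 2 ≤ M := by
    have h1 : (1 : ℝ) < M := by linarith
    have h2 : 1 < M := by exact_mod_cast h1
    omega
  have hθ0 : (0 : ℝ) ≤ 1 / p.toReal := by positivity
  have hθ : 1 / p.toReal < r := by
    have h1 : (1 / p).toReal < (ENNReal.ofReal r).toReal :=
      (ENNReal.toReal_lt_toReal (ne_top_of_lt hpr) ENNReal.ofReal_ne_top).2 hpr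
    rwa [ENNReal.toReal_div, ENNReal.toReal_one, ENNReal.toReal_ofReal hr.le] at h1
  obtain ⟨Cφ, φ, hφ⟩ := exists_phi M
  obtain ⟨ν, hν⟩ := nu_of_phi hφ
  haveI := hν.prob
  obtain ⟨C₀, C, hC₀, hC, hform⟩ := form d hd (M + 2) (by omega)
  obtain ⟨K, hK, hpsi⟩ := psiB d M hM2 l hν C
  obtain ⟨C₁, hC₁, hnum⟩ := num_sum d hd r (1 / p.toReal) ((M : ℝ) - 1) hθ0 hθ (by linarith)
  set D : ℝ := ((2 : ℝ) ^ (1 + r)) ^ d with hD
  have hD0 : 0 < D := by positivity
  refine ⟨C₀, 2 * K ^ 2 * D * C₁, hC₀, by positivity, fun T hT => ?_⟩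
  obtain ⟨n, ξ, w, L, hn, hL, hw, hE⟩ := hform T hT
  refine ⟨n, ξ, w, hn, fun f hf => ?_⟩
  have hT0 : 0 < T := by linarith
  choose Ψ hΨc hΨ1 hΨ2 hΨ3 using hpsi T n ξ w L hT0 hL hw hE
  obtain ⟨E, hEf, -⟩ := errF_clm ξ w
  -- convergence
  have hlim : Tendsto (fun N : ℕ => |E (avg ν (fun j => Fn l j N) (avg ν (fun j => Fn l j N) f))|)
      atTop (𝓝 |E f|) :=
    ((E.continuous.tendsto f).comp (conv ν hν.supp l hl1 f)).abs
  rw [← hEf f]
  refine le_of_tendsto hlim (Eventually.of_forall fun N => ?_)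
  rw [← tele ν l N f, map_sum]
  have hNp : ∀ s : Fin d → ℕ, Np p (avg ν (fun j => Th l j (s j)) f) ≤
      D * (2 : ℝ) ^ (-(r * ∑ j, (s j : ℝ))) := fun s =>
    Np_avg_le ν hν.supp (fun j => Th l j (s j)) (fun _ => 2 * (1 + 2 ^ l))
      (fun j => good_Th l j (s j)) f (fun y hy => Np_Th_le hr hf s y hy)
  calc |∑ s ∈ Fintype.piFinset (fun _ : Fin d => Finset.range (N + 1)),
        E (avg ν (fun j => Om l j (s j)) (avg ν (fun j => Th l j (s j)) f))| ≤
      ∑ s ∈ Fintype.piFinset (fun _ : Fin d => Finset.range (N + 1)),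
        |E (avg ν (fun j => Om l j (s j)) (avg ν (fun j => Th l j (s j)) f))| :=
        Finset.abs_sum_le_sum_abs _ _
    _ ≤ ∑ s ∈ Fintype.piFinset (fun _ : Fin d => Finset.range (N + 1)),
        2 * K ^ 2 * D * ((2 : ℝ) ^ (-(r * ∑ j, (s j : ℝ))) *
          rho (1 / p.toReal) ((M : ℝ) - 1) ((2 : ℝ) ^ (∑ j, s j) / T)) := by
        refine Finset.sum_le_sum fun s _ => ?_
        rw [hEf, hΨ3 s]
        have h1 := pair_rho hM2 hK hT0 (hΨc s) (hΨ1 s) (hΨ2 s) (p := p)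
          (avg ν (fun j => Th l j (s j)) f)
        have h2 : 0 ≤ rho (1 / p.toReal) ((M : ℝ) - 1) ((2 : ℝ) ^ (∑ j, s j) / T) := by
          unfold rho
          split_ifs <;> positivity
        calc |pair (Ψ s) (avg ν (fun j => Th l j (s j)) f)| ≤
            2 * K ^ 2 * rho (1 / p.toReal) ((M : ℝ) - 1) ((2 : ℝ) ^ (∑ j, s j) / T) *
              Np p (avg ν (fun j => Th l j (s j)) f) := h1
          _ ≤ 2 * K ^ 2 * rho (1 / p.toReal) ((M : ℝ) - 1) ((2 : ℝ) ^ (∑ j, s j) / T) *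
              (D * (2 : ℝ) ^ (-(r * ∑ j, (s j : ℝ)))) :=
              mul_le_mul_of_nonneg_left (hNp s) (by positivity)
          _ = _ := by ring
    _ = 2 * K ^ 2 * D * ∑ s ∈ Fintype.piFinset (fun _ : Fin d => Finset.range (N + 1)),
        ((2 : ℝ) ^ (-(r * ∑ j, (s j : ℝ))) *
          rho (1 / p.toReal) ((M : ℝ) - 1) ((2 : ℝ) ^ (∑ j, s j) / T)) := by
        rw [Finset.mul_sum]
    _ ≤ 2 * K ^ 2 * D * (C₁ * T ^ (-r) * (1 + Real.log T) ^ (d - 1)) :=
        mul_le_mul_of_nonneg_left (hnum T hT _) (by positivity)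
    _ = _ := by ring

/-- The upper bound for the optimal cubature error. -/
theorem kappa_upper (d l : ℕ) (hd : 1 ≤ d) (r : ℝ) (hr : 0 < r) (hl : r < l) (p : ℝ≥0∞)
    (hp : 1 ≤ p) (hpr : 1 / p < ENNReal.ofReal r) :
    ∃ C : ℝ, 0 < C ∧ ∀ m : ℕ, 2 ≤ m → kappa m (HClass d l r p) ≤
      ENNReal.ofReal (C * (m : ℝ) ^ (-r) * Real.log m ^ (d - 1)) := by
  obtain ⟨C₀, C, hC₀, hC, h⟩ := form_error d l hd r hr hl p hp hpr
  haveI : Fact (1 ≤ p) := ⟨hp⟩
  -- small `m`
  set A : ℝ := max 1 C₀ with hA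
  have hA1 : 1 ≤ A := le_max_left _ _
  have hlog2 : 0 < Real.log 2 := Real.log_pos (by norm_num)
  set q : ℝ := Real.log 2 ^ (d - 1) with hq
  have hq0 : 0 < q := by positivity
  set b : ℝ := 1 + 1 / Real.log 2 with hb
  have hb0 : 0 < b := by positivity
  refine ⟨A ^ r * q⁻¹ + C * A ^ r * b ^ (d - 1), by positivity, fun m hm => ?_⟩
  have hm0 : (0 : ℝ) < m := by exact_mod_cast (by omega : 0 < m)
  have hm2 : (2 : ℝ) ≤ m := by exact_mod_cast hm
  have hlogm : Real.log 2 ≤ Real.log m := Real.log_le_log (by norm_num) hm2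
  have hX0 : 0 ≤ (m : ℝ) ^ (-r) * Real.log m ^ (d - 1) := by
    have : 0 ≤ Real.log m := by linarith
    positivity
  rcases lt_or_ge (m : ℝ) A with hmA | hmA
  · -- the zero formula
    have h1 : kappa m (HClass d l r p) ≤ 1 := by
      unfold kappa
      refine iInf_le_of_le (fun _ => 0) (iInf_le_of_le (fun _ => 0) ?_)
      refine iSup₂_le fun f hf => ?_
      have h2 : |mean (f : Torus d → ℝ)| ≤ Np p f := by
        have h3 := abs_pair_le (p := p) (Ψ := fun _ : Torus d => (1 : ℝ)) continuous_const (D := 1)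
          (by simp) (M := 1) le_rfl (by simp) f
        have h4 : pair (fun _ => 1) f = mean f := by
          unfold pair mean
          simp
        rw [h4] at h3
        simpa [phi] using h3
      have h5 : Np p f ≤ 1 := by
        have h6 := hf.1
        rw [eLpNorm_eq_Np] at h6
        have h7 : 0 ≤ Np p f := apply_nonneg _ _
        have := ENNReal.toReal_mono ENNReal.one_ne_top h6
        rwa [ENNReal.toReal_ofReal h7, ENNReal.toReal_one] at this
      have h8 : |(∑ μ : Fin m, (0 : ℝ) * f 0) - mean f| ≤ 1 := by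
        simp only [zero_mul, Finset.sum_const_zero, zero_sub, abs_neg]
        exact h2.trans h5
      calc _ ≤ ENNReal.ofReal 1 := ENNReal.ofReal_le_ofReal h8
        _ = 1 := ENNReal.ofReal_one
    refine h1.trans ?_
    rw [← ENNReal.ofReal_one]
    refine ENNReal.ofReal_le_ofReal ?_
    have h2 : A ^ (-r) ≤ (m : ℝ) ^ (-r) :=
      Real.rpow_le_rpow_of_nonpos hm0 hmA.le (by linarith)
    have h3 : q ≤ Real.log m ^ (d - 1) := pow_le_pow_left₀ hlog2.le hlogm _
    have h4 : A ^ (-r) * q ≤ (m : ℝ) ^ (-r) * Real.log m ^ (d - 1) :=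
      mul_le_mul h2 h3 hq0.le (by positivity)
    have h5 : A ^ r * q⁻¹ * (A ^ (-r) * q) = 1 := by
      have h6 : A ^ r * A ^ (-r) = 1 := by
        rw [← Real.rpow_add (by linarith)]
        simp
      calc A ^ r * q⁻¹ * (A ^ (-r) * q) = (A ^ r * A ^ (-r)) * (q⁻¹ * q) := by ring
        _ = 1 := by rw [h6, inv_mul_cancel₀ hq0.ne', one_mul]
    have h6 : 0 ≤ C * A ^ r * b ^ (d - 1) * ((m : ℝ) ^ (-r) * Real.log m ^ (d - 1)) := by
      positivity
    calc (1 : ℝ) = A ^ r * q⁻¹ * (A ^ (-r) * q) := h5.symm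
      _ ≤ A ^ r * q⁻¹ * ((m : ℝ) ^ (-r) * Real.log m ^ (d - 1)) :=
          mul_le_mul_of_nonneg_left h4 (by positivity)
      _ ≤ _ := by nlinarith
  · -- Frolov's formula
    set T : ℝ := m / A with hT
    have hT1 : 1 ≤ T := by
      rw [hT, le_div_iff₀ (by linarith), one_mul]
      exact hmA
    obtain ⟨n, ξ, w, hn, hE⟩ := h T hT1
    have hnm : n ≤ m := by
      have h1 : (n : ℝ) ≤ m := by
        calc (n : ℝ) ≤ C₀ * T := hn
          _ ≤ A * T := mul_le_mul_of_nonneg_right (le_max_right _ _) (by linarith)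
          _ = m := by rw [hT]; field_simp
      exact_mod_cast h1
    have h1 : kappa m (HClass d l r p) ≤
        ENNReal.ofReal (C * T ^ (-r) * (1 + Real.log T) ^ (d - 1)) := by
      unfold kappa
      refine iInf_le_of_le (fun μ => if h : (μ : ℕ) < n then ξ ⟨μ, h⟩ else 0)
        (iInf_le_of_le (fun μ => if h : (μ : ℕ) < n then w ⟨μ, h⟩ else 0) ?_)
      refine iSup₂_le fun f hf => ENNReal.ofReal_le_ofReal ?_
      have h2 : ∑ μ : Fin m, (if h : (μ : ℕ) < n then w ⟨μ, h⟩ else 0) *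
          f (if h : (μ : ℕ) < n then ξ ⟨μ, h⟩ else 0) = ∑ μ : Fin n, w μ * f (ξ μ) := by
        obtain ⟨t, rfl⟩ := Nat.exists_eq_add_of_le hnm
        rw [Fin.sum_univ_add]
        simp
      rw [h2]
      exact hE f hf
    refine h1.trans (ENNReal.ofReal_le_ofReal ?_)
    have h2 : T ^ (-r) = A ^ r * (m : ℝ) ^ (-r) := by
      rw [hT, Real.div_rpow hm0.le (by linarith), Real.rpow_neg (by linarith : (0 : ℝ) ≤ A),
        div_inv_eq_mul, mul_comm]
    have hTm : T ≤ m := by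
      rw [hT, div_le_iff₀ (by linarith)]
      nlinarith
    have h3 : 1 + Real.log T ≤ b * Real.log m := by
      have h4 : Real.log T ≤ Real.log m := Real.log_le_log (by linarith) hTm
      have h5 : 1 ≤ 1 / Real.log 2 * Real.log m := by
        rw [one_div, inv_mul_eq_div, one_le_div hlog2]
        exact hlogm
      rw [hb, add_mul, one_mul]
      linarith
    have h4 : 0 ≤ 1 + Real.log T := by
      have := Real.log_nonneg hT1
      linarith
    have h5 : (1 + Real.log T) ^ (d - 1) ≤ b ^ (d - 1) * Real.log m ^ (d - 1) := by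
      rw [← mul_pow]
      exact pow_le_pow_left₀ h4 h3 _
    have h6 : 0 ≤ A ^ r * q⁻¹ * ((m : ℝ) ^ (-r) * Real.log m ^ (d - 1)) := by positivity
    calc C * T ^ (-r) * (1 + Real.log T) ^ (d - 1) ≤
        C * T ^ (-r) * (b ^ (d - 1) * Real.log m ^ (d - 1)) :=
          mul_le_mul_of_nonneg_left h5 (by positivity)
      _ = C * A ^ r * b ^ (d - 1) * ((m : ℝ) ^ (-r) * Real.log m ^ (d - 1)) := by
          rw [h2]; ring
      _ ≤ _ := by nlinarith

end Pool.Agent.Lib.P51n0
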