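import Pool.Agent.Lib.P51a855.Block

/-!
Definitions for the optimal cubature error of the classes `H^r_p` (MP_51a855_an, smoothness
`r ≥ 1`): characters of the torus, averages of translation operators, Frolov's cubature formulas.
-/

set_option autoImplicit false

open MeasureTheory
open scoped ENNReal NNReal

noncomputable section

namespace Pool.Agent.Lib.P51n0

open Pool.Agent.Lib.P51a855

variable {d : ℕ}

/-! ### Characters -/

/-- The character `e^{ik·x}`. -/
def eC (k : Fin d → ℤ) (x : Torus d) : ℂ := ∏ j, (fourier (k j) (x j) : ℂ)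

lemma continuous_eC (k : Fin d → ℤ) : Continuous (eC k) := by
  unfold eC
  exact continuous_finsetProd _ fun j _ => (fourier (k j)).continuous.comp (continuous_apply j)

/-- `cos (k·x)` -/
def cosT (k : Fin d → ℤ) : C(Torus d, ℝ) :=
  ⟨fun x => (eC k x).re, Complex.continuous_re.comp (continuous_eC k)⟩

/-- `sin (k·x)` -/
def sinT (k : Fin d → ℤ) : C(Torus d, ℝ) :=
  ⟨fun x => (eC k x).im, Complex.continuous_im.comp (continuous_eC k)⟩

lemma cosT_apply (k : Fin d → ℤ) (x : Torus d) : cosT k x = (eC k x).re := rfl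

lemma sinT_apply (k : Fin d → ℤ) (x : Torus d) : sinT k x = (eC k x).im := rfl

lemma norm_eC (k : Fin d → ℤ) (x : Torus d) : ‖eC k x‖ = 1 := by
  unfold eC
  rw [norm_prod]
  exact Finset.prod_eq_one fun j _ => Circle.norm_coe _

lemma eC_add (k : Fin d → ℤ) (x y : Torus d) : eC k (x + y) = eC k x * eC k y := by
  unfold eC
  rw [← Finset.prod_mul_distrib]
  refine Finset.prod_congr rfl fun j _ => ?_
  rw [Pi.add_apply, fourier_apply, fourier_apply, fourier_apply, smul_add,
    AddCircle.toCircle_add]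
  push_cast
  rfl

lemma eC_zero (k : Fin d → ℤ) : eC k 0 = 1 := by
  unfold eC
  exact Finset.prod_eq_one fun j _ => by simp

/-- The character `e^{ik·x}` on the algebra of translation operators: translations by `h` are
mapped to `e^{ik·h}`. -/
def chi (k : Fin d → ℤ) : TA d →ₐ[ℝ] ℂ :=
  AddMonoidAlgebra.lift ℝ ℂ (Torus d)
    { toFun := fun h => eC k h.toAdd
      map_one' := eC_zero k
      map_mul' := fun h h' => by simp [eC_add] }

lemma chi_tr (k : Fin d → ℤ) (h : Torus d) : chi k (tr h) = eC k h := by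
  unfold chi tr
  rw [AddMonoidAlgebra.lift_single, one_smul]
  rfl

lemma eC_single (k : Fin d → ℤ) (j : Fin d) (t : ℝ) :
    eC k (Pi.single j (t : Circ)) = Complex.exp (k j * t * Complex.I) := by
  unfold eC
  rw [Finset.prod_eq_single j]
  · rw [Pi.single_eq_same, fourier_coe_apply]
    congr 1
    have : (Real.pi : ℂ) ≠ 0 := by exact_mod_cast Real.pi_ne_zero
    push_cast
    field_simp
  · intro i _ hi
    rw [Pi.single_eq_of_ne hi]
    simp
  · intro h
    exact absurd (Finset.mem_univ j) h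

lemma chi_trj (k : Fin d → ℤ) (j : Fin d) (t : ℝ) :
    chi k (trj j t) = Complex.exp (k j * t * Complex.I) := by
  unfold trj
  rw [chi_tr, eC_single]

/-- characters are eigenfunctions of the operators of the algebra -/
lemma act_char (k : Fin d → ℤ) (a : TA d) (x : Torus d) :
    ((act a (cosT k) x : ℝ) : ℂ) + (act a (sinT k) x : ℝ) * Complex.I = chi k a * eC k x := by
  induction a using AddMonoidAlgebra.induction_on with
  | of h =>
    have e1 : (AddMonoidAlgebra.of ℝ (Torus d) (Multiplicative.ofAdd h) : TA d) = tr h := rfl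
    rw [e1, act_tr, act_tr, chi_tr, sh_apply, sh_apply, cosT_apply, sinT_apply, Complex.re_add_im,
      eC_add, mul_comm]
  | add a b ha hb =>
    rw [map_add, map_add, LinearMap.add_apply, LinearMap.add_apply, ContinuousMap.add_apply,
      ContinuousMap.add_apply, add_mul, ← ha, ← hb]
    push_cast
    ring
  | smul r a ha =>
    rw [map_smul, map_smul, LinearMap.smul_apply, LinearMap.smul_apply, ContinuousMap.smul_apply,
      ContinuousMap.smul_apply, smul_eq_mul, smul_eq_mul, Complex.real_smul, mul_assoc, ← ha]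
    push_cast
    ring

/-! ### Averages of translation operators -/

/-- The operator `f ↦ ∫ (∏_j P_j(y_j)) f dν(y_1)⋯dν(y_d)`. -/
def avg (ν : Measure ℝ) (P : Fin d → ℝ → TA d) (f : C(Torus d, ℝ)) : C(Torus d, ℝ) :=
  ∫ y : Fin d → ℝ, act (∏ j, P j (y j)) f ∂(Measure.pi fun _ => ν)

/-- Admissible families of operators. -/
structure GoodP (P : ℝ → TA d) (B : ℝ) : Prop where
  cont : ∀ (X : Type) [TopologicalSpace X] (y : X → ℝ) (g : X → C(Torus d, ℝ)),
    Continuous y → Continuous g → Continuous fun u => act (P (y u)) (g u)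
  nonneg : 0 ≤ B
  bound : ∀ (y : ℝ) (f : C(Torus d, ℝ)), ‖act (P y) f‖ ≤ B * ‖f‖

/-- The smoothing element `1 - (1 - T_h)^l = ∑_{i=1}^l (-1)^{i+1} C(l,i) T_h^i`, where `T_h` is the
translation by `h = y/2^n` in the direction `j`. -/
def Fn (l : ℕ) (j : Fin d) (n : ℕ) (y : ℝ) : TA d := 1 - (1 - trj j (y / 2 ^ n)) ^ l

/-- the previous smoothing element, `0` for `n = 0` -/
def Fp (l : ℕ) (j : Fin d) (n : ℕ) (y : ℝ) : TA d := if n = 0 then 0 else Fn l j (n - 1) y

/-- `F_n + F_{n-1}` -/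
def Om (l : ℕ) (j : Fin d) (n : ℕ) (y : ℝ) : TA d := Fn l j n y + Fp l j n y

/-- `F_n - F_{n-1}` -/
def Th (l : ℕ) (j : Fin d) (n : ℕ) (y : ℝ) : TA d := Fn l j n y - Fp l j n y

/-- Probability measures on `[-1,1]` with rapidly decreasing Fourier transform. -/
structure Nu (M : ℕ) (C : ℝ) (ν : Measure ℝ) : Prop where
  prob : IsProbabilityMeasure ν
  supp : ∀ᵐ y ∂ν, |y| ≤ 1
  decay : ∀ t : ℝ, ‖∫ y, Complex.exp (t * y * Complex.I) ∂ν‖ ≤ C * ((1 + |t|) ^ M)⁻¹

/-- the symbol of the average of `F_0` -/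
def gS (ν : Measure ℝ) (l : ℕ) (t : ℝ) : ℂ :=
  ∫ y, (1 - (1 - Complex.exp (t * y * Complex.I)) ^ l) ∂ν

/-- the symbol of the average of `F_n` -/
def fS (ν : Measure ℝ) (l n : ℕ) (k : ℤ) : ℂ := gS ν l (k / 2 ^ n)

/-- the symbol of the average of `F_{n-1}` -/
def fpS (ν : Measure ℝ) (l n : ℕ) (k : ℤ) : ℂ := if n = 0 then 0 else fS ν l (n - 1) k

/-! ### Fourier transforms -/

/-- The Fourier transform `∫ β(t) e^{-ixt} dt`. -/
def hatB (β : ℝ → ℝ) (x : ℝ) : ℂ := ∫ t, (β t : ℂ) * Complex.exp (-(x * t * Complex.I))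

/-- Smooth nonnegative functions with integral one, supported in `[-1,1]`. -/
structure Phi (M : ℕ) (C : ℝ) (φ : ℝ → ℝ) : Prop where
  cont : Continuous φ
  nonneg : ∀ t, 0 ≤ φ t
  supp : ∀ t, 1 < |t| → φ t = 0
  int : ∫ t, φ t = 1
  decay : ∀ x : ℝ, ‖hatB φ x‖ ≤ C * ((1 + |x|) ^ M)⁻¹

/-- Continuous functions with compact support, `∑_k β(t + 2πk) = 1` (written on the Fourier side)
and rapidly decreasing Fourier transform. -/
structure Beta (M : ℕ) (C : ℝ) (β : ℝ → ℝ) : Prop where
  cont : Continuous β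
  supp : HasCompactSupport β
  bound : ∀ t, |β t| ≤ C
  zero : hatB β 0 = 2 * Real.pi
  int : ∀ k : ℤ, k ≠ 0 → hatB β k = 0
  decay : ∀ x : ℝ, ‖hatB β x‖ ≤ C * ((1 + |x|) ^ M)⁻¹

/-! ### Cubature formulas -/

/-- The error functional of a cubature formula. -/
def errF {n : ℕ} (ξ : Fin n → Torus d) (w : Fin n → ℝ) (f : C(Torus d, ℝ)) : ℝ :=
  ∑ μ, w μ * f (ξ μ) - mean f

/-- nonzero integer vectors -/
abbrev NZ (d : ℕ) : Type := {z : Fin d → ℤ // z ≠ 0}

end Pool.Agent.Lib.P51n0
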