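import Pool.Agent.Lib.P51n0.Defs

/-!
Module Dense of MP_51a855_an (part 0).

Proof. The real span of all `cosT k`, `sinT k` is dense in `C(Torus d, ℝ)`: it is a subalgebra
(addition formulas: `eC k x * eC k' x = eC (k + k') x`, `conj (eC k x) = eC (-k) x`), contains the
constants (`cosT 0 = 1`) and separates points (if `x_j ≠ y_j` then `fourier 1 (x_j) ≠ fourier 1 (y_j)`,
injectivity of `AddCircle.toCircle`), so the real Stone-Weierstrass theorem
(`ContinuousMap.subalgebra_topologicalClosure_eq_top_of_separatesPoints`) applies. Two continuous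
linear maps which agree on a set with dense span are equal (`ContinuousLinearMap.ext_on`).
-/

set_option autoImplicit false

open MeasureTheory
open scoped ENNReal NNReal

noncomputable section

namespace Pool.Agent.Lib.P51n0

open Pool.Agent.Lib.P51a855

variable {d : ℕ}

namespace DenseAux

lemma eC_mul (k k' : Fin d → ℤ) (x : Torus d) : eC k x * eC k' x = eC (k + k') x := by
  unfold eC
  rw [← Finset.prod_mul_distrib]
  refine Finset.prod_congr rfl fun j _ => ?_
  rw [Pi.add_apply, fourier_add]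

lemma eC_neg (k : Fin d → ℤ) (x : Torus d) : eC (-k) x = (starRingEnd ℂ) (eC k x) := by
  unfold eC
  rw [map_prod]
  refine Finset.prod_congr rfl fun j _ => ?_
  rw [Pi.neg_apply, fourier_neg]

lemma eC_mul_conj (k k' : Fin d → ℤ) (x : Torus d) :
    eC k x * (starRingEnd ℂ) (eC k' x) = eC (k - k') x := by
  rw [← eC_neg, eC_mul, sub_eq_add_neg]

/-- the set of all characters -/
def trigs (d : ℕ) : Set C(Torus d, ℝ) := Set.range cosT ∪ Set.range sinT

lemma cos_mem (k : Fin d → ℤ) : cosT k ∈ Submodule.span ℝ (trigs d) :=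
  Submodule.subset_span (Or.inl ⟨k, rfl⟩)

lemma sin_mem (k : Fin d → ℤ) : sinT k ∈ Submodule.span ℝ (trigs d) :=
  Submodule.subset_span (Or.inr ⟨k, rfl⟩)

lemma cos_mul_cos (k k' : Fin d → ℤ) :
    cosT k * cosT k' = (1 / 2 : ℝ) • (cosT (k + k') + cosT (k - k')) := by
  ext x
  have h1 := congrArg Complex.re (eC_mul k k' x)
  have h2 := congrArg Complex.re (eC_mul_conj k k' x)
  simp only [Complex.mul_re, Complex.conj_re, Complex.conj_im] at h1 h2
  simp only [ContinuousMap.mul_apply, ContinuousMap.smul_apply, ContinuousMap.add_apply,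
    cosT_apply, smul_eq_mul]
  linarith

lemma sin_mul_sin (k k' : Fin d → ℤ) :
    sinT k * sinT k' = (1 / 2 : ℝ) • (cosT (k - k') - cosT (k + k')) := by
  ext x
  have h1 := congrArg Complex.re (eC_mul k k' x)
  have h2 := congrArg Complex.re (eC_mul_conj k k' x)
  simp only [Complex.mul_re, Complex.conj_re, Complex.conj_im] at h1 h2
  simp only [ContinuousMap.mul_apply, ContinuousMap.smul_apply, ContinuousMap.sub_apply,
    cosT_apply, sinT_apply, smul_eq_mul]
  linarith

lemma sin_mul_cos (k k' : Fin d → ℤ) :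
    sinT k * cosT k' = (1 / 2 : ℝ) • (sinT (k + k') + sinT (k - k')) := by
  ext x
  have h1 := congrArg Complex.im (eC_mul k k' x)
  have h2 := congrArg Complex.im (eC_mul_conj k k' x)
  simp only [Complex.mul_im, Complex.conj_re, Complex.conj_im] at h1 h2
  simp only [ContinuousMap.mul_apply, ContinuousMap.smul_apply, ContinuousMap.add_apply,
    cosT_apply, sinT_apply, smul_eq_mul]
  linarith

lemma one_mem : (1 : C(Torus d, ℝ)) ∈ Submodule.span ℝ (trigs d) := by
  have h : (1 : C(Torus d, ℝ)) = cosT 0 := by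
    ext x
    rw [ContinuousMap.one_apply, cosT_apply]
    unfold eC
    simp
  rw [h]
  exact cos_mem 0

lemma mul_mem (f g : C(Torus d, ℝ)) (hf : f ∈ Submodule.span ℝ (trigs d))
    (hg : g ∈ Submodule.span ℝ (trigs d)) : f * g ∈ Submodule.span ℝ (trigs d) := by
  have hfg : f * g ∈ Submodule.span ℝ (trigs d) * Submodule.span ℝ (trigs d) :=
    Submodule.mul_mem_mul hf hg
  rw [Submodule.span_mul_span] at hfg
  refine Submodule.span_le.2 ?_ hfg
  rintro _ ⟨u, hu, v, hv, rfl⟩
  show u * v ∈ Submodule.span ℝ (trigs d)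
  rcases hu with ⟨k, rfl⟩ | ⟨k, rfl⟩ <;> rcases hv with ⟨k', rfl⟩ | ⟨k', rfl⟩
  · rw [cos_mul_cos]
    exact Submodule.smul_mem _ _ (Submodule.add_mem _ (cos_mem _) (cos_mem _))
  · rw [mul_comm (cosT k) (sinT k'), sin_mul_cos]
    exact Submodule.smul_mem _ _ (Submodule.add_mem _ (sin_mem _) (sin_mem _))
  · rw [sin_mul_cos]
    exact Submodule.smul_mem _ _ (Submodule.add_mem _ (sin_mem _) (sin_mem _))
  · rw [sin_mul_sin]
    exact Submodule.smul_mem _ _ (Submodule.sub_mem _ (cos_mem _) (cos_mem _))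

/-- the algebra of real trigonometric polynomials -/
def alg (d : ℕ) : Subalgebra ℝ C(Torus d, ℝ) :=
  (Submodule.span ℝ (trigs d)).toSubalgebra one_mem mul_mem

lemma sep : (alg d).SeparatesPoints := by
  intro x y hxy
  obtain ⟨j, hj⟩ := Function.ne_iff.1 hxy
  have hval : ∀ z : Torus d, eC (Pi.single j 1) z = ((z j).toCircle : ℂ) := by
    intro z
    unfold eC
    rw [Finset.prod_eq_single j]
    · rw [Pi.single_eq_same, fourier_one]
    · intro i _ hi
      rw [Pi.single_eq_of_ne hi]
      simp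
    · intro h
      exact absurd (Finset.mem_univ j) h
  by_contra hcon
  push Not at hcon
  have hc : cosT (Pi.single j 1) x = cosT (Pi.single j 1) y :=
    hcon _ ⟨cosT (Pi.single j 1), cos_mem _, rfl⟩
  have hs : sinT (Pi.single j 1) x = sinT (Pi.single j 1) y :=
    hcon _ ⟨sinT (Pi.single j 1), sin_mem _, rfl⟩
  rw [cosT_apply, cosT_apply, hval, hval] at hc
  rw [sinT_apply, sinT_apply, hval, hval] at hs
  have he : ((x j).toCircle : ℂ) = ((y j).toCircle : ℂ) := Complex.ext hc hs
  exact hj (AddCircle.injective_toCircle (by positivity) (Circle.ext he))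

lemma dense_span : Dense (Submodule.span ℝ (trigs d) : Set C(Torus d, ℝ)) := by
  have h := ContinuousMap.subalgebra_topologicalClosure_eq_top_of_separatesPoints (alg d) sep
  intro f
  have hf : f ∈ (alg d).topologicalClosure := by
    rw [h]
    exact Algebra.mem_top
  exact hf

end DenseAux

open DenseAux

theorem ext_trig {F : Type*} [NormedAddCommGroup F] [NormedSpace ℝ F]
    (A B : C(Torus d, ℝ) →L[ℝ] F) (hc : ∀ k : Fin d → ℤ, A (cosT k) = B (cosT k))
    (hs : ∀ k : Fin d → ℤ, A (sinT k) = B (sinT k)) (f : C(Torus d, ℝ)) : A f = B f := by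
  have h : A = B := by
    refine ContinuousLinearMap.ext_on (dense_span (d := d)) ?_
    rintro _ (⟨k, rfl⟩ | ⟨k, rfl⟩)
    · exact hc k
    · exact hs k
  rw [h]

end Pool.Agent.Lib.P51n0
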