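import Pool.Agent.Lib.P51n0.Defs

/-!
Module ExPhi of MP_51a855_an (part 0).

Proof. Take a `ContDiffBump (0 : ℝ)` with `rIn = 1/2`, `rOut = 1` and `φ = f.normed volume`: smooth,
nonnegative, integral one, support in the closed unit ball. It is a Schwartz function
(`HasCompactSupport.toSchwartzMap` or similar), hence its Fourier transform is a Schwartz function
(`SchwartzMap.fourierTransformCLM`), which gives the decay (`SchwartzMap.one_add_le_sup_seminorm_apply`
or `SchwartzMap.decay`); `hatB φ x = 𝓕 φ (x / (2π))` and `1 + |x/(2π)| ≥ (1 + |x|)/(2π)`.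
(Alternatively: integrate by parts `M` times.)
-/

set_option autoImplicit false

open MeasureTheory
open scoped ENNReal NNReal

noncomputable section

namespace Pool.Agent.Lib.P51n0

open Pool.Agent.Lib.P51a855

variable {d : ℕ}

open scoped FourierTransform ContDiff SchwartzMap in
private theorem ExPhi_decay (φ : ℝ → ℝ) (h1 : HasCompactSupport φ) (h2 : ContDiff ℝ ∞ φ) (M : ℕ) :
    ∃ C : ℝ, ∀ x : ℝ, ‖hatB φ x‖ ≤ C * ((1 + |x|) ^ M)⁻¹ := by
  have h1' : HasCompactSupport fun t : ℝ => (φ t : ℂ) :=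
    h1.comp_left (g := fun t : ℝ => (t : ℂ)) Complex.ofReal_zero
  have h2' : ContDiff ℝ ∞ fun t : ℝ => (φ t : ℂ) := Complex.ofRealCLM.contDiff.comp h2
  let f : 𝓢(ℝ, ℂ) := h1'.toSchwartzMap h2'
  let g : 𝓢(ℝ, ℂ) := 𝓕 f
  let K : ℝ := 2 ^ (M, 0).1 * (Finset.Iic (M, 0)).sup (fun m => SchwartzMap.seminorm ℝ m.1 m.2) g
  have hK : ∀ w : ℝ, (1 + |w|) ^ M * ‖g w‖ ≤ K := by
    intro w
    have := SchwartzMap.one_add_le_sup_seminorm_apply (𝕜 := ℝ) (m := (M, 0)) (k := M) (n := 0)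
      le_rfl le_rfl g w
    rwa [norm_iteratedFDeriv_zero, Real.norm_eq_abs] at this
  have hg : ∀ x : ℝ, hatB φ x = g (x / (2 * Real.pi)) := by
    intro x
    change _ = (𝓕 f : 𝓢(ℝ, ℂ)) (x / (2 * Real.pi))
    rw [SchwartzMap.fourier_coe, Real.fourier_real_eq_integral_exp_smul]
    unfold hatB
    congr 1
    funext t
    rw [smul_eq_mul, mul_comm]
    congr 2
    have : (Real.pi : ℂ) ≠ 0 := by exact_mod_cast Real.pi_ne_zero
    push_cast
    field_simp
  refine ⟨(2 * Real.pi) ^ M * K, fun x => ?_⟩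
  have hpi : (1 : ℝ) ≤ 2 * Real.pi := by linarith [Real.pi_gt_three]
  have hpos : (0 : ℝ) < 1 + |x| := by positivity
  rw [← div_eq_mul_inv, le_div_iff₀ (pow_pos hpos M), hg x]
  have h3 : (1 + |x|) ^ M ≤ (2 * Real.pi) ^ M * (1 + |x / (2 * Real.pi)|) ^ M := by
    rw [← mul_pow]
    refine pow_le_pow_left₀ hpos.le ?_ M
    rw [abs_div, abs_of_pos (by positivity : (0 : ℝ) < 2 * Real.pi), mul_add, mul_one,
      mul_div_cancel₀ _ (by positivity : (2 * Real.pi) ≠ 0)]
    linarith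
  calc ‖g (x / (2 * Real.pi))‖ * (1 + |x|) ^ M
      ≤ ‖g (x / (2 * Real.pi))‖ * ((2 * Real.pi) ^ M * (1 + |x / (2 * Real.pi)|) ^ M) :=
        mul_le_mul_of_nonneg_left h3 (norm_nonneg _)
    _ = (2 * Real.pi) ^ M * ((1 + |x / (2 * Real.pi)|) ^ M * ‖g (x / (2 * Real.pi))‖) := by ring
    _ ≤ (2 * Real.pi) ^ M * K := mul_le_mul_of_nonneg_left (hK _) (by positivity)

theorem exists_phi (M : ℕ) : ∃ (C : ℝ) (φ : ℝ → ℝ), Phi M C φ := by
  let f : ContDiffBump (0 : ℝ) := ⟨1 / 2, 1, by norm_num, by norm_num⟩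
  obtain ⟨C, hC⟩ := ExPhi_decay (f.normed volume) f.hasCompactSupport_normed f.contDiff_normed M
  refine ⟨C, f.normed volume, f.continuous_normed, fun t => f.nonneg_normed t, fun t ht => ?_,
    f.integral_normed, hC⟩
  have h1 : t ∉ Function.support (f.normed volume) := by
    rw [f.support_normed_eq, Metric.mem_ball, Real.dist_eq, sub_zero, not_lt]
    exact ht.le
  exact Function.notMem_support.1 h1

end Pool.Agent.Lib.P51n0
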