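import Pool.Agent.Lib.P51n0.Defs

/-!
Module LatSum of MP_51a855_an (part 0).

Proof. `d = 0`: there is no `z ≠ 0`. Let `d ≥ 1`. For `z ≠ 0` let `n = n(z) ∈ ℕ^d`:
`n_j = 0` if `|L z j| < 1`, else the `n_j ≥ 1` with `2^(n_j-1) ≤ |L z j| < 2^n_j`.
(1) The number of `z ≠ 0` with `n(z) = n` is zero if `2^|n| < R` (as `R ≤ ∏ |L z j| < 2^|n|`), and in
any case at most `2^(|n|+d+1)/R + 2 ≤ (2^(d+1) + 2) 2^|n| / R` when `2^|n| ≥ R`: put
`a = R / ∏_{j≠0} 2^(n_j+1)`; then `z ↦ ⌊(L z 0)/a⌋` is injective on these `z` (if `z ≠ z'` have the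
same value then `|L(z-z') 0| < a`, `|L(z-z') j| < 2^(n_j+1)` so the product is `< R`), with values
in an interval of length `2^(n_0+1)/a`. (Do it for all finite sets of such `z`, or show
finiteness.)
(2) The summand is at most `∏_j 2^(-M (n_j - 1)^+) ≤ 2^(Md) 2^(-M|n|)`.
(3) So the sum is at most `C R⁻¹ ∑_{n : 2^|n| ≥ max 1 R} 2^|n| 2^(-M|n|)`, and for these `n`
`2^(-(M-1)|n|) = 2^(-(M-2)|n|) 2^(-|n|) ≤ (max 1 R)^(-(M-2)) 2^(-|n|)`; finally
`∑_{n ∈ ℕ^d} 2^(-|n|) = 2^d`.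
(Work in `ℝ≥0∞`: group the sum over `z` by the fibers of `n(z)`, e.g. `ENNReal.tsum_comm` with
indicators or `tsum_fiberwise`.)
-/

set_option autoImplicit false

open MeasureTheory
open scoped ENNReal NNReal

noncomputable section

namespace Pool.Agent.Lib.P51n0

open Pool.Agent.Lib.P51a855

variable {d : ℕ}

/-- the dyadic size -/
private def lsNu (x : ℝ) : ℕ := Nat.find (pow_unbounded_of_one_lt |x| (one_lt_two : (1:ℝ) < 2))

private lemma lsNu_lt (x : ℝ) : |x| < 2 ^ lsNu x :=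
  Nat.find_spec (pow_unbounded_of_one_lt |x| (one_lt_two : (1:ℝ) < 2))

private lemma lsNu_le (x : ℝ) : (2:ℝ) ^ lsNu x ≤ 2 * (1 + |x|) := by
  have h0 := abs_nonneg x
  rcases Nat.eq_zero_or_pos (lsNu x) with h | h
  · rw [h, pow_zero]
    linarith
  · have h1 : ¬ |x| < 2 ^ (lsNu x - 1) :=
      Nat.find_min (pow_unbounded_of_one_lt |x| (one_lt_two : (1:ℝ) < 2)) (Nat.sub_lt h one_pos)
    push Not at h1
    have h2 : (2:ℝ) ^ lsNu x = 2 * 2 ^ (lsNu x - 1) := by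
      rw [← pow_succ']
      congr 1
      omega
    rw [h2]
    linarith

private lemma ls_geom (d : ℕ) : ∑' n : Fin d → ℕ, ∏ j, ((2:ℝ≥0∞)⁻¹) ^ n j = 2 ^ d := by
  induction d with
  | zero => simp
  | succ d ih =>
    rw [← (Fin.consEquiv (fun _ : Fin (d + 1) => ℕ)).tsum_eq, ENNReal.tsum_prod']
    have h1 : ∀ (a : ℕ) (b : Fin d → ℕ),
        ∏ j, ((2:ℝ≥0∞)⁻¹) ^ (Fin.consEquiv (fun _ : Fin (d + 1) => ℕ)) (a, b) j =
        (2:ℝ≥0∞)⁻¹ ^ a * ∏ j, ((2:ℝ≥0∞)⁻¹) ^ b j := by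
      intro a b
      rw [Fin.prod_univ_succ]
      rfl
    simp_rw [h1, ENNReal.tsum_mul_left, ih, ENNReal.tsum_mul_right, ENNReal.tsum_geometric,
      ENNReal.one_sub_inv_two, inv_inv]
    rw [pow_succ, mul_comm]

private lemma ls_inj {d : ℕ} (L : (Fin (d + 1) → ℤ) →+ (Fin (d + 1) → ℝ)) {R : ℝ}
    (hL : ∀ z, z ≠ 0 → R ≤ ∏ j, |L z j|) (n : Fin (d + 1) → ℕ) (z z' : Fin (d + 1) → ℤ)
    (hz : ∀ j, |L z j| < 2 ^ n j) (hz' : ∀ j, |L z' j| < 2 ^ n j)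
    (h : |L z 0 - L z' 0| < R / ∏ j : Fin d, (2:ℝ) ^ (n j.succ + 1)) : z = z' := by
  by_contra hne
  have h1 := hL (z - z') (sub_ne_zero.2 hne)
  rw [map_sub, Fin.prod_univ_succ] at h1
  simp only [Pi.sub_apply] at h1
  have hP : 0 < ∏ j : Fin d, (2:ℝ) ^ (n j.succ + 1) := Finset.prod_pos fun j _ => by positivity
  have h2 : ∏ j : Fin d, |L z j.succ - L z' j.succ| ≤ ∏ j : Fin d, (2:ℝ) ^ (n j.succ + 1) := by
    refine Finset.prod_le_prod (fun j _ => abs_nonneg _) fun j _ => ?_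
    have h3 := hz j.succ
    have h4 := hz' j.succ
    have h5 := abs_sub (L z j.succ) (L z' j.succ)
    rw [pow_succ]
    linarith
  have h6 : |L z 0 - L z' 0| * ∏ j : Fin d, |L z j.succ - L z' j.succ| < R := by
    calc |L z 0 - L z' 0| * ∏ j : Fin d, |L z j.succ - L z' j.succ|
        ≤ |L z 0 - L z' 0| * ∏ j : Fin d, (2:ℝ) ^ (n j.succ + 1) :=
          mul_le_mul_of_nonneg_left h2 (abs_nonneg _)
      _ < R / (∏ j : Fin d, (2:ℝ) ^ (n j.succ + 1)) * ∏ j : Fin d, (2:ℝ) ^ (n j.succ + 1) :=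
          mul_lt_mul_of_pos_right h hP
      _ = R := div_mul_cancel₀ _ hP.ne'
  linarith

/-- the sum of a constant over one fiber -/
private lemma ls_fiber {d : ℕ} (L : (Fin (d + 1) → ℤ) →+ (Fin (d + 1) → ℝ)) {R : ℝ} (hR : 0 < R)
    (hL : ∀ z, z ≠ 0 → R ≤ ∏ j, |L z j|) (n : Fin (d + 1) → ℕ) {c : ℝ} (hc : 0 ≤ c)
    (hn : R ≤ ∏ j, (2:ℝ) ^ n j) :
    ∑' _ : {z : NZ (d + 1) // (fun j => lsNu (L z.1 j)) = n}, ENNReal.ofReal c ≤
      ENNReal.ofReal ((2 ^ (d + 1) + 2) * (∏ j, (2:ℝ) ^ n j) / R * c) := by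
  set P : ℝ := ∏ j : Fin d, (2:ℝ) ^ (n j.succ + 1) with hP
  have hP0 : 0 < P := Finset.prod_pos fun j _ => by positivity
  set a : ℝ := R / P with ha
  have ha0 : 0 < a := by positivity
  set X : ℝ := 2 ^ n 0 / a with hX
  have hX0 : 0 ≤ X := by positivity
  set S : Finset ℤ := Finset.Icc ⌊-X⌋ ⌊X⌋ with hS
  have hlt : ∀ (z : {z : NZ (d + 1) // (fun j => lsNu (L z.1 j)) = n}) (j : Fin (d + 1)),
      |L z.1.1 j| < 2 ^ n j := by
    intro z j
    have h1 := lsNu_lt (L z.1.1 j)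
    have h2 : lsNu (L z.1.1 j) = n j := congrFun z.2 j
    rwa [h2] at h1
  have hmem : ∀ z : {z : NZ (d + 1) // (fun j => lsNu (L z.1 j)) = n}, ⌊L z.1.1 0 / a⌋ ∈ S := by
    intro z
    have h1 := abs_lt.1 (hlt z 0)
    rw [hS, Finset.mem_Icc]
    constructor
    · apply Int.floor_le_floor
      rw [hX, ← neg_div]
      exact div_le_div_of_nonneg_right h1.1.le ha0.le
    · apply Int.floor_le_floor
      rw [hX]
      exact div_le_div_of_nonneg_right h1.2.le ha0.le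
  set f : {z : NZ (d + 1) // (fun j => lsNu (L z.1 j)) = n} → {m : ℤ // m ∈ S} :=
    fun z => ⟨⌊L z.1.1 0 / a⌋, hmem z⟩ with hf
  have hinj : Function.Injective f := by
    intro z z' hzz
    have h1 : ⌊L z.1.1 0 / a⌋ = ⌊L z'.1.1 0 / a⌋ := congrArg Subtype.val hzz
    have h2 := Int.abs_sub_lt_one_of_floor_eq_floor h1
    rw [← sub_div, abs_div, abs_of_pos ha0, div_lt_one ha0] at h2
    exact Subtype.ext (Subtype.ext (ls_inj L hL n z.1.1 z'.1.1 (hlt z) (hlt z') h2))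
  have h3 := ENNReal.tsum_comp_le_tsum_of_injective hinj (fun _ => ENNReal.ofReal c)
  refine h3.trans ?_
  rw [tsum_fintype, Finset.sum_const, Finset.card_univ, Fintype.card_coe, nsmul_eq_mul,
    ← ENNReal.ofReal_natCast, ← ENNReal.ofReal_mul (by positivity)]
  apply ENNReal.ofReal_le_ofReal
  refine mul_le_mul_of_nonneg_right ?_ hc
  have hcard : (S.card : ℝ) ≤ 2 * X + 2 := by
    rw [hS, Int.card_Icc]
    have h4 : ⌊-X⌋ ≤ ⌊X⌋ := Int.floor_le_floor (by linarith)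
    have h5 : ((⌊X⌋ + 1 - ⌊-X⌋).toNat : ℤ) = ⌊X⌋ + 1 - ⌊-X⌋ := Int.toNat_of_nonneg (by linarith)
    have h6 : ((⌊X⌋ + 1 - ⌊-X⌋).toNat : ℝ) = (⌊X⌋ : ℝ) + 1 - ⌊-X⌋ := by
      exact_mod_cast congrArg (Int.cast : ℤ → ℝ) h5
    rw [h6]
    have h7 := Int.floor_le X
    have h8 := Int.lt_floor_add_one (-X)
    linarith
  have hXe : X = 2 ^ d * (∏ j, (2:ℝ) ^ n j) / R := by
    rw [hX, ha, hP, Fin.prod_univ_succ]
    simp_rw [pow_succ]
    rw [Finset.prod_mul_distrib, Finset.prod_const, Finset.card_univ, Fintype.card_fin]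
    field_simp
  have h9 : 1 ≤ (∏ j, (2:ℝ) ^ n j) / R := (one_le_div hR).2 hn
  calc (S.card : ℝ) ≤ 2 * X + 2 := hcard
    _ = 2 ^ (d + 1) * ((∏ j, (2:ℝ) ^ n j) / R) + 2 * 1 := by rw [hXe, pow_succ]; ring
    _ ≤ 2 ^ (d + 1) * ((∏ j, (2:ℝ) ^ n j) / R) + 2 * ((∏ j, (2:ℝ) ^ n j) / R) := by linarith
    _ = (2 ^ (d + 1) + 2) * (∏ j, (2:ℝ) ^ n j) / R := by ring

private lemma ls_pow {M : ℕ} (hM : 2 ≤ M) {R x : ℝ} (hx1 : 1 ≤ x) (hx2 : R ≤ x) :
    x * (x ^ M)⁻¹ ≤ ((max 1 R) ^ (M - 2))⁻¹ * x⁻¹ := by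
  obtain ⟨m, rfl⟩ := Nat.exists_eq_add_of_le hM
  have hx0 : 0 < x := by linarith
  have h1 : max 1 R ≤ x := max_le hx1 hx2
  have h0 : 0 < max 1 R := lt_of_lt_of_le one_pos (le_max_left _ _)
  rw [Nat.add_sub_cancel_left]
  have e : x * (x ^ (2 + m))⁻¹ = (x ^ m)⁻¹ * x⁻¹ := by
    rw [pow_add]
    field_simp
  rw [e]
  refine mul_le_mul_of_nonneg_right ?_ (by positivity)
  exact inv_anti₀ (by positivity) (pow_le_pow_left₀ h0.le h1 m)

theorem lat_sum (d M : ℕ) (hM : 2 ≤ M) : ∃ C : ℝ, 0 < C ∧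
    ∀ (L : (Fin d → ℤ) →+ (Fin d → ℝ)) (R : ℝ), 0 < R → (∀ z, z ≠ 0 → R ≤ ∏ j, |L z j|) →
      ∑' z : NZ d, ENNReal.ofReal (∏ j, ((1 + |L z.1 j|) ^ M)⁻¹) ≤
        ENNReal.ofReal (C * (R⁻¹ * ((max 1 R) ^ (M - 2))⁻¹)) := by
  rcases d with _ | d
  · refine ⟨1, one_pos, fun L R _ _ => ?_⟩
    have : IsEmpty (NZ 0) := ⟨fun z => z.2 (Subsingleton.elim _ _)⟩
    rw [tsum_empty]
    exact zero_le
  set A : ℝ := (2 ^ M) ^ (d + 1) with hA
  set K : ℝ := 2 ^ (d + 1) + 2 with hK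
  refine ⟨K * A * 2 ^ (d + 1), by positivity, fun L R hR hL => ?_⟩
  set D : ℝ := R⁻¹ * ((max 1 R) ^ (M - 2))⁻¹ with hD
  have hD0 : 0 ≤ D := by
    have h0 : 0 < max 1 R := lt_of_lt_of_le one_pos (le_max_left _ _)
    positivity
  set nf : NZ (d + 1) → (Fin (d + 1) → ℕ) := fun z j => lsNu (L z.1 j) with hnf
  -- the summand
  have hterm : ∀ z : NZ (d + 1), ∏ j, ((1 + |L z.1 j|) ^ M)⁻¹ ≤ A * ((∏ j, (2:ℝ) ^ nf z j) ^ M)⁻¹ := by
    intro z
    have h1 : ∀ j, ((1 + |L z.1 j|) ^ M)⁻¹ ≤ 2 ^ M * (((2:ℝ) ^ nf z j) ^ M)⁻¹ := by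
      intro j
      have h2 := lsNu_le (L z.1 j)
      have h3 : 0 < 1 + |L z.1 j| := by positivity
      have h4 : ((2:ℝ) ^ nf z j) ^ M ≤ 2 ^ M * (1 + |L z.1 j|) ^ M := by
        rw [← mul_pow]
        exact pow_le_pow_left₀ (by positivity) h2 M
      rw [← div_eq_mul_inv, le_div_iff₀ (by positivity), inv_mul_le_iff₀ (by positivity), mul_comm]
      exact h4
    calc ∏ j, ((1 + |L z.1 j|) ^ M)⁻¹ ≤ ∏ j, (2 ^ M * (((2:ℝ) ^ nf z j) ^ M)⁻¹) :=
          Finset.prod_le_prod (fun j _ => by positivity) fun j _ => h1 j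
      _ = A * ((∏ j, (2:ℝ) ^ nf z j) ^ M)⁻¹ := by
          rw [Finset.prod_mul_distrib, Finset.prod_const, Finset.card_univ, Fintype.card_fin,
            Finset.prod_inv_distrib, Finset.prod_pow]
  calc ∑' z : NZ (d + 1), ENNReal.ofReal (∏ j, ((1 + |L z.1 j|) ^ M)⁻¹)
      ≤ ∑' z : NZ (d + 1), ENNReal.ofReal (A * ((∏ j, (2:ℝ) ^ nf z j) ^ M)⁻¹) :=
        ENNReal.tsum_le_tsum fun z => ENNReal.ofReal_le_ofReal (hterm z)
    _ = ∑' n : Fin (d + 1) → ℕ, ∑' z : {z : NZ (d + 1) // nf z = n},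
          ENNReal.ofReal (A * ((∏ j, (2:ℝ) ^ n j) ^ M)⁻¹) := by
        rw [← (Equiv.sigmaFiberEquiv nf).tsum_eq, ENNReal.tsum_sigma']
        refine tsum_congr fun n => tsum_congr fun z => ?_
        have : (Equiv.sigmaFiberEquiv nf) ⟨n, z⟩ = z.1 := rfl
        rw [this, z.2]
    _ ≤ ∑' n : Fin (d + 1) → ℕ, ENNReal.ofReal (K * A * D) * ∏ j, ((2:ℝ≥0∞)⁻¹) ^ n j := by
        refine ENNReal.tsum_le_tsum fun n => ?_
        set x : ℝ := ∏ j, (2:ℝ) ^ n j with hx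
        have hx1 : 1 ≤ x := by
          rw [hx, Finset.prod_pow_eq_pow_sum]
          exact one_le_pow₀ one_le_two
        have hx0 : 0 < x := by linarith
        by_cases hn : R ≤ x
        · have h1 := ls_fiber L hR hL n (c := A * (x ^ M)⁻¹) (by positivity) hn
          refine h1.trans ?_
          have e1 : ∏ j, ((2:ℝ≥0∞)⁻¹) ^ n j = ENNReal.ofReal x⁻¹ := by
            rw [hx, ← Finset.prod_inv_distrib, ENNReal.ofReal_prod_of_nonneg (fun j _ => by positivity)]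
            refine Finset.prod_congr rfl fun j _ => ?_
            rw [← inv_pow, ENNReal.ofReal_pow (by positivity), ENNReal.ofReal_inv_of_pos two_pos]
            simp
          rw [e1, ← ENNReal.ofReal_mul (by positivity)]
          apply ENNReal.ofReal_le_ofReal
          have h2 := ls_pow hM hx1 hn
          calc K * x / R * (A * (x ^ M)⁻¹) = K * A * R⁻¹ * (x * (x ^ M)⁻¹) := by
                rw [div_eq_mul_inv]; ring
            _ ≤ K * A * R⁻¹ * (((max 1 R) ^ (M - 2))⁻¹ * x⁻¹) :=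
                mul_le_mul_of_nonneg_left h2 (by positivity)
            _ = K * A * D * x⁻¹ := by rw [hD]; ring
        · have : IsEmpty {z : NZ (d + 1) // nf z = n} := by
            refine ⟨fun z => hn ?_⟩
            refine (hL z.1.1 z.1.2).trans ?_
            rw [hx]
            refine Finset.prod_le_prod (fun j _ => abs_nonneg _) fun j _ => ?_
            have h1 := lsNu_lt (L z.1.1 j)
            have h2 : lsNu (L z.1.1 j) = n j := congrFun z.2 j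
            rw [h2] at h1
            exact h1.le
          rw [tsum_empty]
          exact zero_le
    _ = ENNReal.ofReal (K * A * 2 ^ (d + 1) * D) := by
        rw [ENNReal.tsum_mul_left, ls_geom,
          show K * A * 2 ^ (d + 1) * D = K * A * D * 2 ^ (d + 1) by ring,
          ENNReal.ofReal_mul (p := K * A * D) (by positivity), ENNReal.ofReal_pow (by norm_num)]
        simp

end Pool.Agent.Lib.P51n0
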