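import Pool.Agent.Lib.P51n0.Defs

/-!
Module NuBeta of MP_51a855_an (part 0).

Proof. `nu`: `ν = volume.withDensity (fun t => ENNReal.ofReal (φ t))`; `∫ G dν = ∫ φ G dt`, so the
Fourier transform of `ν` at `t` is `hatB φ (-t)`.
`beta`: `β(t) = ∫_{u ∈ [-π,π]} φ(t-u) du` (continuous, `0 ≤ β ≤ 1`, zero outside
`[-π-1, π+1]`). Fubini (everything is continuous with compact support):
`hatB β x = hatB φ x * ∫_{u ∈ [-π,π]} e^{-ixu} du`; the last factor has norm at most `2π`, is `2π` at
`x = 0`, and is `0` at the nonzero integers. The constant may be changed (`C' = 2π C + 1` or so;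
`C ≥ 0` follows from the decay at a point).
-/

set_option autoImplicit false

open MeasureTheory
open scoped ENNReal NNReal

noncomputable section

namespace Pool.Agent.Lib.P51n0

open Pool.Agent.Lib.P51a855

variable {d : ℕ}

lemma Phi.hcs {M : ℕ} {C : ℝ} {φ : ℝ → ℝ} (h : Phi M C φ) : HasCompactSupport φ := by
  refine HasCompactSupport.intro (isCompact_Icc : IsCompact (Set.Icc (-1 : ℝ) 1)) fun x hx => ?_
  refine h.supp x ?_
  by_contra hc
  exact hx (abs_le.mp (not_lt.mp hc))

lemma Phi.integrable {M : ℕ} {C : ℝ} {φ : ℝ → ℝ} (h : Phi M C φ) : Integrable φ :=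
  h.cont.integrable_of_hasCompactSupport h.hcs

theorem nu_of_phi {M : ℕ} {C : ℝ} {φ : ℝ → ℝ} (h : Phi M C φ) :
    ∃ ν : Measure ℝ, Nu M C ν := by
  have hm : Measurable fun t => ENNReal.ofReal (φ t) := h.cont.measurable.ennreal_ofReal
  refine ⟨volume.withDensity (fun t => ENNReal.ofReal (φ t)), ?_, ?_, ?_⟩
  · refine ⟨?_⟩
    rw [withDensity_apply _ MeasurableSet.univ, Measure.restrict_univ,
      ← ofReal_integral_eq_lintegral_ofReal h.integrable (Filter.Eventually.of_forall h.nonneg),
      h.int, ENNReal.ofReal_one]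
  · rw [ae_withDensity_iff hm]
    refine Filter.Eventually.of_forall fun t ht => ?_
    by_contra hc
    exact ht (by rw [h.supp t (not_le.mp hc), ENNReal.ofReal_zero])
  · intro t
    rw [integral_withDensity_eq_integral_toReal_smul hm
      (Filter.Eventually.of_forall fun _ => ENNReal.ofReal_lt_top)]
    have h1 : ∫ y, (ENNReal.ofReal (φ y)).toReal • Complex.exp (t * y * Complex.I) =
        hatB φ (-t) := by
      unfold hatB
      refine integral_congr_ae (Filter.Eventually.of_forall fun y => ?_)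
      show (ENNReal.ofReal (φ y)).toReal • Complex.exp (t * y * Complex.I) =
        (φ y : ℂ) * Complex.exp (-(((-t : ℝ) : ℂ) * y * Complex.I))
      rw [ENNReal.toReal_ofReal (h.nonneg y), Complex.real_smul]
      congr 2
      push_cast
      ring
    rw [h1]
    have h2 := h.decay (-t)
    rwa [abs_neg] at h2

/-- the Fourier transform of the indicator of `[-π, π]` -/
def kerI (x : ℝ) : ℂ := ∫ u in (-Real.pi)..Real.pi, Complex.exp (-(x * u * Complex.I))

lemma norm_kerI_le (x : ℝ) : ‖kerI x‖ ≤ 2 * Real.pi := by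
  unfold kerI
  have h := intervalIntegral.norm_integral_le_of_norm_le_const (a := -Real.pi) (b := Real.pi)
    (C := 1) (f := fun u : ℝ => Complex.exp (-(x * u * Complex.I))) (fun u _ => by
      rw [show -((x : ℂ) * u * Complex.I) = ((-(x * u) : ℝ) : ℂ) * Complex.I by push_cast; ring,
        Complex.norm_exp_ofReal_mul_I])
  refine h.trans (le_of_eq ?_)
  rw [one_mul, abs_of_nonneg (by linarith [Real.pi_pos])]
  ring

lemma kerI_zero : kerI 0 = 2 * Real.pi := by
  unfold kerI
  have : (fun u : ℝ => Complex.exp (-(((0 : ℝ) : ℂ) * u * Complex.I))) = fun _ => 1 := by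
    funext u
    simp
  rw [this, intervalIntegral.integral_const, Complex.real_smul, mul_one]
  push_cast
  ring

lemma kerI_int (k : ℤ) (hk : k ≠ 0) : kerI k = 0 := by
  unfold kerI
  have hc : -((k : ℂ) * Complex.I) ≠ 0 := by
    rw [neg_ne_zero]
    exact mul_ne_zero (by exact_mod_cast hk) Complex.I_ne_zero
  have h1 : (fun u : ℝ => Complex.exp (-((((k : ℤ) : ℝ) : ℂ) * u * Complex.I))) =
      fun u : ℝ => Complex.exp (-((k : ℂ) * Complex.I) * u) := by
    funext u
    congr 1
    push_cast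
    ring
  rw [h1, integral_exp_mul_complex hc]
  have h2 : Complex.exp (-((k : ℂ) * Complex.I) * (Real.pi : ℝ)) =
      Complex.exp (-((k : ℂ) * Complex.I) * ((-Real.pi : ℝ) : ℂ)) := by
    rw [Complex.exp_eq_exp_iff_exists_int]
    refine ⟨-k, ?_⟩
    push_cast
    ring
  rw [h2, sub_self, zero_div]

/-- the function `β` -/
def bet (φ : ℝ → ℝ) (t : ℝ) : ℝ := ∫ u in (-Real.pi)..Real.pi, φ (t - u)

lemma continuous_bet {φ : ℝ → ℝ} (hφ : Continuous φ) : Continuous (bet φ) := by
  unfold bet
  exact intervalIntegral.continuous_parametric_intervalIntegral_of_continuous' (by fun_prop) _ _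

lemma bet_supp {M : ℕ} {C : ℝ} {φ : ℝ → ℝ} (h : Phi M C φ) : HasCompactSupport (bet φ) := by
  refine HasCompactSupport.intro
    (isCompact_Icc : IsCompact (Set.Icc (-(Real.pi + 1)) (Real.pi + 1))) fun t ht => ?_
  have ht' : Real.pi + 1 < |t| := by
    by_contra hc
    exact ht (abs_le.mp (not_lt.mp hc))
  unfold bet
  have h0 : ∀ u ∈ Set.uIcc (-Real.pi) Real.pi, φ (t - u) = 0 := by
    intro u hu
    rw [Set.uIcc_of_le (by linarith [Real.pi_pos])] at hu
    refine h.supp _ ?_
    have h1 : |u| ≤ Real.pi := abs_le.mpr hu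
    have h2 : |t| ≤ |t - u| + |u| := by
      have := abs_add_le (t - u) u
      rwa [sub_add_cancel] at this
    linarith
  rw [intervalIntegral.integral_congr h0]
  simp

lemma hatB_bet {M : ℕ} {C : ℝ} {φ : ℝ → ℝ} (h : Phi M C φ) (x : ℝ) :
    hatB (bet φ) x = kerI x * hatB φ x := by
  have hpi : -Real.pi ≤ Real.pi := by linarith [Real.pi_pos]
  set F : ℝ → ℂ := Set.indicator (Set.Ioc (-Real.pi) Real.pi)
    (fun u : ℝ => Complex.exp (-(x * u * Complex.I))) with hF
  set G : ℝ → ℂ := fun s => (φ s : ℂ) * Complex.exp (-(x * s * Complex.I)) with hG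
  have hFi : Integrable F := by
    rw [hF, integrable_indicator_iff measurableSet_Ioc]
    refine Continuous.integrableOn_Ioc ?_
    fun_prop
  have hGi : Integrable G := by
    refine Continuous.integrable_of_hasCompactSupport ?_ ?_
    · have := h.cont
      fun_prop
    · have h1 : HasCompactSupport fun s => (φ s : ℂ) :=
        h.hcs.comp_left (g := fun r : ℝ => (r : ℂ)) Complex.ofReal_zero
      exact h1.mul_right
  have h1 := integral_convolution (μ := (volume : Measure ℝ)) (ν := (volume : Measure ℝ))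
    (L := ContinuousLinearMap.mul ℝ ℂ) hFi hGi
  have h2 : ∫ u, F u = kerI x := by
    rw [hF, integral_indicator measurableSet_Ioc]
    unfold kerI
    rw [intervalIntegral.integral_of_le hpi]
  have h3 : (ContinuousLinearMap.mul ℝ ℂ) (∫ u, F u) (∫ s, G s) = kerI x * hatB φ x := by
    rw [ContinuousLinearMap.mul_apply', h2]
    rfl
  rw [h3] at h1
  rw [← h1]
  unfold hatB
  refine integral_congr_ae (Filter.Eventually.of_forall fun t => ?_)
  show (bet φ t : ℂ) * Complex.exp (-(x * t * Complex.I)) =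
    MeasureTheory.convolution F G (ContinuousLinearMap.mul ℝ ℂ) volume t
  unfold MeasureTheory.convolution
  have h4 : (fun u => (ContinuousLinearMap.mul ℝ ℂ) (F u) (G (t - u))) =
      Set.indicator (Set.Ioc (-Real.pi) Real.pi)
        (fun u : ℝ => ((φ (t - u) : ℝ) : ℂ) * Complex.exp (-(x * t * Complex.I))) := by
    funext u
    rw [ContinuousLinearMap.mul_apply']
    by_cases hu : u ∈ Set.Ioc (-Real.pi) Real.pi
    · rw [hF, Set.indicator_of_mem hu, Set.indicator_of_mem hu, hG]
      beta_reduce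
      rw [← mul_assoc, mul_comm (Complex.exp _) ((φ (t - u) : ℝ) : ℂ), mul_assoc,
        ← Complex.exp_add]
      congr 2
      push_cast
      ring
    · rw [hF, Set.indicator_of_notMem hu, Set.indicator_of_notMem hu, zero_mul]
  rw [h4, integral_indicator measurableSet_Ioc, integral_mul_const]
  congr 1
  unfold bet
  rw [intervalIntegral.integral_of_le hpi]
  exact (integral_ofReal).symm

theorem beta_of_phi {M : ℕ} {C : ℝ} {φ : ℝ → ℝ} (h : Phi M C φ) :
    ∃ (C' : ℝ) (β : ℝ → ℝ), Beta M C' β := by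
  have hc := continuous_bet h.cont
  have hs := bet_supp h
  obtain ⟨C₁, hC₁⟩ := hc.bounded_above_of_compact_support hs
  have hφ0 : hatB φ 0 = 1 := by
    unfold hatB
    have h1 : (fun t : ℝ => (φ t : ℂ) * Complex.exp (-(((0 : ℝ) : ℂ) * t * Complex.I))) =
        fun t => (φ t : ℂ) := by
      funext t
      simp
    have h2 : ∫ t, (φ t : ℂ) = ((∫ t, φ t : ℝ) : ℂ) := integral_ofReal
    rw [h1, h2, h.int, Complex.ofReal_one]
  refine ⟨max C₁ (2 * Real.pi * C), bet φ, ⟨hc, hs, ?_, ?_, ?_, ?_⟩⟩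
  · intro t
    exact (hC₁ t).trans (le_max_left _ _)
  · rw [hatB_bet h, kerI_zero, hφ0, mul_one]
  · intro k hk
    rw [hatB_bet h, kerI_int k hk, zero_mul]
  · intro x
    rw [hatB_bet h, norm_mul]
    have h1 : 0 ≤ ((1 + |x|) ^ M)⁻¹ := by positivity
    calc ‖kerI x‖ * ‖hatB φ x‖ ≤ (2 * Real.pi) * (C * ((1 + |x|) ^ M)⁻¹) :=
          mul_le_mul (norm_kerI_le x) (h.decay x) (norm_nonneg _) (by positivity)
      _ = (2 * Real.pi * C) * ((1 + |x|) ^ M)⁻¹ := by ring
      _ ≤ max C₁ (2 * Real.pi * C) * ((1 + |x|) ^ M)⁻¹ :=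
          mul_le_mul_of_nonneg_right (le_max_right _ _) h1

end Pool.Agent.Lib.P51n0
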