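import Pool.Agent.Lib.P51n0.Defs
import Pool.Agent.Lib.Pd7404b.PoissonPi

/-!
Module Poisson of MP_51a855_an (part 0): Poisson summation for a lattice in `ℝ^d`.

Proof. Let `G(y) = (∏ β(y_j)) e^{i k·y}` and `H(x) = G(Ax)`, continuous with compact support on `ℝ^d`
(`A` is invertible: `Bᵀ A = 2π`). Let `P(x) = ∑_{z ∈ ℤ^d} H(x + z)`, a locally finite sum,
continuous and `ℤ^d`-periodic; it defines a continuous function on the unit torus
`UnitAddTorus (Fin d)`. Its Fourier coefficients are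
`∫_{[0,1]^d} P(x) e^{-2πi n·x} dx = ∫_{ℝ^d} H(x) e^{-2πi n·x} dx` (unfolding: the sum is finite on the
unit cube), which by the linear change of variables `y = Ax` equals
`|det A|⁻¹ ∫ G(y) e^{-2πi n·A⁻¹y} dy = |det A|⁻¹ ∫ (∏ β(y_j)) e^{i(k - Bn)·y} dy`
`= |det A|⁻¹ ∏_j hatB β ((Bn)_j - k_j)`, because `2π n·A⁻¹ y = (Bn)·y`
(`integral_fintype_prod_eq_prod` for the product). These are summable by `hsum`, so
`UnitAddTorus.hasSum_mFourier_series_apply_of_summable` at the point `0` gives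
`∑_z H(z) = P(0) = ∑_n |det A|⁻¹ ∏_j hatB β ((Bn)_j - k_j)`.
-/

set_option autoImplicit false

open MeasureTheory
open scoped ENNReal NNReal

noncomputable section

namespace Pool.Agent.Lib.P51n0

open Pool.Agent.Lib.P51a855

variable {d : ℕ}

namespace PoissonAux

open Pool.Agent.Lib.Pd7404b (toR poisson_pi)

/-- the function on the space of the variables `y` -/
def gg (β : ℝ → ℝ) (k : Fin d → ℝ) (y : Fin d → ℝ) : ℂ :=
  ((∏ j, β (y j) : ℝ) : ℂ) * Complex.exp (((∑ j, k j * y j : ℝ) : ℂ) * Complex.I)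

lemma gg_cont {β : ℝ → ℝ} (hc : Continuous β) (k : Fin d → ℝ) : Continuous (gg β k) := by
  unfold gg
  have h1 : Continuous fun y : Fin d → ℝ => ∏ j, β (y j) :=
    continuous_finsetProd _ fun j _ => hc.comp (continuous_apply j)
  exact (Complex.continuous_ofReal.comp h1).mul (by fun_prop)

lemma gg_bd {β : ℝ → ℝ} (hs : HasCompactSupport β) (k : Fin d → ℝ) :
    ∃ R : ℝ, 0 ≤ R ∧ ∀ y : Fin d → ℝ, gg β k y ≠ 0 → ‖y‖ ≤ R := by
  obtain ⟨R, hR⟩ := hs.isCompact.isBounded.exists_norm_le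
  refine ⟨max R 0, le_max_right _ _, fun y hy => ?_⟩
  rw [pi_norm_le_iff_of_nonneg (le_max_right _ _)]
  intro j
  refine le_max_of_le_left (hR _ ?_)
  by_contra hj
  apply hy
  unfold gg
  rw [Finset.prod_eq_zero (Finset.mem_univ j) (image_eq_zero_of_notMem_tsupport (f := β) hj)]
  simp

/-- the linear homeomorphism -/
def LA (A : Matrix (Fin d) (Fin d) ℝ) (hA : A.det ≠ 0) : (Fin d → ℝ) ≃L[ℝ] (Fin d → ℝ) :=
  (Matrix.toLinearEquiv' A (Matrix.invertibleOfIsUnitDet A (isUnit_iff_ne_zero.2 hA))).toContinuousLinearEquiv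

lemma LA_apply (A : Matrix (Fin d) (Fin d) ℝ) (hA : A.det ≠ 0) (x : Fin d → ℝ) :
    LA A hA x = A.mulVec x := rfl

lemma LA_bd (A : Matrix (Fin d) (Fin d) ℝ) (hA : A.det ≠ 0) :
    ∃ C : ℝ, 0 ≤ C ∧ ∀ x : Fin d → ℝ, ‖x‖ ≤ C * ‖A.mulVec x‖ := by
  refine ⟨‖((LA A hA).symm : (Fin d → ℝ) →L[ℝ] (Fin d → ℝ))‖, norm_nonneg _, fun x => ?_⟩
  have h := ((LA A hA).symm : (Fin d → ℝ) →L[ℝ] (Fin d → ℝ)).le_opNorm (A.mulVec x)
  rw [← LA_apply A hA x] at h ⊢
  simpa using h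

lemma fin_int (R : ℝ) : {m : Fin d → ℤ | ‖toR m‖ ≤ R}.Finite := by
  have h1 : (Set.univ.pi fun _ : Fin d => (Set.Icc (-⌈R⌉) ⌈R⌉ : Set ℤ)).Finite :=
    Set.Finite.pi fun _ => Set.finite_Icc _ _
  refine h1.subset fun m hm => ?_
  intro j _
  have h2 : ‖toR m j‖ ≤ R := (norm_le_pi_norm _ j).trans hm
  rw [Pool.Agent.Lib.Pd7404b.toR_apply, Real.norm_eq_abs, abs_le] at h2
  have h3 := Int.le_ceil R
  constructor
  · have : -(⌈R⌉ : ℝ) ≤ m j := by linarith [h2.1]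
    exact_mod_cast this
  · have : (m j : ℝ) ≤ ⌈R⌉ := by linarith [h2.2]
    exact_mod_cast this

lemma cont_periodization {H : (Fin d → ℝ) → ℂ} (hH : Continuous H) {R : ℝ}
    (hR : ∀ x, H x ≠ 0 → ‖x‖ ≤ R) : Continuous fun t => ∑' m : Fin d → ℤ, H (t + toR m) := by
  have hfin : ∀ t : Fin d → ℝ, {m : Fin d → ℤ | H (t + toR m) ≠ 0} ⊆
      {m | ‖toR m‖ ≤ R + ‖t‖} := by
    intro t m hm
    have h1 := hR _ hm
    have h2 : toR m = (t + toR m) - t := by abel
    calc ‖toR m‖ = ‖(t + toR m) - t‖ := by rw [← h2]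
      _ ≤ ‖t + toR m‖ + ‖t‖ := norm_sub_le _ _
      _ ≤ R + ‖t‖ := by linarith
  have e : (fun t => ∑' m : Fin d → ℤ, H (t + toR m)) =
      fun t => ∑ᶠ m : Fin d → ℤ, H (t + toR m) := by
    funext t
    exact tsum_eq_finsum ((fin_int _).subset (hfin t))
  rw [e]
  refine continuous_finsum (fun m => hH.comp (continuous_id.add continuous_const)) ?_
  intro t
  refine ⟨Metric.ball t 1, Metric.ball_mem_nhds t one_pos, ?_⟩
  refine (fin_int (R + (‖t‖ + 1))).subset ?_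
  rintro m ⟨x, hx1, hx2⟩
  have h1 : ‖toR m‖ ≤ R + ‖x‖ := hfin x hx1
  have h2 : ‖x‖ ≤ ‖t‖ + 1 := by
    have h3 : ‖x - t‖ < 1 := by rwa [← dist_eq_norm]
    calc ‖x‖ = ‖(x - t) + t‖ := by rw [sub_add_cancel]
      _ ≤ ‖x - t‖ + ‖t‖ := norm_add_le _ _
      _ ≤ ‖t‖ + 1 := by linarith
  exact h1.trans (by linarith)

lemma coef {β : ℝ → ℝ} (A B : Matrix (Fin d) (Fin d) ℝ)
    (hAB : B.transpose * A = (2 * Real.pi) • 1) (hA : A.det ≠ 0) (hc : Continuous β)
    (k : Fin d → ℝ) (n : Fin d → ℤ) :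
    ∫ t, Pool.Agent.Lib.Pd7404b.chi (-n) t * gg β k (A.mulVec t) = ((|A.det|⁻¹ : ℝ) : ℂ) *
      ∏ j, hatB β (B.mulVec (fun i => (n i : ℝ)) j - k j) := by
  set F : (Fin d → ℝ) → ℂ := fun y => ∏ j, ((β (y j) : ℂ) *
    Complex.exp (-(((B.mulVec (fun i => (n i : ℝ)) j - k j : ℝ) : ℂ) * y j * Complex.I))) with hF
  have e1 : ∀ t : Fin d → ℝ, Pool.Agent.Lib.Pd7404b.chi (-n) t * gg β k (A.mulVec t) = F (Matrix.toLin' A t) := by
    intro t
    rw [Matrix.toLin'_apply]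
    have e2 : 2 * Real.pi * ∑ i, (n i : ℝ) * t i =
        ∑ j, B.mulVec (fun i => (n i : ℝ)) j * A.mulVec t j := by
      have h1 : B.mulVec (fun i => (n i : ℝ)) ⬝ᵥ A.mulVec t =
          (fun i => (n i : ℝ)) ⬝ᵥ (B.transpose * A).mulVec t := by
        rw [← Matrix.mulVec_mulVec, Matrix.dotProduct_mulVec _ B.transpose,
          Matrix.vecMul_transpose]
      rw [hAB, Matrix.smul_mulVec, Matrix.one_mulVec, dotProduct_smul] at h1
      simp only [dotProduct, smul_eq_mul] at h1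
      exact h1.symm
    simp only [hF, gg, Pool.Agent.Lib.Pd7404b.chi, Finset.prod_mul_distrib, Complex.ofReal_prod]
    rw [← Complex.exp_sum, mul_left_comm, ← Complex.exp_add]
    congr 2
    have e3 := congrArg (fun r : ℝ => (r : ℂ)) e2
    push_cast at e3
    have e4 : (2 * Real.pi * Complex.I * ∑ i, (((-n) i : ℤ) : ℂ) * (t i : ℂ)) =
        - ((2 * Real.pi * ∑ i, (n i : ℂ) * (t i : ℂ)) * Complex.I) := by
      simp only [Pi.neg_apply, Int.cast_neg, neg_mul, Finset.sum_neg_distrib]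
      ring
    rw [e4, e3]
    push_cast
    rw [Finset.sum_neg_distrib, ← Finset.sum_mul]
    simp only [sub_mul, Finset.sum_sub_distrib]
    ring
  simp only [e1]
  have hmap := Real.map_matrix_volume_pi_eq_smul_volume_pi hA
  have hFc : Continuous F := by
    rw [hF]
    refine continuous_finsetProd _ fun j _ => ?_
    exact (Complex.continuous_ofReal.comp (hc.comp (continuous_apply j))).mul (by fun_prop)
  have h2 : ∫ t, F (Matrix.toLin' A t) = ∫ y, F y ∂(Measure.map (Matrix.toLin' A) volume) := by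
    rw [integral_map]
    · exact (LinearMap.continuous_of_finiteDimensional (Matrix.toLin' A)).measurable.aemeasurable
    · exact hFc.aestronglyMeasurable
  rw [h2, hmap, integral_smul_measure, ENNReal.toReal_ofReal (abs_nonneg _), abs_inv,
    Complex.real_smul]
  congr 1
  rw [hF, integral_fintype_prod_volume_eq_prod (f := fun j (y : ℝ) => (β y : ℂ) *
    Complex.exp (-(((B.mulVec (fun i => (n i : ℝ)) j - k j : ℝ) : ℂ) * y * Complex.I)))]
  rfl

end PoissonAux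

open PoissonAux in
theorem poisson {β : ℝ → ℝ} (hc : Continuous β) (hs : HasCompactSupport β)
    (A B : Matrix (Fin d) (Fin d) ℝ) (hAB : B.transpose * A = (2 * Real.pi) • 1) (k : Fin d → ℝ)
    (hsum : Summable fun z : Fin d → ℤ =>
      ‖∏ j, hatB β (B.mulVec (fun i => (z i : ℝ)) j - k j)‖) :
    ((|A.det| : ℝ) : ℂ) * ∑' z : Fin d → ℤ, ((∏ j, β (A.mulVec (fun i => (z i : ℝ)) j) : ℝ) : ℂ) *
        Complex.exp (((∑ j, k j * A.mulVec (fun i => (z i : ℝ)) j : ℝ) : ℂ) * Complex.I) =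
      ∑' z : Fin d → ℤ, ∏ j, hatB β (B.mulVec (fun i => (z i : ℝ)) j - k j) := by
  have hA : A.det ≠ 0 := by
    intro h0
    have h1 := congrArg Matrix.det hAB
    rw [Matrix.det_mul, h0, mul_zero, Matrix.det_smul, Matrix.det_one, mul_one] at h1
    exact (pow_ne_zero _ (by positivity)) h1.symm
  set H : (Fin d → ℝ) → ℂ := fun x => gg β k (A.mulVec x) with hH
  have hHc : Continuous H := (gg_cont hc k).comp (by fun_prop)
  obtain ⟨R, hR0, hR⟩ := gg_bd hs k
  obtain ⟨C, hC0, hC⟩ := LA_bd A hA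
  have hHR : ∀ x, H x ≠ 0 → ‖x‖ ≤ C * R := fun x hx =>
    (hC x).trans (mul_le_mul_of_nonneg_left (hR _ hx) hC0)
  have hHs : HasCompactSupport H := by
    refine HasCompactSupport.intro (isCompact_closedBall (0 : Fin d → ℝ) (C * R)) fun x hx => ?_
    by_contra h
    exact hx (by simpa using hHR x h)
  have hHi : Integrable H := hHc.integrable_of_hasCompactSupport hHs
  have hcoef := coef (β := β) A B hAB hA hc k
  have hsum' : Summable fun n : Fin d → ℤ =>
      ∫ t, Pool.Agent.Lib.Pd7404b.chi (-n) t * H t := by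
    simp only [hH, hcoef]
    exact (Summable.of_norm hsum).mul_left _
  have hmain := Pool.Agent.Lib.Pd7404b.poisson_pi hHi (cont_periodization hHc hHR) hsum' 0
  have h3 := hmain.tsum_eq
  have hchi0 : ∀ n : Fin d → ℤ, Pool.Agent.Lib.Pd7404b.chi n 0 = 1 := by
    intro n
    unfold Pool.Agent.Lib.Pd7404b.chi
    simp
  simp only [hchi0, mul_one, hH, hcoef, zero_add] at h3
  rw [tsum_mul_left] at h3
  have hdet : ((|A.det| : ℝ) : ℂ) ≠ 0 := by
    exact_mod_cast (abs_pos.2 hA).ne'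
  have h4 : ∑' z : Fin d → ℤ, ((∏ j, β (A.mulVec (fun i => (z i : ℝ)) j) : ℝ) : ℂ) *
        Complex.exp (((∑ j, k j * A.mulVec (fun i => (z i : ℝ)) j : ℝ) : ℂ) * Complex.I) =
      ∑' m : Fin d → ℤ, gg β k (A.mulVec (Pool.Agent.Lib.Pd7404b.toR m)) := rfl
  rw [h4, ← h3, ← mul_assoc]
  push_cast
  rw [mul_inv_cancel₀ hdet, one_mul]

end Pool.Agent.Lib.P51n0
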