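import Pool.Agent.Lib.P51n0.Schur
import Pool.Agent.Lib.P51n0.LatSum
import Pool.Agent.Lib.P51n0.ExPhi
import Pool.Agent.Lib.P51n0.NuBeta
import Pool.Agent.Lib.P51n0.Poisson

/-!
Module Form of MP_51a855_an (part 0): Frolov's cubature formula on the torus. (All imports are
black boxes.)

Proof. Take `β` with `Beta M C β` (`exists_phi`, `beta_of_phi`) and `ξ` from `schur`. Let
`V_{ji} = ξ_j^i` (Vandermonde, `det V ≠ 0` as `ξ` is injective), for `T ≥ 1` let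
`B = T^(1/d) V`, `L z = B z` (`mulVec`), so `∏_j |L z j| = T ∏_j |(Vz)_j| ≥ T` for `z ≠ 0`, and
`A = 2π (Bᵀ)⁻¹ = T^(-1/d) A_1`, `A_1 = 2π (Vᵀ)⁻¹`, `|det A| = |det A_1| / T`.
Nodes and weights: for integer vectors `z` in the box `|z_i| ≤ N = ⌊c T^(1/d)⌋`, node `A z mod 2π`,
weight `(2π)^(-d) |det A| ∏_j β((Az)_j)`. Here `c` is such that `∏_j β((Az)_j) ≠ 0` implies
`|z_i| ≤ c T^(1/d)`: `z = A⁻¹ (Az) = T^(1/d) A_1⁻¹ (Az)` and `|(Az)_j| ≤ a` on the support of `β`.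
The number of nodes is `(2N+1)^d ≤ ((2c+1) T^(1/d))^d ≤ C₀ T`; the sum of the absolute values of the
weights is at most `(2N+1)^d (2π)^(-d) |det A_1| T⁻¹ C^d ≤ C'`.
(Enumerate the box by `Fin n`, e.g. `Finset.equivFin`.)
For integer `k`, `eC k (A z mod 2π) = exp (i k·Az)`, so by `poisson` (the sum over all `z` reduces
to the box) `∑_μ w_μ eC k (ξ_μ) = (2π)^(-d) ∑_z ∏_j hatB β ((Bz)_j - k_j)`, and the term `z = 0` is
`(2π)^(-d) ∏_j hatB β (-k_j) = 1` if `k = 0`, else `0` (`Beta.zero`, `Beta.int`). The other terms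
are at most `C^d ∏_j ((1 + |L z j - k_j|)^M)⁻¹`.
Summability (`hsum`): `1 + |L z j| ≤ (1 + |L z j - k_j|)(1 + |k_j|)`, so
`∏_j ((1 + |L z j - k_j|)^M)⁻¹ ≤ ∏_j (1 + |k_j|)^M ∏_j ((1 + |L z j|)^M)⁻¹`, and the sum of the
latter over `z ≠ 0` is finite by `lat_sum`.
-/

set_option autoImplicit false

open MeasureTheory
open scoped ENNReal NNReal

noncomputable section

namespace Pool.Agent.Lib.P51n0

open Pool.Agent.Lib.P51a855

variable {d : ℕ}

namespace FormAux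

theorem tsum_nz (F : (Fin d → ℤ) → ℝ≥0∞) :
    ∑' z : NZ d, F z.1 = ∑' z, if z = 0 then 0 else F z := by
  have h := tsum_subtype {z : Fin d → ℤ | z ≠ 0} F
  refine Eq.trans h (tsum_congr fun z => ?_)
  by_cases hz : z = 0
  · simp [hz]
  · simp [hz]

theorem tsum_split (F : (Fin d → ℤ) → ℝ≥0∞) : ∑' z, F z = F 0 + ∑' z : NZ d, F z.1 := by
  rw [ENNReal.tsum_eq_add_tsum_ite 0, tsum_nz]
  congr 1
  refine tsum_congr fun z => ?_
  by_cases hz : z = 0
  · rw [if_pos hz, if_pos hz]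
  · rw [if_neg hz, if_neg hz]

theorem split_bound {f : (Fin d → ℤ) → ℂ} (hf : ∑' z : NZ d, ‖f z.1‖ₑ ≠ ∞) :
    (Summable fun z => ‖f z‖) ∧ ‖∑' z, f z - f 0‖ₑ ≤ ∑' z : NZ d, ‖f z.1‖ₑ := by
  have hs : Summable fun z => ‖f z‖ := by
    have h1 : ∑' z, ‖f z‖ₑ ≠ ∞ := by
      rw [tsum_split fun z => ‖f z‖ₑ]
      exact ENNReal.add_ne_top.2 ⟨enorm_ne_top, hf⟩
    have h2 := ENNReal.summable_toReal h1
    simpa only [toReal_enorm] using h2
  refine ⟨hs, ?_⟩
  rw [hs.of_norm.tsum_eq_add_tsum_ite 0, add_sub_cancel_left, tsum_nz fun z => ‖f z‖ₑ]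
  refine enorm_tsum_le_tsum_enorm.trans (le_of_eq (tsum_congr fun z => ?_))
  by_cases hz : z = 0
  · simp [hz]
  · simp [hz]

/-- the node of an integer vector -/
def node (A : Matrix (Fin d) (Fin d) ℝ) (z : Fin d → ℤ) : Torus d :=
  fun j => ((A.mulVec (fun i => (z i : ℝ)) j : ℝ) : Circ)

theorem eC_node (A : Matrix (Fin d) (Fin d) ℝ) (z k : Fin d → ℤ) :
    eC k (node A z) = Complex.exp (((∑ j, (k j : ℝ) * A.mulVec (fun i => (z i : ℝ)) j : ℝ) : ℂ) *
      Complex.I) := by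
  unfold eC node
  rw [Complex.ofReal_sum, Finset.sum_mul, Complex.exp_sum]
  refine Finset.prod_congr rfl fun j _ => ?_
  rw [fourier_coe_apply]
  congr 1
  have : (Real.pi : ℂ) ≠ 0 := by exact_mod_cast Real.pi_ne_zero
  push_cast
  field_simp

theorem shift_le (M : ℕ) (x k : ℝ) :
    ((1 + |x - k|) ^ M)⁻¹ ≤ (1 + |k|) ^ M * ((1 + |x|) ^ M)⁻¹ := by
  have h1 : 0 < 1 + |x - k| := by positivity
  have h2 : 0 < 1 + |x| := by positivity
  rw [inv_le_iff_one_le_mul₀ (by positivity), mul_right_comm, ← div_eq_mul_inv,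
    le_div_iff₀ (by positivity), one_mul, ← mul_pow]
  apply pow_le_pow_left₀ h2.le
  have h3 : |x| ≤ |x - k| + |k| := by
    have := abs_add_le (x - k) k
    rwa [sub_add_cancel] at this
  nlinarith [abs_nonneg (x - k), abs_nonneg k]

theorem exists_supp {β : ℝ → ℝ} (hβ : HasCompactSupport β) :
    ∃ a : ℝ, 0 ≤ a ∧ ∀ t, β t ≠ 0 → |t| ≤ a := by
  obtain ⟨a, ha⟩ := hβ.isCompact.isBounded.subset_closedBall 0
  refine ⟨|a|, abs_nonneg _, fun t ht => ?_⟩
  have h1 : t ∈ Metric.closedBall (0 : ℝ) a := ha (subset_closure ht)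
  rw [Metric.mem_closedBall, dist_zero_right, Real.norm_eq_abs] at h1
  exact h1.trans (le_abs_self a)

/-- the box of integer vectors -/
def box (d N : ℕ) : Finset (Fin d → ℤ) := Fintype.piFinset fun _ => Finset.Icc (-(N : ℤ)) N

theorem mem_box {N : ℕ} {z : Fin d → ℤ} : z ∈ box d N ↔ ∀ i, -(N : ℤ) ≤ z i ∧ z i ≤ N := by
  unfold box
  rw [Fintype.mem_piFinset]
  simp only [Finset.mem_Icc]

theorem card_box (d N : ℕ) : (box d N).card = (2 * N + 1) ^ d := by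
  unfold box
  rw [Fintype.card_piFinset, Finset.prod_const, Finset.card_univ, Fintype.card_fin, Int.card_Icc]
  congr 1
  omega

/-- the linear map of a matrix -/
def LL (B : Matrix (Fin d) (Fin d) ℝ) : (Fin d → ℤ) →+ (Fin d → ℝ) :=
  AddMonoidHom.mk' (fun z => B.mulVec (fun i => (z i : ℝ))) (by
    intro x y
    rw [← Matrix.mulVec_add]
    congr 1
    funext i
    rw [Pi.add_apply, Pi.add_apply]
    push_cast
    rfl)

theorem LL_apply (B : Matrix (Fin d) (Fin d) ℝ) (z : Fin d → ℤ) :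
    LL B z = B.mulVec (fun i => (z i : ℝ)) := rfl

theorem main (d : ℕ) (hd : 1 ≤ d) (M : ℕ) (hM : 2 ≤ M) : ∃ C₀ C : ℝ, 0 < C₀ ∧ 0 < C ∧
    ∀ T : ℝ, 1 ≤ T → ∃ (n : ℕ) (ξ : Fin n → Torus d) (w : Fin n → ℝ)
      (L : (Fin d → ℤ) →+ (Fin d → ℝ)),
      (n : ℝ) ≤ C₀ * T ∧ (∀ z, z ≠ 0 → T ≤ ∏ j, |L z j|) ∧ ∑ μ, |w μ| ≤ C ∧
      ∀ k : Fin d → ℤ,
        ENNReal.ofReal ‖∑ μ, (w μ : ℂ) * eC k (ξ μ) - (if k = 0 then 1 else 0)‖ ≤
          ENNReal.ofReal C * ∑' z : NZ d,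
            ENNReal.ofReal (∏ j, ((1 + |L z.1 j - k j|) ^ M)⁻¹) := by
  obtain ⟨Cφ, φ, hφ⟩ := exists_phi M
  obtain ⟨Cβ, β, hβ⟩ := beta_of_phi hφ
  obtain ⟨ξ, hξ, hz⟩ := schur d
  obtain ⟨Cl, hCl, hlat⟩ := lat_sum d M hM
  obtain ⟨a, ha0, ha⟩ := exists_supp hβ.supp
  have hCβ : 0 ≤ Cβ := (abs_nonneg _).trans (hβ.bound 0)
  have hπ : 0 < 2 * Real.pi := by positivity
  have hπ1 : 1 ≤ 2 * Real.pi := by linarith [Real.pi_gt_three]
  obtain ⟨V, hVdef⟩ : ∃ V, V = Matrix.vandermonde ξ := ⟨_, rfl⟩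
  have hV : V.det ≠ 0 := by
    rw [hVdef]
    exact Matrix.det_vandermonde_ne_zero_iff.2 hξ
  have hVT : IsUnit V.transpose.det := by
    rw [Matrix.det_transpose]
    exact isUnit_iff_ne_zero.2 hV
  obtain ⟨A1, hA1⟩ : ∃ A1, A1 = (2 * Real.pi) • (V.transpose)⁻¹ := ⟨_, rfl⟩
  have hVA : V.transpose * A1 = (2 * Real.pi) • 1 := by
    rw [hA1, Matrix.mul_smul, Matrix.mul_nonsing_inv _ hVT]
  obtain ⟨K, hK⟩ : ∃ K, K = a * ∑ i, ∑ j, |V j i| := ⟨_, rfl⟩
  have hK0 : 0 ≤ K := by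
    rw [hK]
    positivity
  obtain ⟨D, hD⟩ : ∃ D, D = ((2 * Real.pi) ^ d)⁻¹ * (|A1.det| * Cβ ^ d) := ⟨_, rfl⟩
  have hD0 : 0 ≤ D := by
    rw [hD]
    positivity
  refine ⟨(2 * K + 1) ^ d, (2 * K + 1) ^ d * D + Cβ ^ d + 1, by positivity, by positivity, ?_⟩
  intro T hT
  have hT0 : 0 < T := by linarith
  obtain ⟨s, hs⟩ : ∃ s, s = T ^ ((d : ℝ)⁻¹) := ⟨_, rfl⟩
  have hsd : s ^ d = T := by
    rw [hs]
    exact Real.rpow_inv_natCast_pow hT0.le (by omega)
  have hs1 : 1 ≤ s := by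
    rw [hs]
    exact Real.one_le_rpow hT (by positivity)
  have hs0 : 0 < s := by linarith
  obtain ⟨B, hB⟩ : ∃ B, B = s • V := ⟨_, rfl⟩
  obtain ⟨A, hA⟩ : ∃ A, A = s⁻¹ • A1 := ⟨_, rfl⟩
  have hAB : B.transpose * A = (2 * Real.pi) • 1 := by
    rw [hB, hA, Matrix.transpose_smul, Matrix.smul_mul, Matrix.mul_smul, smul_smul,
      mul_inv_cancel₀ hs0.ne', one_smul, hVA]
  have hdet : |A.det| = T⁻¹ * |A1.det| := by
    rw [hA, Matrix.det_smul, Fintype.card_fin, abs_mul, inv_pow, hsd, abs_inv, abs_of_pos hT0]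
  have hLV : ∀ z j, LL B z j = s * ∑ i : Fin d, (z i : ℝ) * ξ j ^ (i : ℕ) := by
    intro z j
    rw [LL_apply, hB, hVdef]
    simp only [Matrix.mulVec, dotProduct, Matrix.smul_apply, Matrix.vandermonde_apply,
      smul_eq_mul, Finset.mul_sum]
    refine Finset.sum_congr rfl fun i _ => ?_
    ring
  have hLT : ∀ z, z ≠ 0 → T ≤ ∏ j, |LL B z j| := by
    intro z hz0
    simp only [hLV, abs_mul]
    rw [Finset.prod_mul_distrib, Finset.prod_const, Finset.card_univ, Fintype.card_fin,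
      abs_of_pos hs0, hsd, ← Finset.abs_prod]
    have := hz z hz0
    nlinarith
  -- the box
  obtain ⟨N, hN⟩ : ∃ N, N = ⌊K * s⌋₊ := ⟨_, rfl⟩
  have hNK : (N : ℝ) ≤ K * s := by
    rw [hN]
    exact Nat.floor_le (by positivity)
  have hbox : ∀ z : Fin d → ℤ, z ∉ box d N → ∏ j, β (A.mulVec (fun i => (z i : ℝ)) j) = 0 := by
    intro z hzb
    by_contra hne
    apply hzb
    rw [mem_box]
    intro i
    have h1 : ∀ j, |A.mulVec (fun i => (z i : ℝ)) j| ≤ a := fun j =>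
      ha _ (Finset.prod_ne_zero_iff.1 hne j (Finset.mem_univ _))
    have h2 : 2 * Real.pi * z i = ∑ j, B j i * A.mulVec (fun i => (z i : ℝ)) j := by
      have h3 : (B.transpose.mulVec (A.mulVec (fun i => (z i : ℝ)))) i = 2 * Real.pi * z i := by
        rw [Matrix.mulVec_mulVec, hAB, Matrix.smul_mulVec, Matrix.one_mulVec]
        rfl
      rw [← h3]
      rfl
    have h4 : |2 * Real.pi * (z i : ℝ)| ≤ K * s := by
      rw [h2]
      refine (Finset.abs_sum_le_sum_abs _ _).trans ?_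
      calc ∑ j, |B j i * A.mulVec (fun i => (z i : ℝ)) j| ≤ ∑ j, s * |V j i| * a := by
            refine Finset.sum_le_sum fun j _ => ?_
            rw [abs_mul, hB, Matrix.smul_apply, smul_eq_mul, abs_mul, abs_of_pos hs0]
            exact mul_le_mul_of_nonneg_left (h1 j) (by positivity)
        _ = a * (∑ j, |V j i|) * s := by
            rw [Finset.mul_sum, Finset.sum_mul]
            exact Finset.sum_congr rfl fun j _ => by ring
        _ ≤ K * s := by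
            rw [hK]
            refine mul_le_mul_of_nonneg_right (mul_le_mul_of_nonneg_left ?_ ha0) hs0.le
            exact Finset.single_le_sum (f := fun i => ∑ j, |V j i|)
              (fun i _ => Finset.sum_nonneg fun j _ => abs_nonneg _) (Finset.mem_univ i)
    have h5 : |(z i : ℝ)| ≤ K * s := by
      rw [abs_mul, abs_of_pos hπ] at h4
      nlinarith [abs_nonneg (z i : ℝ)]
    have h6 : (z i).natAbs ≤ N := by
      rw [hN]
      apply Nat.le_floor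
      rwa [Nat.cast_natAbs, Int.cast_abs]
    omega
  have hcard : ((box d N).card : ℝ) ≤ (2 * K + 1) ^ d * T := by
    rw [card_box, ← hsd, ← mul_pow]
    push_cast
    refine pow_le_pow_left₀ (by positivity) ?_ d
    nlinarith
  obtain ⟨W, hW⟩ : ∃ W : (Fin d → ℤ) → ℝ, W = fun z => ((2 * Real.pi) ^ d)⁻¹ *
      (|A.det| * ∏ j, β (A.mulVec (fun i => (z i : ℝ)) j)) := ⟨_, rfl⟩
  have hWb : ∀ z, |W z| ≤ T⁻¹ * D := by
    intro z
    rw [hW, hD]
    dsimp only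
    rw [abs_mul, abs_mul, abs_abs, hdet, abs_of_pos (by positivity : (0:ℝ) < ((2 * Real.pi) ^ d)⁻¹),
      Finset.abs_prod]
    have h1 : ∏ j, |β (A.mulVec (fun i => (z i : ℝ)) j)| ≤ Cβ ^ d := by
      calc ∏ j, |β (A.mulVec (fun i => (z i : ℝ)) j)| ≤ ∏ _j : Fin d, Cβ :=
            Finset.prod_le_prod (fun j _ => abs_nonneg _) (fun j _ => hβ.bound _)
        _ = Cβ ^ d := by rw [Finset.prod_const, Finset.card_univ, Fintype.card_fin]
    calc ((2 * Real.pi) ^ d)⁻¹ * (T⁻¹ * |A1.det| * ∏ j, |β (A.mulVec (fun i => (z i : ℝ)) j)|)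
        ≤ ((2 * Real.pi) ^ d)⁻¹ * (T⁻¹ * |A1.det| * Cβ ^ d) := by gcongr
      _ = _ := by ring
  have hsumE : ∀ {R : Type} [AddCommMonoid R] (f : (Fin d → ℤ) → R),
      ∑ μ : Fin (box d N).card, f ((box d N).equivFin.symm μ).1 = ∑ z ∈ box d N, f z := by
    intro R _ f
    rw [Equiv.sum_comp (box d N).equivFin.symm fun z => f z.1]
    exact Finset.sum_coe_sort (box d N) f
  refine ⟨(box d N).card, fun μ => node A ((box d N).equivFin.symm μ).1,
    fun μ => W ((box d N).equivFin.symm μ).1, LL B, hcard, hLT, ?_, ?_⟩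
  · rw [hsumE fun z => |W z|]
    calc ∑ z ∈ box d N, |W z| ≤ ∑ _z ∈ box d N, T⁻¹ * D := Finset.sum_le_sum fun z _ => hWb z
      _ = (box d N).card * (T⁻¹ * D) := by rw [Finset.sum_const, nsmul_eq_mul]
      _ ≤ (2 * K + 1) ^ d * T * (T⁻¹ * D) := by gcongr
      _ = (2 * K + 1) ^ d * D := by field_simp
      _ ≤ _ := by nlinarith [pow_nonneg hCβ d]
  · intro k
    rw [hsumE fun z => (W z : ℂ) * eC k (node A z)]
    obtain ⟨f, hf⟩ : ∃ f : (Fin d → ℤ) → ℂ, f = fun z => ∏ j, hatB β (LL B z j - k j) := ⟨_, rfl⟩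
    -- bounds of the terms
    have hfb : ∀ z, ‖f z‖ ≤ Cβ ^ d * ∏ j, ((1 + |LL B z j - k j|) ^ M)⁻¹ := by
      intro z
      rw [hf]
      dsimp only
      rw [norm_prod]
      calc ∏ j, ‖hatB β (LL B z j - k j)‖ ≤ ∏ j, (Cβ * ((1 + |LL B z j - k j|) ^ M)⁻¹) :=
            Finset.prod_le_prod (fun j _ => norm_nonneg _) (fun j _ => hβ.decay _)
        _ = _ := by
            rw [Finset.prod_mul_distrib, Finset.prod_const, Finset.card_univ, Fintype.card_fin]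
    have hfe : ∀ z, ‖f z‖ₑ ≤ ENNReal.ofReal (Cβ ^ d) *
        ENNReal.ofReal (∏ j, ((1 + |LL B z j - k j|) ^ M)⁻¹) := by
      intro z
      rw [← ENNReal.ofReal_mul (by positivity), ← ofReal_norm_eq_enorm]
      exact ENNReal.ofReal_le_ofReal (hfb z)
    have hfin : ∑' z : NZ d, ENNReal.ofReal (∏ j, ((1 + |LL B z.1 j - k j|) ^ M)⁻¹) ≠ ∞ := by
      have h1 : ∑' z : NZ d, ENNReal.ofReal (∏ j, ((1 + |LL B z.1 j - k j|) ^ M)⁻¹) ≤
          ∑' z : NZ d, ENNReal.ofReal (∏ j, (1 + |(k j : ℝ)|) ^ M) *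
            ENNReal.ofReal (∏ j, ((1 + |LL B z.1 j|) ^ M)⁻¹) := by
        refine ENNReal.tsum_le_tsum fun z => ?_
        rw [← ENNReal.ofReal_mul (by positivity), ← Finset.prod_mul_distrib]
        refine ENNReal.ofReal_le_ofReal (Finset.prod_le_prod (fun j _ => by positivity) ?_)
        intro j _
        exact shift_le M _ _
      rw [ENNReal.tsum_mul_left] at h1
      refine ne_top_of_le_ne_top ?_ (h1.trans (mul_le_mul_right (hlat (LL B) T hT0 hLT) _))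
      exact ENNReal.mul_ne_top ENNReal.ofReal_ne_top ENNReal.ofReal_ne_top
    have hfin' : ∑' z : NZ d, ‖f z.1‖ₑ ≤ ENNReal.ofReal (Cβ ^ d) *
        ∑' z : NZ d, ENNReal.ofReal (∏ j, ((1 + |LL B z.1 j - k j|) ^ M)⁻¹) := by
      rw [← ENNReal.tsum_mul_left]
      exact ENNReal.tsum_le_tsum fun z => hfe z.1
    obtain ⟨hsm, hbd⟩ := split_bound (f := f)
      (ne_top_of_le_ne_top (ENNReal.mul_ne_top ENNReal.ofReal_ne_top hfin) hfin')
    -- Poisson
    have hP := poisson hβ.cont hβ.supp A B hAB (fun j => (k j : ℝ)) (by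
      rw [hf] at hsm
      exact hsm)
    have hP2 : ((|A.det| : ℝ) : ℂ) * ∑ z ∈ box d N,
        ((∏ j, β (A.mulVec (fun i => (z i : ℝ)) j) : ℝ) : ℂ) * eC k (node A z) = ∑' z, f z := by
      rw [hf]
      refine Eq.trans ?_ hP
      rw [tsum_eq_sum (s := box d N)]
      · simp only [eC_node]
      · intro z hzb
        rw [hbox z hzb, Complex.ofReal_zero, zero_mul]
    have hf0 : f 0 = (2 * Real.pi : ℂ) ^ d * (if k = 0 then 1 else 0) := by
      rw [hf]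
      dsimp only
      by_cases hk : k = 0
      · rw [if_pos hk, mul_one]
        have h1 : ∀ j : Fin d, hatB β (LL B 0 j - k j) = 2 * Real.pi := by
          intro j
          rw [map_zero, hk]
          simp only [Pi.zero_apply, Int.cast_zero, sub_zero]
          exact hβ.zero
        rw [Finset.prod_congr rfl fun j _ => h1 j, Finset.prod_const, Finset.card_univ,
          Fintype.card_fin]
      · rw [if_neg hk, mul_zero]
        obtain ⟨j, hj⟩ := Function.ne_iff.1 hk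
        refine Finset.prod_eq_zero (Finset.mem_univ j) ?_
        have := hβ.int (-(k j)) (by simpa using hj)
        rw [map_zero]
        simp only [Pi.zero_apply, zero_sub]
        exact_mod_cast this
    have hmain : ∑ z ∈ box d N, (W z : ℂ) * eC k (node A z) - (if k = 0 then 1 else 0) =
        (((2 * Real.pi) ^ d)⁻¹ : ℝ) * (∑' z, f z - f 0) := by
      rw [← hP2, hf0, mul_sub, hW]
      have hp : (2 * Real.pi : ℂ) ^ d ≠ 0 := by
        apply pow_ne_zero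
        exact_mod_cast hπ.ne'
      congr 1
      · rw [Finset.mul_sum, Finset.mul_sum]
        refine Finset.sum_congr rfl fun z _ => ?_
        push_cast
        ring
      · push_cast
        field_simp
    rw [hmain, norm_mul, ENNReal.ofReal_mul (norm_nonneg _), ofReal_norm_eq_enorm,
      ofReal_norm_eq_enorm]
    have h1 : ‖((((2 * Real.pi) ^ d)⁻¹ : ℝ) : ℂ)‖ₑ ≤ 1 := by
      rw [← ofReal_norm_eq_enorm, Complex.norm_real, Real.norm_of_nonneg (by positivity)]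
      rw [← ENNReal.ofReal_one]
      apply ENNReal.ofReal_le_ofReal
      exact inv_le_one_of_one_le₀ (one_le_pow₀ hπ1)
    calc ‖((((2 * Real.pi) ^ d)⁻¹ : ℝ) : ℂ)‖ₑ * ‖∑' z, f z - f 0‖ₑ
        ≤ 1 * (ENNReal.ofReal (Cβ ^ d) *
        ∑' z : NZ d, ENNReal.ofReal (∏ j, ((1 + |LL B z.1 j - k j|) ^ M)⁻¹)) :=
          mul_le_mul' h1 (hbd.trans hfin')
      _ ≤ _ := by
          rw [one_mul]
          gcongr
          nlinarith [mul_nonneg (pow_nonneg (by positivity : (0:ℝ) ≤ 2 * K + 1) d) hD0]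

end FormAux

open FormAux

theorem form (d : ℕ) (hd : 1 ≤ d) (M : ℕ) (hM : 2 ≤ M) : ∃ C₀ C : ℝ, 0 < C₀ ∧ 0 < C ∧
    ∀ T : ℝ, 1 ≤ T → ∃ (n : ℕ) (ξ : Fin n → Torus d) (w : Fin n → ℝ)
      (L : (Fin d → ℤ) →+ (Fin d → ℝ)),
      (n : ℝ) ≤ C₀ * T ∧ (∀ z, z ≠ 0 → T ≤ ∏ j, |L z j|) ∧ ∑ μ, |w μ| ≤ C ∧
      ∀ k : Fin d → ℤ,
        ENNReal.ofReal ‖∑ μ, (w μ : ℂ) * eC k (ξ μ) - (if k = 0 then 1 else 0)‖ ≤
          ENNReal.ofReal C * ∑' z : NZ d,
            ENNReal.ofReal (∏ j, ((1 + |L z.1 j - k j|) ^ M)⁻¹) :=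
  main d hd M hM

end Pool.Agent.Lib.P51n0
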