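import Pool.Agent.Lib.P51n0.Dense

/-!
Module Repr of MP_51a855_an (part 0): representation of functionals with summable Fourier
coefficients. (`ext_trig` is a black box.)

Proof. `Ψ(z) = ∑_k (Λ(cosT k) cosT k z + Λ(sinT k) sinT k z)`, absolutely and uniformly convergent,
`|Ψ| ≤ ∑_k (|Λ(cosT k)| + |Λ(sinT k)|) ≤ a`, continuous (`continuous_tsum`).
`Λ g = ∫ Ψ g` for `g = cosT m`, `sinT m`: orthogonality `∫ eC k (eC m)^- = [k = m]` on the torus
(`integral_prod_haarT`-type product formula, in the complex case `integral_fintype_prod_eq_prod`)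
gives `∫ cosT k cosT m = ([k=m] + [k=-m])/2`, `∫ sinT k sinT m = ([k=m] - [k=-m])/2`,
`∫ cosT k sinT m = 0`; and `cosT (-m) = cosT m`, `sinT (-m) = -sinT m` so that
`∫ Ψ cosT m = (Λ(cosT m) + Λ(cosT (-m)))/2 = Λ(cosT m)` (also for `m = 0`) and
`∫ Ψ sinT m = (Λ(sinT m) - Λ(sinT (-m)))/2 = Λ(sinT m)`.
Both sides are continuous linear functionals of `g`, so they agree by `ext_trig`.
`∫ |Ψ| ≤ ‖Λ‖`: for `ε > 0` the function `g = Ψ/(|Ψ| + ε)` is continuous, `‖g‖ ≤ 1` and
`Λ g = ∫ Ψ²/(|Ψ| + ε) ≥ ∫ |Ψ| - ε`.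
-/

set_option autoImplicit false

open MeasureTheory
open scoped ENNReal NNReal

noncomputable section

namespace Pool.Agent.Lib.P51n0

open Pool.Agent.Lib.P51a855

variable {d : ℕ}

namespace ReprAux

lemma integral_circ (k : ℤ) :
    ∫ x : Circ, (fourier k x : ℂ) ∂AddCircle.haarAddCircle = if k = 0 then 1 else 0 := by
  have h := fourierCoeff_fourier (T := 2 * Real.pi) k
  have h2 := congrFun h 0
  rw [fourierCoeff] at h2
  simp only [neg_zero, fourier_zero, one_smul] at h2
  rw [h2]
  by_cases hk : k = 0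
  · subst hk
    simp
  · rw [Pi.single_eq_of_ne (Ne.symm hk), if_neg hk]

lemma integral_eC (k : Fin d → ℤ) : ∫ x, eC k x ∂(haarT d) = if k = 0 then 1 else 0 := by
  unfold eC haarT
  rw [integral_fintype_prod_eq_prod (μ := fun _ : Fin d => (AddCircle.haarAddCircle :
    Measure Circ)) (fun j (y : Circ) => (fourier (k j) y : ℂ))]
  simp only [integral_circ]
  by_cases hk : k = 0
  · subst hk
    simp
  · rw [if_neg hk]
    obtain ⟨j, hj⟩ : ∃ j, k j ≠ 0 := by
      by_contra h
      push Not at h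
      exact hk (funext h)
    exact Finset.prod_eq_zero (Finset.mem_univ j) (if_neg hj)

lemma integrable_eC (k : Fin d → ℤ) : Integrable (fun x => eC k x) (haarT d) := by
  refine Integrable.of_bound (continuous_eC k).aestronglyMeasurable 1
    (Filter.Eventually.of_forall fun y => ?_)
  exact (norm_eC k y).le

lemma integral_cosT (k : Fin d → ℤ) :
    ∫ x, cosT k x ∂(haarT d) = if k = 0 then 1 else 0 := by
  have h := integral_re (𝕜 := ℂ) (integrable_eC k)
  have h2 := integral_eC k
  have h3 : ∫ x, cosT k x ∂(haarT d) = (∫ x, eC k x ∂(haarT d)).re := by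
    rw [← Complex.reCLM_apply, ← ContinuousLinearMap.integral_comp_comm _ (integrable_eC k)]
    rfl
  rw [h3, h2]
  split_ifs <;> simp

lemma integral_sinT (k : Fin d → ℤ) : ∫ x, sinT k x ∂(haarT d) = 0 := by
  have h2 := integral_eC k
  have h3 : ∫ x, sinT k x ∂(haarT d) = (∫ x, eC k x ∂(haarT d)).im := by
    rw [← Complex.imCLM_apply, ← ContinuousLinearMap.integral_comp_comm _ (integrable_eC k)]
    rfl
  rw [h3, h2]
  split_ifs <;> simp

lemma eC_add_idx (k m : Fin d → ℤ) (x : Torus d) : eC (k + m) x = eC k x * eC m x := by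
  unfold eC
  rw [← Finset.prod_mul_distrib]
  refine Finset.prod_congr rfl fun j _ => ?_
  rw [Pi.add_apply]
  exact fourier_add

lemma eC_neg_idx (k : Fin d → ℤ) (x : Torus d) :
    eC (-k) x = (starRingEnd ℂ) (eC k x) := by
  unfold eC
  rw [map_prod]
  refine Finset.prod_congr rfl fun j _ => ?_
  rw [Pi.neg_apply]
  exact fourier_neg

lemma cosT_neg (k : Fin d → ℤ) : cosT (-k) = cosT k := by
  ext x
  rw [cosT_apply, cosT_apply, eC_neg_idx, Complex.conj_re]

lemma sinT_neg (k : Fin d → ℤ) : sinT (-k) = -sinT k := by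
  ext x
  rw [ContinuousMap.neg_apply, sinT_apply, sinT_apply, eC_neg_idx, Complex.conj_im]

lemma cos_cos (k m : Fin d → ℤ) (x : Torus d) :
    cosT k x * cosT m x = (cosT (k + m) x + cosT (k + -m) x) / 2 := by
  simp only [cosT_apply, eC_add_idx, eC_neg_idx, Complex.mul_re, Complex.conj_re,
    Complex.conj_im]
  ring

lemma sin_sin (k m : Fin d → ℤ) (x : Torus d) :
    sinT k x * sinT m x = (cosT (k + -m) x - cosT (k + m) x) / 2 := by
  simp only [cosT_apply, sinT_apply, eC_add_idx, eC_neg_idx, Complex.mul_re, Complex.conj_re,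
    Complex.conj_im]
  ring

lemma cos_sin (k m : Fin d → ℤ) (x : Torus d) :
    cosT k x * sinT m x = (sinT (k + m) x - sinT (k + -m) x) / 2 := by
  simp only [cosT_apply, sinT_apply, eC_add_idx, eC_neg_idx, Complex.mul_im, Complex.conj_re,
    Complex.conj_im]
  ring

lemma sin_cos (k m : Fin d → ℤ) (x : Torus d) :
    sinT k x * cosT m x = (sinT (k + m) x + sinT (k + -m) x) / 2 := by
  simp only [cosT_apply, sinT_apply, eC_add_idx, eC_neg_idx, Complex.mul_im, Complex.conj_re,
    Complex.conj_im]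
  ring

lemma intC (f : C(Torus d, ℝ)) : Integrable (fun x => f x) (haarT d) :=
  integrable_of_cont f.continuous

lemma eq2 (k m : Fin d → ℤ) : (k + m = 0) ↔ k = -m := add_eq_zero_iff_eq_neg

lemma int_cos_cos (k m : Fin d → ℤ) : ∫ x, cosT k x * cosT m x ∂(haarT d) =
    ((if k = -m then 1 else 0) + (if k = m then 1 else 0)) / 2 := by
  simp only [cos_cos]
  rw [integral_div, integral_add (intC _) (intC _), integral_cosT, integral_cosT]
  simp only [eq2, neg_neg]

lemma int_sin_sin (k m : Fin d → ℤ) : ∫ x, sinT k x * sinT m x ∂(haarT d) =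
    ((if k = m then 1 else 0) - (if k = -m then 1 else 0)) / 2 := by
  simp only [sin_sin]
  rw [integral_div, integral_sub (intC _) (intC _), integral_cosT, integral_cosT]
  simp only [eq2, neg_neg]

lemma int_cos_sin (k m : Fin d → ℤ) : ∫ x, cosT k x * sinT m x ∂(haarT d) = 0 := by
  simp only [cos_sin]
  rw [integral_div, integral_sub (intC _) (intC _), integral_sinT, integral_sinT]
  simp

lemma int_sin_cos (k m : Fin d → ℤ) : ∫ x, sinT k x * cosT m x ∂(haarT d) = 0 := by
  simp only [sin_cos]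
  rw [integral_div, integral_add (intC _) (intC _), integral_sinT, integral_sinT]
  simp

lemma norm_cosT (k : Fin d → ℤ) : ‖cosT k‖ ≤ 1 := by
  rw [ContinuousMap.norm_le _ zero_le_one]
  intro x
  rw [cosT_apply, Real.norm_eq_abs]
  exact (Complex.abs_re_le_norm _).trans (norm_eC k x).le

lemma norm_sinT (k : Fin d → ℤ) : ‖sinT k‖ ≤ 1 := by
  rw [ContinuousMap.norm_le _ zero_le_one]
  intro x
  rw [sinT_apply, Real.norm_eq_abs]
  exact (Complex.abs_im_le_norm _).trans (norm_eC k x).le

lemma pair_add {Ψ : Torus d → ℝ} (hΨ : Continuous Ψ) (g g' : C(Torus d, ℝ)) :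
    pair Ψ (g + g') = pair Ψ g + pair Ψ g' := by
  unfold pair
  rw [← integral_add (integrable_mul' hΨ g.continuous) (integrable_mul' hΨ g'.continuous)]
  refine integral_congr_ae (Filter.Eventually.of_forall fun z => ?_)
  show Ψ z * (g z + g' z) = Ψ z * g z + Ψ z * g' z
  ring

lemma pair_smul (Ψ : Torus d → ℝ) (c : ℝ) (g : C(Torus d, ℝ)) :
    pair Ψ (c • g) = c * pair Ψ g := by
  unfold pair
  rw [← integral_const_mul]
  refine integral_congr_ae (Filter.Eventually.of_forall fun z => ?_)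
  show Ψ z * (c * g z) = c * (Ψ z * g z)
  ring

lemma pair_comm (f g : C(Torus d, ℝ)) : pair f g = pair g f := by
  unfold pair
  simp only [mul_comm]

lemma pair_bound (f g : C(Torus d, ℝ)) : ‖pair f g‖ ≤ ‖f‖ * ‖g‖ := by
  unfold pair
  have h := norm_integral_le_of_norm_le_const (μ := haarT d) (f := fun z => f z * g z)
    (C := ‖f‖ * ‖g‖) (Filter.Eventually.of_forall fun z => by
      rw [norm_mul]
      exact mul_le_mul (f.norm_coe_le_norm z) (g.norm_coe_le_norm z) (norm_nonneg _)
        (norm_nonneg _))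
  simpa using h

/-- pairing with a continuous function as a continuous linear functional -/
def pairL (f : C(Torus d, ℝ)) : C(Torus d, ℝ) →L[ℝ] ℝ :=
  LinearMap.mkContinuous
    { toFun := fun g => pair f g
      map_add' := fun g g' => pair_add f.continuous g g'
      map_smul' := fun c g => pair_smul f c g } ‖f‖ (fun g => pair_bound f g)

lemma pairL_apply (f g : C(Torus d, ℝ)) : pairL f g = pair f g := rfl

end ReprAux

open ReprAux

theorem repr (Λ : C(Torus d, ℝ) →L[ℝ] ℝ) {a : ℝ} (ha0 : 0 ≤ a)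
    (ha : ∑' k : Fin d → ℤ, ENNReal.ofReal (|Λ (cosT k)| + |Λ (sinT k)|) ≤ ENNReal.ofReal a) :
    ∃ Ψ : Torus d → ℝ, Continuous Ψ ∧ (∀ z, |Ψ z| ≤ a) ∧ ∫ z, |Ψ z| ∂(haarT d) ≤ ‖Λ‖ ∧
      ∀ g : C(Torus d, ℝ), Λ g = pair Ψ g := by
  have hs0 : ∀ k : Fin d → ℤ, 0 ≤ |Λ (cosT k)| + |Λ (sinT k)| := fun k =>
    add_nonneg (abs_nonneg _) (abs_nonneg _)
  have hs : Summable fun k : Fin d → ℤ => |Λ (cosT k)| + |Λ (sinT k)| := by
    have h1 : ∑' k : Fin d → ℤ, ((Real.toNNReal (|Λ (cosT k)| + |Λ (sinT k)|) : ℝ≥0) : ℝ≥0∞) ≠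
        ⊤ := ne_top_of_le_ne_top ENNReal.ofReal_ne_top ha
    have h2 := ENNReal.tsum_coe_ne_top_iff_summable.1 h1
    have h3 := NNReal.summable_coe.2 h2
    refine h3.congr fun k => ?_
    exact Real.coe_toNNReal _ (hs0 k)
  have hsum : ∑' k : Fin d → ℤ, (|Λ (cosT k)| + |Λ (sinT k)|) ≤ a := by
    rw [← ENNReal.ofReal_tsum_of_nonneg hs0 hs] at ha
    exact (ENNReal.ofReal_le_ofReal_iff ha0).1 ha
  set T : (Fin d → ℤ) → C(Torus d, ℝ) := fun k =>
    Λ (cosT k) • cosT k + Λ (sinT k) • sinT k with hT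
  have hTn : ∀ k, ‖T k‖ ≤ |Λ (cosT k)| + |Λ (sinT k)| := by
    intro k
    refine (norm_add_le _ _).trans (add_le_add ?_ ?_)
    · rw [norm_smul, Real.norm_eq_abs]
      exact mul_le_of_le_one_right (abs_nonneg _) (norm_cosT k)
    · rw [norm_smul, Real.norm_eq_abs]
      exact mul_le_of_le_one_right (abs_nonneg _) (norm_sinT k)
  have hTs : Summable T := Summable.of_norm_bounded hs hTn
  set ψ : C(Torus d, ℝ) := ∑' k, T k with hψ
  have hψn : ‖ψ‖ ≤ a := (tsum_of_norm_bounded hs.hasSum hTn).trans hsum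
  have hpair : ∀ g : C(Torus d, ℝ), HasSum (fun k => pair (T k) g) (pair ψ g) := by
    intro g
    have h1 := (pairL g).hasSum hTs.hasSum
    simp only [pairL_apply] at h1
    rw [pair_comm]
    refine h1.congr_fun ?_
    intro k
    exact (pair_comm _ _)
  have hTg : ∀ (k : Fin d → ℤ) (g : C(Torus d, ℝ)), pair (T k) g =
      Λ (cosT k) * ∫ z, cosT k z * g z ∂(haarT d) +
        Λ (sinT k) * ∫ z, sinT k z * g z ∂(haarT d) := by
    intro k g
    unfold pair
    rw [← integral_const_mul, ← integral_const_mul,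
      ← integral_add ((integrable_mul' (cosT k).continuous g.continuous).const_mul _)
        ((integrable_mul' (sinT k).continuous g.continuous).const_mul _)]
    refine integral_congr_ae (Filter.Eventually.of_forall fun z => ?_)
    show (Λ (cosT k) * cosT k z + Λ (sinT k) * sinT k z) * g z =
      Λ (cosT k) * (cosT k z * g z) + Λ (sinT k) * (sinT k z * g z)
    ring
  have hcos : ∀ m : Fin d → ℤ, Λ (cosT m) = pairL ψ (cosT m) := by
    intro m
    have h1 : HasSum (fun k : Fin d → ℤ => if k = m then Λ (cosT m) / 2 else 0)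
        (Λ (cosT m) / 2) := hasSum_ite_eq m _
    have h2 : HasSum (fun k : Fin d → ℤ => if k = -m then Λ (cosT m) / 2 else 0)
        (Λ (cosT m) / 2) := hasSum_ite_eq (-m) _
    have h3 := (h1.add h2).unique ((hpair (cosT m)).congr_fun fun k => by
      show (if k = m then Λ (cosT m) / 2 else 0) + (if k = -m then Λ (cosT m) / 2 else 0) =
        pair (T k) (cosT m)
      rw [hTg, int_cos_cos, int_sin_cos, mul_zero, add_zero]
      by_cases hk : k = m
      · rw [if_pos hk, if_pos hk, hk]
        split_ifs <;> ring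
      · rw [if_neg hk, if_neg hk]
        by_cases hk2 : k = -m
        · rw [if_pos hk2, if_pos hk2, hk2, cosT_neg]
          ring
        · rw [if_neg hk2, if_neg hk2]
          ring)
    rw [pairL_apply, ← h3]
    ring
  have hsin : ∀ m : Fin d → ℤ, Λ (sinT m) = pairL ψ (sinT m) := by
    intro m
    have h1 : HasSum (fun k : Fin d → ℤ => if k = m then Λ (sinT m) / 2 else 0)
        (Λ (sinT m) / 2) := hasSum_ite_eq m _
    have h2 : HasSum (fun k : Fin d → ℤ => if k = -m then Λ (sinT m) / 2 else 0)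
        (Λ (sinT m) / 2) := hasSum_ite_eq (-m) _
    have h3 := (h1.add h2).unique ((hpair (sinT m)).congr_fun fun k => by
      show (if k = m then Λ (sinT m) / 2 else 0) + (if k = -m then Λ (sinT m) / 2 else 0) =
        pair (T k) (sinT m)
      rw [hTg, int_sin_sin, int_cos_sin, mul_zero, zero_add]
      by_cases hk : k = m
      · rw [if_pos hk, if_pos hk, hk]
        by_cases hk2 : m = -m
        · have h4 : sinT m = 0 := by
            have h5 := sinT_neg m
            rw [← hk2] at h5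
            ext x
            have h6 : sinT m x = -(sinT m x) := congrArg (fun f : C(Torus d, ℝ) => f x) h5
            show sinT m x = 0
            linarith
          rw [h4, map_zero]
          simp
        · rw [if_neg hk2, if_neg hk2]
          ring
      · rw [if_neg hk, if_neg hk]
        by_cases hk2 : k = -m
        · rw [if_pos hk2, if_pos hk2, hk2, sinT_neg, map_neg]
          ring
        · rw [if_neg hk2, if_neg hk2]
          ring)
    rw [pairL_apply, ← h3]
    ring
  have hΛ : ∀ g : C(Torus d, ℝ), Λ g = pair ψ g := fun g =>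
    ext_trig Λ (pairL ψ) hcos hsin g
  refine ⟨ψ, ψ.continuous, fun z => ?_, ?_, hΛ⟩
  · have h1 := ψ.norm_coe_le_norm z
    rw [Real.norm_eq_abs] at h1
    exact h1.trans hψn
  · refine le_of_forall_pos_le_add fun ε hε => ?_
    have hpos : ∀ z, 0 < |ψ z| + ε := fun z => by
      have := abs_nonneg (ψ z)
      linarith
    let g : C(Torus d, ℝ) := ⟨fun z => ψ z / (|ψ z| + ε),
      ψ.continuous.div (ψ.continuous.abs.add continuous_const) fun z => (hpos z).ne'⟩
    have hg : ‖g‖ ≤ 1 := by
      rw [ContinuousMap.norm_le _ zero_le_one]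
      intro z
      show ‖ψ z / (|ψ z| + ε)‖ ≤ 1
      rw [Real.norm_eq_abs, abs_div, abs_of_pos (hpos z), div_le_one (hpos z)]
      linarith
    have h1 : Λ g ≤ ‖Λ‖ := by
      have h2 := Λ.le_opNorm g
      rw [Real.norm_eq_abs] at h2
      have h3 : ‖Λ‖ * ‖g‖ ≤ ‖Λ‖ * 1 := mul_le_mul_of_nonneg_left hg (norm_nonneg Λ)
      linarith [le_abs_self (Λ g)]
    have h2 : ∫ z, |ψ z| ∂(haarT d) - ε ≤ Λ g := by
      rw [hΛ g]
      unfold pair
      have h3 : ∫ z, (|ψ z| - ε) ∂(haarT d) = ∫ z, |ψ z| ∂(haarT d) - ε := by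
        rw [integral_sub (integrable_of_cont ψ.continuous.abs) (integrable_const _),
          integral_const]
        simp
      rw [← h3]
      refine integral_mono ((integrable_of_cont ψ.continuous.abs).sub (integrable_const _))
        (integrable_mul' ψ.continuous g.continuous) fun z => ?_
      show |ψ z| - ε ≤ ψ z * (ψ z / (|ψ z| + ε))
      rw [← mul_div_assoc, le_div_iff₀ (hpos z)]
      have h4 : ψ z * ψ z = |ψ z| * |ψ z| := (abs_mul_abs_self _).symm
      rw [h4]
      nlinarith [sq_nonneg ε]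
    linarith

end Pool.Agent.Lib.P51n0
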