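import Pool.Agent.Lib.P51n0.Defs

/-!
Module Rho of MP_51a855_an (part 0): the definition of `rho` and a sum.

Proof of `num_sum`. Group by `m = |s|`: at most `(m+1)^(d-1)` vectors `s ∈ ℕ^d` have `|s| = m`
(the first `d - 1` coordinates determine `s`). Terms with `2^m ≥ T`:
`2^(-rm) (2^m/T)^θ = T^(-θ) 2^(-(r-θ)m)`; with `m = m₀ + i`, `2^m₀ ≥ T > 2^(m₀-1)` (or `m₀ = 0`):
`∑_i (m₀+i+1)^(d-1) 2^(-(r-θ)(m₀+i)) ≤ (m₀+1)^(d-1) 2^(-(r-θ)m₀) ∑_i (i+1)^(d-1) 2^(-(r-θ)i)` and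
`2^(-(r-θ)m₀) ≤ T^(-(r-θ))`, `m₀ + 1 ≤ c (1 + log T)`. Terms with `2^m < T`:
`2^(-rm) (2^m/T)^κ = T^(-κ) 2^((κ-r)m)`, the number of factors `(m+1)^(d-1) ≤ (c(1+log T))^(d-1)`
and the geometric sum over `2^m < T` of `2^((κ-r)m)` is at most `c T^(κ-r)`.
-/

set_option autoImplicit false

open MeasureTheory
open scoped ENNReal NNReal

noncomputable section

namespace Pool.Agent.Lib.P51n0

open Pool.Agent.Lib.P51a855

variable {d : ℕ}

/-- `x^θ` for `x ≥ 1` and `x^κ` for `x < 1` -/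
def rho (θ κ x : ℝ) : ℝ := if 1 ≤ x then x ^ θ else x ^ κ

/-- at most `(m+1)^n` vectors of `ℕ^(n+1)` have sum `m` -/
theorem card_fiber_le (n : ℕ) (S : Finset (Fin (n + 1) → ℕ)) (m : ℕ) :
    (S.filter fun s => ∑ j, s j = m).card ≤ (m + 1) ^ n := by
  have h1 : ((Fintype.piFinset fun _ : Fin n => Finset.range (m + 1))).card = (m + 1) ^ n := by
    simp
  rw [← h1]
  refine Finset.card_le_card_of_injOn (fun s => fun i : Fin n => s i.castSucc) ?_ ?_
  · intro s hs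
    rw [Finset.mem_coe, Finset.mem_filter] at hs
    rw [Finset.mem_coe, Fintype.mem_piFinset]
    intro i
    rw [Finset.mem_range]
    have h2 : s i.castSucc ≤ ∑ j, s j := Finset.single_le_sum (f := s) (fun _ _ => Nat.zero_le _)
      (Finset.mem_univ _)
    show s i.castSucc < m + 1
    omega
  · intro s hs s' hs' h
    rw [Finset.mem_coe, Finset.mem_filter] at hs hs'
    have h3 := hs.2
    have h4 := hs'.2
    rw [Fin.sum_univ_castSucc] at h3 h4
    have h5 : ∀ i : Fin n, s i.castSucc = s' i.castSucc := fun i => congrFun h i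
    have h6 : ∑ i : Fin n, s i.castSucc = ∑ i : Fin n, s' i.castSucc :=
      Finset.sum_congr rfl fun i _ => h5 i
    funext j
    refine Fin.lastCases ?_ (fun i => h5 i) j
    omega

/-- grouping by the sum -/
theorem sum_group (n : ℕ) (S : Finset (Fin (n + 1) → ℕ)) (f : ℕ → ℝ) (hf : ∀ m, 0 ≤ f m) :
    ∃ N : ℕ, ∑ s ∈ S, f (∑ j, s j) ≤ ∑ m ∈ Finset.range N, ((m : ℝ) + 1) ^ n * f m := by
  refine ⟨(S.sup fun s => ∑ j, s j) + 1, ?_⟩
  have h1 : ∀ s ∈ S, ∑ j, s j ∈ Finset.range ((S.sup fun s => ∑ j, s j) + 1) := by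
    intro s hs
    rw [Finset.mem_range]
    exact Nat.lt_succ_of_le (Finset.le_sup (f := fun s : Fin (n + 1) → ℕ => ∑ j, s j) hs)
  rw [← Finset.sum_fiberwise_of_maps_to h1]
  refine Finset.sum_le_sum fun m _ => ?_
  have h2 : ∑ s ∈ S.filter (fun s => ∑ j, s j = m), f (∑ j, s j) =
      ((S.filter fun s => ∑ j, s j = m).card : ℝ) * f m := by
    rw [← nsmul_eq_mul, ← Finset.sum_const]
    refine Finset.sum_congr rfl fun s hs => ?_
    rw [(Finset.mem_filter.1 hs).2]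
  rw [h2]
  refine mul_le_mul_of_nonneg_right ?_ (hf m)
  exact_mod_cast card_fiber_le n S m

/-- geometric sum around an integer -/
theorem sum_abs_pow {q : ℝ} (hq0 : 0 ≤ q) (hq1 : q < 1) (n0 N : ℕ) :
    ∑ m ∈ Finset.range N, q ^ ((m - n0) + (n0 - m)) ≤ 2 * (1 - q)⁻¹ := by
  have hs := summable_geometric_of_lt_one hq0 hq1
  have ht := tsum_geometric_of_lt_one hq0 hq1
  rw [← Finset.sum_filter_add_sum_filter_not (Finset.range N) (fun m => n0 ≤ m)]
  have h1 : ∑ m ∈ (Finset.range N).filter (fun m => n0 ≤ m), q ^ ((m - n0) + (n0 - m)) ≤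
      (1 - q)⁻¹ := by
    have e : ∑ m ∈ (Finset.range N).filter (fun m => n0 ≤ m), q ^ ((m - n0) + (n0 - m)) =
        ∑ k ∈ ((Finset.range N).filter (fun m => n0 ≤ m)).image (fun m => m - n0), q ^ k := by
      rw [Finset.sum_image]
      · refine Finset.sum_congr rfl fun m hm => ?_
        have := (Finset.mem_filter.1 hm).2
        congr 1
        omega
      · intro a ha b hb hab
        have h1 := (Finset.mem_filter.1 ha).2
        have h2 := (Finset.mem_filter.1 hb).2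
        simp only at hab
        omega
    rw [e, ← ht]
    exact hs.sum_le_tsum _ fun k _ => pow_nonneg hq0 k
  have h2 : ∑ m ∈ (Finset.range N).filter (fun m => ¬ n0 ≤ m), q ^ ((m - n0) + (n0 - m)) ≤
      (1 - q)⁻¹ := by
    have e : ∑ m ∈ (Finset.range N).filter (fun m => ¬ n0 ≤ m), q ^ ((m - n0) + (n0 - m)) =
        ∑ k ∈ ((Finset.range N).filter (fun m => ¬ n0 ≤ m)).image (fun m => n0 - m), q ^ k := by
      rw [Finset.sum_image]
      · refine Finset.sum_congr rfl fun m hm => ?_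
        have := (Finset.mem_filter.1 hm).2
        congr 1
        omega
      · intro a ha b hb hab
        have h1 := (Finset.mem_filter.1 ha).2
        have h2 := (Finset.mem_filter.1 hb).2
        simp only at hab
        omega
    rw [e, ← ht]
    exact hs.sum_le_tsum _ fun k _ => pow_nonneg hq0 k
  linarith

/-- polynomials are dominated by exponentials -/
theorem poly_le_exp (n : ℕ) {ε : ℝ} (hε : 0 < ε) :
    ∃ a : ℝ, 0 < a ∧ ∀ x : ℝ, 0 ≤ x → (1 + x) ^ n ≤ a * (2 : ℝ) ^ (ε * x) := by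
  set e : ℝ := ε / (n + 1) with he
  have he0 : 0 < e := by positivity
  have hl : 0 < Real.log 2 := Real.log_pos one_lt_two
  refine ⟨(1 + 1 / (e * Real.log 2)) ^ n, by positivity, fun x hx => ?_⟩
  have h1 : 1 + x ≤ (1 + 1 / (e * Real.log 2)) * (2 : ℝ) ^ (e * x) := by
    have h2 : 1 + e * Real.log 2 * x ≤ (2 : ℝ) ^ (e * x) := by
      rw [Real.rpow_def_of_pos two_pos]
      have := Real.add_one_le_exp (Real.log 2 * (e * x))
      linarith
    have h3 : 0 < 1 + 1 / (e * Real.log 2) := by positivity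
    refine le_trans ?_ (mul_le_mul_of_nonneg_left h2 h3.le)
    have h4 : (1 + 1 / (e * Real.log 2)) * (1 + e * Real.log 2 * x) =
        1 + x + (e * Real.log 2 * x + 1 / (e * Real.log 2)) := by
      field_simp
      ring
    rw [h4]
    have : 0 ≤ e * Real.log 2 * x + 1 / (e * Real.log 2) := by positivity
    linarith
  calc (1 + x) ^ n ≤ ((1 + 1 / (e * Real.log 2)) * (2 : ℝ) ^ (e * x)) ^ n :=
        pow_le_pow_left₀ (by linarith) h1 n
    _ = (1 + 1 / (e * Real.log 2)) ^ n * (2 : ℝ) ^ (e * x * n) := by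
        rw [mul_pow, ← Real.rpow_natCast ((2 : ℝ) ^ (e * x)) n, ← Real.rpow_mul two_pos.le]
    _ ≤ (1 + 1 / (e * Real.log 2)) ^ n * (2 : ℝ) ^ (ε * x) := by
        refine mul_le_mul_of_nonneg_left ?_ (by positivity)
        refine Real.rpow_le_rpow_of_exponent_le one_le_two ?_
        have h5 : e * n ≤ ε := by
          rw [he, div_mul_eq_mul_div, div_le_iff₀ (by positivity)]
          nlinarith
        nlinarith [mul_le_mul_of_nonneg_right h5 hx]

/-- the summand in terms of `|m - L|`, `T = 2^L` -/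
theorem term_le {r θ κ δ L : ℝ} (h1 : δ ≤ r - θ) (h2 : δ ≤ κ - r) (m : ℕ) :
    (2 : ℝ) ^ (-(r * m)) * rho θ κ ((2 : ℝ) ^ m / (2 : ℝ) ^ L) ≤
      ((2 : ℝ) ^ L) ^ (-r) * (2 : ℝ) ^ (-(δ * |(m : ℝ) - L|)) := by
  have e1 : (2 : ℝ) ^ m / (2 : ℝ) ^ L = (2 : ℝ) ^ ((m : ℝ) - L) := by
    rw [Real.rpow_sub two_pos, Real.rpow_natCast]
  have e2 : ((2 : ℝ) ^ L) ^ (-r) = (2 : ℝ) ^ (-(r * L)) := by
    rw [← Real.rpow_mul two_pos.le]
    congr 1
    ring
  rw [e1, e2]
  unfold rho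
  split_ifs with h
  · have h3 : 0 ≤ (m : ℝ) - L := by
      by_contra h4
      push Not at h4
      have := Real.rpow_lt_one_of_one_lt_of_neg one_lt_two h4
      linarith
    rw [abs_of_nonneg h3, ← Real.rpow_mul two_pos.le, ← Real.rpow_add two_pos,
      ← Real.rpow_add two_pos]
    refine Real.rpow_le_rpow_of_exponent_le one_le_two ?_
    nlinarith [mul_le_mul_of_nonneg_right h1 h3]
  · have h3 : (m : ℝ) - L < 0 := by
      by_contra h4
      push Not at h4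
      exact h (Real.one_le_rpow one_le_two h4)
    rw [abs_of_neg h3, ← Real.rpow_mul two_pos.le, ← Real.rpow_add two_pos,
      ← Real.rpow_add two_pos]
    refine Real.rpow_le_rpow_of_exponent_le one_le_two ?_
    nlinarith [mul_le_mul_of_nonneg_right h2 (by linarith : 0 ≤ -((m : ℝ) - L))]

theorem rho_nonneg {θ κ x : ℝ} (hx : 0 ≤ x) : 0 ≤ rho θ κ x := by
  unfold rho
  split_ifs
  · exact Real.rpow_nonneg hx _
  · exact Real.rpow_nonneg hx _

theorem num_sum (d : ℕ) (hd : 1 ≤ d) (r θ κ : ℝ) (hθ0 : 0 ≤ θ) (hθ : θ < r) (hκ : r < κ) :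
    ∃ C : ℝ, 0 < C ∧ ∀ T : ℝ, 1 ≤ T → ∀ S : Finset (Fin d → ℕ),
      ∑ s ∈ S, (2 : ℝ) ^ (-(r * ∑ j, (s j : ℝ))) * rho θ κ ((2 : ℝ) ^ (∑ j, s j) / T) ≤
        C * T ^ (-r) * (1 + Real.log T) ^ (d - 1) := by
  obtain ⟨n, rfl⟩ : ∃ n, d = n + 1 := ⟨d - 1, by omega⟩
  rw [Nat.add_sub_cancel]
  set δ : ℝ := min (r - θ) (κ - r) with hδ
  have hδ0 : 0 < δ := lt_min (by linarith) (by linarith)
  obtain ⟨a, ha, hpoly⟩ := poly_le_exp n (half_pos hδ0)
  set q : ℝ := (2 : ℝ) ^ (-(δ / 2)) with hq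
  have hq0 : 0 < q := Real.rpow_pos_of_pos two_pos _
  have hq1 : q < 1 := Real.rpow_lt_one_of_one_lt_of_neg one_lt_two (by linarith)
  have hl : 0 < Real.log 2 := Real.log_pos one_lt_two
  have hl1 : Real.log 2 < 1 := by
    have := Real.log_two_lt_d9
    linarith
  have hq1' : 0 < 1 - q := by linarith
  refine ⟨(1 / Real.log 2) ^ n * (a * ((2 : ℝ) ^ (δ / 2) * (2 * (1 - q)⁻¹))), by positivity,
    fun T hT S => ?_⟩
  have hT0 : 0 < T := by linarith
  set L : ℝ := Real.log T / Real.log 2 with hL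
  have hlog : 0 ≤ Real.log T := Real.log_nonneg hT
  have hL0 : 0 ≤ L := div_nonneg hlog hl.le
  have hTL : (2 : ℝ) ^ L = T := by
    rw [Real.rpow_def_of_pos two_pos, hL, mul_div_cancel₀ _ hl.ne', Real.exp_log hT0]
  set f : ℕ → ℝ := fun m => (2 : ℝ) ^ (-(r * m)) * rho θ κ ((2 : ℝ) ^ m / T) with hf
  have hf0 : ∀ m, 0 ≤ f m := fun m =>
    mul_nonneg (Real.rpow_nonneg two_pos.le _) (rho_nonneg (by positivity))
  obtain ⟨N, hN⟩ := sum_group n S f hf0
  have e1 : ∑ s ∈ S, (2 : ℝ) ^ (-(r * ∑ j, (s j : ℝ))) * rho θ κ ((2 : ℝ) ^ (∑ j, s j) / T) =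
      ∑ s ∈ S, f (∑ j, s j) := by
    refine Finset.sum_congr rfl fun s _ => ?_
    rw [hf]
    simp only
    rw [Nat.cast_sum]
  rw [e1]
  refine hN.trans ?_
  have hTr : 0 < T ^ (-r) := Real.rpow_pos_of_pos hT0 _
  set n0 : ℕ := ⌊L⌋₊ with hn0
  have hfl : (n0 : ℝ) ≤ L := Nat.floor_le hL0
  have hfl' : L < n0 + 1 := Nat.lt_floor_add_one L
  have hterm : ∀ m ∈ Finset.range N, ((m : ℝ) + 1) ^ n * f m ≤
      (1 + L) ^ n * T ^ (-r) * (a * ((2 : ℝ) ^ (δ / 2))) * q ^ ((m - n0) + (n0 - m)) := by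
    intro m _
    have h1 := term_le (r := r) (θ := θ) (κ := κ) (L := L) (min_le_left _ _) (min_le_right _ _) m
    rw [hTL, ← hδ] at h1
    have hx : 0 ≤ |(m : ℝ) - L| := abs_nonneg _
    have h2 : (m : ℝ) + 1 ≤ (1 + L) * (1 + |(m : ℝ) - L|) := by
      have := le_abs_self ((m : ℝ) - L)
      nlinarith [mul_nonneg hL0 hx]
    have h3 : ((m : ℝ) + 1) ^ n ≤ (1 + L) ^ n * (1 + |(m : ℝ) - L|) ^ n := by
      rw [← mul_pow]
      exact pow_le_pow_left₀ (by positivity) h2 n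
    have h4 := hpoly _ hx
    have h5 : (2 : ℝ) ^ (δ / 2 * |(m : ℝ) - L|) * (2 : ℝ) ^ (-(δ * |(m : ℝ) - L|)) =
        (2 : ℝ) ^ (-(δ / 2 * |(m : ℝ) - L|)) := by
      rw [← Real.rpow_add two_pos]
      congr 1
      ring
    have h6 : (2 : ℝ) ^ (-(δ / 2 * |(m : ℝ) - L|)) ≤
        (2 : ℝ) ^ (δ / 2) * q ^ ((m - n0) + (n0 - m)) := by
      rw [hq, ← Real.rpow_natCast, ← Real.rpow_mul two_pos.le, ← Real.rpow_add two_pos]
      refine Real.rpow_le_rpow_of_exponent_le one_le_two ?_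
      have h7 : (((m - n0) + (n0 - m) : ℕ) : ℝ) ≤ 1 + |(m : ℝ) - L| := by
        rcases le_total n0 m with h | h
        · have : ((m - n0) + (n0 - m) : ℕ) = m - n0 := by omega
          rw [this, Nat.cast_sub h]
          have := le_abs_self ((m : ℝ) - L)
          linarith
        · have : ((m - n0) + (n0 - m) : ℕ) = n0 - m := by omega
          rw [this, Nat.cast_sub h]
          have := neg_abs_le ((m : ℝ) - L)
          linarith
      nlinarith
    calc ((m : ℝ) + 1) ^ n * f m ≤ ((1 + L) ^ n * (1 + |(m : ℝ) - L|) ^ n) *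
          (T ^ (-r) * (2 : ℝ) ^ (-(δ * |(m : ℝ) - L|))) :=
          mul_le_mul h3 h1 (hf0 m) (by positivity)
      _ ≤ ((1 + L) ^ n * (a * (2 : ℝ) ^ (δ / 2 * |(m : ℝ) - L|))) *
          (T ^ (-r) * (2 : ℝ) ^ (-(δ * |(m : ℝ) - L|))) := by
          refine mul_le_mul_of_nonneg_right ?_ (by positivity)
          exact mul_le_mul_of_nonneg_left h4 (by positivity)
      _ = (1 + L) ^ n * T ^ (-r) * a * ((2 : ℝ) ^ (δ / 2 * |(m : ℝ) - L|) *
          (2 : ℝ) ^ (-(δ * |(m : ℝ) - L|))) := by ring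
      _ ≤ (1 + L) ^ n * T ^ (-r) * a * ((2 : ℝ) ^ (δ / 2) * q ^ ((m - n0) + (n0 - m))) := by
          rw [h5]
          exact mul_le_mul_of_nonneg_left h6 (by positivity)
      _ = _ := by ring
  refine (Finset.sum_le_sum hterm).trans ?_
  rw [← Finset.mul_sum]
  have h8 := sum_abs_pow hq0.le hq1 n0 N
  have h9 : (1 + L) ^ n ≤ (1 / Real.log 2) ^ n * (1 + Real.log T) ^ n := by
    rw [← mul_pow]
    refine pow_le_pow_left₀ (by positivity) ?_ n
    rw [hL, one_div, inv_mul_eq_div, add_div]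
    have : 1 ≤ 1 / Real.log 2 := by
      rw [one_le_div hl]
      exact hl1.le
    linarith
  calc (1 + L) ^ n * T ^ (-r) * (a * (2 : ℝ) ^ (δ / 2)) *
        ∑ m ∈ Finset.range N, q ^ ((m - n0) + (n0 - m)) ≤
      ((1 / Real.log 2) ^ n * (1 + Real.log T) ^ n) * T ^ (-r) * (a * (2 : ℝ) ^ (δ / 2)) *
        (2 * (1 - q)⁻¹) := by
        refine mul_le_mul ?_ h8 (Finset.sum_nonneg fun m _ => pow_nonneg hq0.le _) (by positivity)
        refine mul_le_mul_of_nonneg_right ?_ (by positivity)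
        exact mul_le_mul_of_nonneg_right h9 hTr.le
    _ = _ := by ring

end Pool.Agent.Lib.P51n0
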