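import Pool.Agent.Lib.P51n0.Defs

/-!
Module Schur of MP_51a855_an (part 0).

Real algebraic integers with norm form bounded below.

Proof. `d = 0` is trivial. Put `P = ∏_{j<d} (X - 4j) - 1 ∈ ℤ[X]`, monic of degree `d`.
(1) `P` is irreducible over `ℤ` (hence over `ℚ`, Gauss): if `P = g h` with `g, h` monic of positive
degree, then `g(4j) h(4j) = -1` for `j < d`, so `g(4j) = -h(4j) = ±1` (integers), hence `g + h`,
of degree `< d` has `d` roots and vanishes, so `g = -h`, contradiction to both being monic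
(leading coefficients `1 = -1`).
(2) `P` has `d` different real roots: at `4i - 2`, `i = 0, …, d`, `|∏ (4i - 2 - 4j)| ≥ 2` and the
sign of the product is `(-1)^(d-i)`, so `P` changes sign strictly on each interval
`(4i-2, 4i+2)`, `i < d`; let `ξ_i` be a root in it (intermediate value theorem); injective since the
intervals are disjoint. So over `ℝ` `P = ∏ (X - ξ_j)`.
(3) For `z ≠ 0` put `g = ∑ z_i X^i ∈ ℤ[X]`, `g ≠ 0`, `deg g < d`. `∏_j g(ξ_j)` is an integer: it is
the resultant of `P` and `g`, or the determinant of `g(companion matrix of P)`, or the norm from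
`ℚ[X]/(P)` of the integral element `g(root)` (`Algebra.isIntegral_norm`,
`Algebra.norm_eq_prod_embeddings`), or use the fundamental theorem on symmetric functions. It is
not zero, since `g(ξ_j) = 0` would imply `P ∣ g` (`P` is the minimal polynomial of `ξ_j`). Hence
its absolute value is at least one.
-/

set_option autoImplicit false

open MeasureTheory
open scoped ENNReal NNReal

noncomputable section

namespace Pool.Agent.Lib.P51n0

open Pool.Agent.Lib.P51a855

variable {d : ℕ}

namespace SchurAux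

open Polynomial

/-- The polynomial `∏ (X - 4 j) - 1`. -/
def P (d : ℕ) : ℤ[X] := (∏ j : Fin d, (X - C (4 * ((j : ℕ) : ℤ)))) - C 1

theorem deg_P (d : ℕ) : (P d).natDegree = d := by
  rw [P, natDegree_sub_C, natDegree_finsetProd_X_sub_C_eq_card, Finset.card_univ,
    Fintype.card_fin]

theorem monic_P {d : ℕ} (hd : 0 < d) : (P d).Monic := by
  have h1 : (∏ j : Fin d, (X - C (4 * ((j : ℕ) : ℤ)))).Monic := monic_prod_X_sub_C _ _
  refine h1.sub_of_left ?_
  have h2 : (∏ j : Fin d, (X - C (4 * ((j : ℕ) : ℤ)))).natDegree = d := by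
    rw [natDegree_finsetProd_X_sub_C_eq_card, Finset.card_univ, Fintype.card_fin]
  rw [degree_eq_natDegree h1.ne_zero, h2]
  refine (degree_C_le).trans_lt ?_
  exact_mod_cast hd

theorem eval_P {d : ℕ} (j : Fin d) : (P d).eval (4 * ((j : ℕ) : ℤ)) = -1 := by
  rw [P, eval_sub, eval_prod, eval_C, Finset.prod_eq_zero (Finset.mem_univ j) (by simp)]
  ring

theorem irr_P {d : ℕ} (hd : 0 < d) : Irreducible (P d) := by
  rw [(monic_P hd).irreducible_iff_natDegree]
  constructor
  · intro h
    have := deg_P d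
    rw [h, natDegree_one] at this
    omega
  · intro f g hf hg hfg
    by_contra hcon
    push Not at hcon
    obtain ⟨h1, h2⟩ := hcon
    have hdeg : f.natDegree + g.natDegree = d := by
      rw [← hf.natDegree_mul hg, hfg, deg_P]
    have h3 : ∀ j : Fin d, (f + g).eval (4 * ((j : ℕ) : ℤ)) = 0 := by
      intro j
      have h4 : f.eval (4 * ((j : ℕ) : ℤ)) * g.eval (4 * ((j : ℕ) : ℤ)) = -1 := by
        rw [← eval_mul, hfg, eval_P]
      rw [eval_add]
      rcases Int.mul_eq_neg_one_iff_eq_one_or_neg_one.1 h4 with ⟨h5, h6⟩ | ⟨h5, h6⟩ <;>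
        rw [h5, h6] <;> norm_num
    have h4 : f + g = 0 := by
      refine eq_zero_of_natDegree_lt_card_of_eval_eq_zero (f + g)
        (f := fun j : Fin d => 4 * ((j : ℕ) : ℤ)) ?_ h3 ?_
      · intro a b hab
        apply Fin.ext
        simp only at hab
        omega
      · rw [Fintype.card_fin]
        refine (natDegree_add_le _ _).trans_lt ?_
        rw [max_lt_iff]
        omega
    have h5 : f = -g := eq_neg_of_add_eq_zero_left h4
    have h6 : f.leadingCoeff = -1 := by rw [h5, leadingCoeff_neg, hg.leadingCoeff]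
    rw [hf.leadingCoeff] at h6
    norm_num at h6

theorem sign_prod (d i : ℕ) (hd : 0 < d) :
    2 ≤ (-1 : ℝ) ^ (d - i) * ∏ j ∈ Finset.range d, ((4 * (i : ℝ) - 2) - 4 * (j : ℝ)) := by
  have h1 : ∀ j ∈ Finset.range d, ((4 * (i : ℝ) - 2) - 4 * (j : ℝ)) =
      (if j < i then 1 else -1) * |(4 * (i : ℝ) - 2) - 4 * (j : ℝ)| := by
    intro j _
    split_ifs with h
    · have : (j : ℝ) + 1 ≤ i := by exact_mod_cast h
      rw [abs_of_nonneg (by linarith), one_mul]
    · have : (i : ℝ) ≤ j := by exact_mod_cast not_lt.1 h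
      rw [abs_of_nonpos (by linarith)]
      ring
  have h2 : ∀ j ∈ Finset.range d, 2 ≤ |(4 * (i : ℝ) - 2) - 4 * (j : ℝ)| := by
    intro j _
    rcases lt_or_ge j i with h | h
    · have : (j : ℝ) + 1 ≤ i := by exact_mod_cast h
      rw [abs_of_nonneg (by linarith)]
      linarith
    · have : (i : ℝ) ≤ j := by exact_mod_cast h
      rw [abs_of_nonpos (by linarith)]
      linarith
  rw [Finset.prod_congr rfl h1, Finset.prod_mul_distrib, Finset.prod_ite, Finset.prod_const_one,
    one_mul, Finset.prod_const]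
  have h3 : (Finset.filter (fun j => ¬ j < i) (Finset.range d)).card = d - i := by
    have : Finset.filter (fun j => ¬ j < i) (Finset.range d) = Finset.Ico i d := by
      ext j
      simp only [Finset.mem_filter, Finset.mem_range, Finset.mem_Ico]
      omega
    rw [this, Nat.card_Ico]
  rw [h3, ← mul_assoc, ← pow_add]
  have h4 : (-1 : ℝ) ^ (d - i + (d - i)) = 1 := by
    rw [← two_mul, pow_mul]
    norm_num
  rw [h4, one_mul]
  have h5 : ∏ j ∈ Finset.range d, (2 : ℝ) ≤
      ∏ j ∈ Finset.range d, |(4 * (i : ℝ) - 2) - 4 * (j : ℝ)| :=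
    Finset.prod_le_prod (fun _ _ => by norm_num) h2
  rw [Finset.prod_const, Finset.card_range] at h5
  refine le_trans ?_ h5
  calc (2 : ℝ) = 2 ^ 1 := by norm_num
    _ ≤ 2 ^ d := pow_le_pow_right₀ (by norm_num) hd

/-- the real function -/
def fP (d : ℕ) (x : ℝ) : ℝ := (∏ j ∈ Finset.range d, (x - 4 * (j : ℝ))) - 1

theorem cont_fP (d : ℕ) : Continuous (fP d) := by
  unfold fP
  fun_prop

theorem sign_fP (d i : ℕ) (hd : 0 < d) :
    0 < (-1 : ℝ) ^ (d - i) * fP d (4 * (i : ℝ) - 2) := by
  have h1 := sign_prod d i hd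
  unfold fP
  rw [mul_sub, mul_one]
  have h2 : (-1 : ℝ) ^ (d - i) ≤ 1 := by
    rcases neg_one_pow_eq_or ℝ (d - i) with h | h <;> rw [h] <;> norm_num
  linarith

theorem exists_root (d i : ℕ) (hi : i < d) :
    ∃ x : ℝ, 4 * (i : ℝ) - 2 < x ∧ x < 4 * (i : ℝ) + 2 ∧ fP d x = 0 := by
  have h1 := sign_fP d i (by omega)
  have h2 := sign_fP d (i + 1) (by omega)
  have h3 : (-1 : ℝ) ^ (d - i) = - (-1 : ℝ) ^ (d - (i + 1)) := by
    have : d - i = (d - (i + 1)) + 1 := by omega
    rw [this, pow_succ]
    ring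
  have h4 : (4 * ((i + 1 : ℕ) : ℝ) - 2) = 4 * (i : ℝ) + 2 := by push_cast; ring
  rw [h4] at h2
  have h5 : (-1 : ℝ) ^ (d - i) * fP d (4 * (i : ℝ) + 2) < 0 := by
    rw [h3]
    linarith
  have hab : 4 * (i : ℝ) - 2 ≤ 4 * (i : ℝ) + 2 := by linarith
  have h6 := intermediate_value_Ioo' hab
    (f := fun x => (-1 : ℝ) ^ (d - i) * fP d x)
    ((continuous_const.mul (cont_fP d)).continuousOn)
  obtain ⟨x, hx, hx0⟩ := h6 ⟨h5, h1⟩
  refine ⟨x, hx.1, hx.2, ?_⟩
  simp only at hx0
  rcases mul_eq_zero.1 hx0 with h | h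
  · exact absurd h (pow_ne_zero _ (by norm_num))
  · exact h

theorem eval_map_P (d : ℕ) (x : ℝ) : ((P d).map (Int.castRingHom ℝ)).eval x = fP d x := by
  rw [P, fP, Polynomial.map_sub, Polynomial.map_prod, eval_sub, eval_prod, map_C]
  rw [Finset.prod_range fun j => (x - 4 * (j : ℝ))]
  congr 1
  · refine Finset.prod_congr rfl fun j _ => ?_
    simp
  · simp

end SchurAux

section

open SchurAux Polynomial

theorem schur (d : ℕ) : ∃ ξ : Fin d → ℝ, Function.Injective ξ ∧
    ∀ z : Fin d → ℤ, z ≠ 0 → 1 ≤ |∏ j, ∑ i : Fin d, (z i : ℝ) * ξ j ^ (i : ℕ)| := by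
  rcases Nat.eq_zero_or_pos d with rfl | hd
  · exact ⟨fun _ => 0, fun a => a.elim0, fun z hz => absurd (Subsingleton.elim z 0) hz⟩
  choose ξ hξ1 hξ2 hξ3 using fun i : Fin d => exists_root d i i.2
  have hinj : Function.Injective ξ := by
    intro a b hab
    by_contra hne
    rcases lt_or_gt_of_ne (fun h : (a : ℕ) = b => hne (Fin.ext h)) with h | h
    · have h1 : ((a : ℕ) : ℝ) + 1 ≤ (b : ℕ) := by exact_mod_cast h
      have := hξ2 a
      have := hξ1 b
      linarith
    · have h1 : ((b : ℕ) : ℝ) + 1 ≤ (a : ℕ) := by exact_mod_cast h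
      have := hξ2 b
      have := hξ1 a
      linarith
  refine ⟨ξ, hinj, ?_⟩
  intro z hz
  set PR : ℝ[X] := (P d).map (Int.castRingHom ℝ) with hPR
  have hmon : PR.Monic := (monic_P hd).map _
  have hdeg : PR.natDegree = d := by
    rw [hPR, (monic_P hd).natDegree_map, deg_P]
  -- roots
  have hroots : PR.roots = (Finset.univ : Finset (Fin d)).val.map ξ := by
    symm
    apply Multiset.eq_of_le_of_card_le
    · rw [Multiset.le_iff_subset (Multiset.Nodup.map hinj Finset.univ.nodup)]
      intro x hx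
      obtain ⟨j, _, rfl⟩ := Multiset.mem_map.1 hx
      rw [mem_roots hmon.ne_zero, IsRoot, eval_map_P]
      exact hξ3 j
    · refine (card_roots' _).trans ?_
      rw [hdeg, Multiset.card_map]
      simp
  have hsplit : PR.Splits := by
    rw [splits_iff_card_roots, hroots, hdeg]
    simp
  set g : ℤ[X] := ∑ i : Fin d, C (z i) * X ^ (i : ℕ) with hg
  have hcoeff : ∀ i : Fin d, g.coeff i = z i := by
    intro i
    rw [hg, finsetSum_coeff]
    rw [Finset.sum_eq_single i]
    · rw [coeff_C_mul_X_pow, if_pos rfl]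
    · intro b _ hb
      rw [coeff_C_mul_X_pow, if_neg]
      exact fun h => hb (Fin.ext h.symm)
    · intro h
      exact absurd (Finset.mem_univ i) h
  have hg0 : g ≠ 0 := by
    intro h
    apply hz
    funext i
    rw [← hcoeff i, h, coeff_zero]
    rfl
  have hgdeg : g.degree < d := by
    rw [hg]
    refine (degree_sum_le _ _).trans_lt ?_
    rw [Finset.sup_lt_iff (by exact WithBot.bot_lt_coe d)]
    intro i _
    refine (degree_C_mul_X_pow_le _ _).trans_lt ?_
    exact_mod_cast i.2
  have hres := resultant_eq_prod_eval PR (g.map (Int.castRingHom ℝ)) g.natDegree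
    natDegree_map_le hsplit
  rw [hmon.leadingCoeff, one_pow, one_mul, hroots, Multiset.map_map, hdeg] at hres
  have hprod : (Multiset.map ((fun x => eval x (g.map (Int.castRingHom ℝ))) ∘ ξ)
      (Finset.univ : Finset (Fin d)).val).prod =
      ∏ j, ∑ i : Fin d, (z i : ℝ) * ξ j ^ (i : ℕ) := by
    change ∏ j, ((fun x => eval x (g.map (Int.castRingHom ℝ))) ∘ ξ) j = _
    refine Finset.prod_congr rfl fun j _ => ?_
    simp only [Function.comp_apply, hg, Polynomial.map_sum, eval_finsetSum]
    refine Finset.sum_congr rfl fun i _ => ?_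
    simp
  have hres' := hres.trans hprod
  rw [hPR, resultant_map_map] at hres'
  rw [← hres']
  have hne : (P d).resultant g d g.natDegree ≠ 0 := by
    have h1 : Irreducible ((P d).map (Int.castRingHom ℚ)) :=
      (IsPrimitive.Int.irreducible_iff_irreducible_map_cast (monic_P hd).isPrimitive).1
        (irr_P hd)
    have hinjQ : Function.Injective (Int.castRingHom ℚ) := Int.cast_injective
    have h2 : IsCoprime ((P d).map (Int.castRingHom ℚ)) (g.map (Int.castRingHom ℚ)) := by
      rw [h1.coprime_iff_not_dvd]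
      intro hdvd
      have h3 : g.map (Int.castRingHom ℚ) ≠ 0 := by
        rwa [Ne, Polynomial.map_eq_zero_iff hinjQ]
      have h4 := degree_le_of_dvd hdvd h3
      rw [degree_map_eq_of_injective hinjQ, degree_map_eq_of_injective hinjQ,
        degree_eq_natDegree (monic_P hd).ne_zero, deg_P] at h4
      exact absurd hgdeg (not_lt.2 h4)
    have h3 := resultant_ne_zero _ _ h2
    rw [natDegree_map_eq_of_injective hinjQ, natDegree_map_eq_of_injective hinjQ, deg_P,
      resultant_map_map] at h3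
    intro h4
    rw [h4, map_zero] at h3
    exact h3 rfl
  have h5 : 1 ≤ |(P d).resultant g d g.natDegree| := Int.one_le_abs hne
  have h6 : ((1 : ℤ) : ℝ) ≤ ((|(P d).resultant g d g.natDegree| : ℤ) : ℝ) := by exact_mod_cast h5
  rw [Int.cast_abs] at h6
  simpa using h6

end

end Pool.Agent.Lib.P51n0
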